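import Pool.Agent.Run7.h953.KP.Liou
import Pool.Agent.R414.DU.Fz

set_option autoImplicit false
set_option linter.unusedSectionVars false
set_option maxHeartbeats 1000000

/-! Curves with a prescribed leading form and a huge point. -/

open Finset

namespace Pool.Agent.Run7.h953.KP

open Pool.Agent.R414.DN Pool.Agent.R414.DS Pool.Agent.R414.DT Pool.Agent.R414.DU

variable {d : ℕ}

section

variable {H : ℕ} {c : ℝ} (hH : 1 ≤ H) (hc0 : 0 < c) (hc1 : c ≤ 1)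

include hH hc0 hc1

/-- the conditions on the lower limit -/
lemma mid_conds {Y₀ g : ℝ} (hg0 : 0 < g) (hg1 : g ≤ 1)
    (hY0 : 312 * KN d 1 ^ 5 * c1 d * (1 / c) ^ 5 * (1 / g) * (H : ℝ) ^ 6 ≤ Y₀) :
    4 * d ^ 2 * c1 d ^ 2 * (H / c) ^ 2 ≤ Y₀ ∧ 156 * KN d (H / c) ^ 3 ≤ Y₀ ∧
    312 * KN d (H / c) ^ 5 ≤ g / (c1 d * H) * Y₀ ∧ 2 * (H : ℝ) < Y₀ := by
  have hH' : (1 : ℝ) ≤ H := by exact_mod_cast hH
  have hH0 : (0 : ℝ) < H := by linarith
  have hcp := c1_pos d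
  have hK := KN_one (d := d) (le_refl (1 : ℝ))
  obtain ⟨v, hv⟩ : ∃ v : ℝ, v = 1 / c := ⟨_, rfl⟩
  have hv1 : 1 ≤ v := by rw [hv, le_div_iff₀ hc0]; linarith
  have hwv : (H : ℝ) / c = v * H := by rw [hv]; ring
  obtain ⟨r, hr⟩ : ∃ r : ℝ, r = 1 / g := ⟨_, rfl⟩
  have hr1 : 1 ≤ r := by rw [hr, le_div_iff₀ hg0]; linarith
  have hr0 : 0 < r := by linarith
  have hgr : g = 1 / r := by rw [hr]; field_simp
  rw [← hv, ← hr] at hY0
  have hKd : 2 * d * c1 d ≤ KN d 1 := by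
    have h1 := (KN_ge (d := d) (le_refl (1 : ℝ))).1
    unfold WW at h1
    linarith
  have hpow : ∀ m n : ℕ, m ≤ 5 → n ≤ 6 → v ^ m * (H : ℝ) ^ n ≤ v ^ 5 * r * (H : ℝ) ^ 6 := by
    intro m n hm hn
    have h1 : v ^ m ≤ v ^ 5 := pow_le_pow_right₀ hv1 hm
    have h2 : (H : ℝ) ^ n ≤ (H : ℝ) ^ 6 := pow_le_pow_right₀ hH' hn
    calc v ^ m * (H : ℝ) ^ n = v ^ m * 1 * (H : ℝ) ^ n := by ring
      _ ≤ _ := by gcongr
  refine ⟨?_, ?_, ?_, ?_⟩
  · refine le_trans ?_ hY0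
    rw [hwv]
    calc 4 * d ^ 2 * c1 d ^ 2 * (v * H) ^ 2 = 1 * (2 * d * c1 d) ^ 2 * 1 * (v ^ 2 * (H : ℝ) ^ 2) := by
          ring
      _ ≤ 312 * KN d 1 ^ 5 * c1 d * (v ^ 5 * r * (H : ℝ) ^ 6) := by
        have h1 : (2 * d * c1 d) ^ 2 ≤ KN d 1 ^ 5 :=
          (pow_le_pow_left₀ (by positivity) hKd 2).trans (pow_le_pow_right₀ hK (by norm_num))
        have h2 := hpow 2 2 (by norm_num) (by norm_num)
        gcongr
        norm_num
      _ = _ := by ring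
  · refine le_trans ?_ hY0
    rw [hwv, KN_scale]
    calc 156 * (KN d 1 * (v * H)) ^ 3 = 156 * KN d 1 ^ 3 * 1 * (v ^ 3 * (H : ℝ) ^ 3) := by ring
      _ ≤ 312 * KN d 1 ^ 5 * c1 d * (v ^ 5 * r * (H : ℝ) ^ 6) := by
        have h1 : KN d 1 ^ 3 ≤ KN d 1 ^ 5 := pow_le_pow_right₀ hK (by norm_num)
        have h2 := hpow 3 3 (by norm_num) (by norm_num)
        gcongr
        norm_num
      _ = _ := by ring
  · rw [div_mul_eq_mul_div, le_div_iff₀ (by positivity), hwv, KN_scale, hgr, one_div_mul_eq_div,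
      le_div_iff₀ hr0]
    refine le_trans (le_of_eq ?_) hY0
    ring
  · refine lt_of_lt_of_le ?_ hY0
    calc 2 * (H : ℝ) < 312 * 1 * 1 * (v ^ 0 * (H : ℝ) ^ 1) := by
          rw [pow_zero, pow_one]
          linarith
      _ ≤ 312 * KN d 1 ^ 5 * c1 d * (v ^ 5 * r * (H : ℝ) ^ 6) := by
        have h1 : 1 ≤ KN d 1 ^ 5 := one_le_pow₀ hK
        have h2 := hpow 0 1 (by norm_num) (by norm_num)
        gcongr
      _ = _ := by ring

end

/-- **Huge points, one chart.** -/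
theorem card_y_huge {b : Cf d} {k : ℕ} (hd : 2 * k + 11 ≤ d) (hL : Lead b) :
    ∃ (A : ℕ) (C : ℝ), 0 ≤ C ∧ ∀ H : ℕ, 1 ≤ H → ∀ S : Finset (Cf d), S ⊆ QF b H →
    (∀ a ∈ S, ∃ x y : ℤ, Fv (co a) d x y = 0 ∧ |x| ≤ |y| ∧ A * H ^ (k + 7) < y.natAbs) →
    (S.card : ℝ) ≤ C * (2 * (H : ℝ) + 1) ^ (MM d - (d + 1) - (k + 1)) := by
  classical
  obtain ⟨c, hc0, hc1, hcb⟩ := exists_cst (by omega : 1 ≤ d) hL
  obtain ⟨G, N, hLF⟩ := exists_largeF (d := d) (by omega)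
  have hNR := noRoot_of_lead (by omega : 2 ≤ d) hL
  obtain ⟨cL, hcL0, hcL1, hcL⟩ := exists_liou (by omega : 2 ≤ d) hL
  obtain ⟨A, hA⟩ : ∃ A : ℕ, A = ⌈312 * KN d 1 ^ 5 * c1 d * (1 / c) ^ 5 * (4 / cL)⌉₊ := ⟨_, rfl⟩
  have hcp := c1_pos d
  have hK := KN_one (d := d) (le_refl (1 : ℝ))
  have hAle : 312 * KN d 1 ^ 5 * c1 d * (1 / c) ^ 5 * (4 / cL) ≤ A := by
    rw [hA]
    exact Nat.le_ceil _
  obtain ⟨L, hLd⟩ : ∃ L : ℝ, L = G * (Real.log ((d + 1) * MM d) + 2) := ⟨_, rfl⟩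
  have hM1 : (1 : ℝ) ≤ (d + 1) * MM d := by
    have h1 : 1 ≤ (d + 1) * MM d := Nat.mul_pos (Nat.succ_pos d) (by have := MM_pos d; omega)
    exact_mod_cast h1
  have hL0 : 0 ≤ L := by
    rw [hLd]
    have := Real.log_nonneg hM1
    positivity
  have hs1 : 0 ≤ s1 d := by unfold s1; positivity
  obtain ⟨C1, hC1⟩ : ∃ C1 : ℝ, C1 = 8 * s1 d * d * (4 * KN d 1 * L + 1) * (1 / c) ^ 5 * (4 / cL) :=
    ⟨_, rfl⟩
  have hC10 : 0 ≤ C1 := by
    rw [hC1]
    have h3 : 0 ≤ 4 * KN d 1 * L + 1 := by positivity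
    positivity
  refine ⟨A, d * 3 ^ (d - 1) + C1 + d + N, by positivity, fun H hH S hS hz => ?_⟩
  have hH' : (1 : ℝ) ≤ H := by exact_mod_cast hH
  have hH0 : (0 : ℝ) < H := by linarith
  have hM := MM_big (by omega : 4 ≤ d)
  have hw := w_one hH hc0 hc1
  have hlog0 : 0 ≤ Real.log (Yn d H G : ℝ) := Real.log_natCast_nonneg _
  have hlog : Real.log (Yn d H G : ℝ) ≤ L * Real.sqrt H := by
    rw [Real.sqrt_eq_rpow, hLd]
    exact log_Yn_le hH
  have habs : ∀ n : ℤ, |(n : ℝ)| = ((n.natAbs : ℕ) : ℝ) := by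
    intro n
    rw [← Int.cast_abs, Int.abs_eq_natAbs, Int.cast_natCast]
  have hlead : ∀ a ∈ S, Lead a := fun a ha => lead_congr (mem_QF.1 (hS ha)).2 hL
  -- the parameters
  obtain ⟨r, hr⟩ : ∃ r : ℝ, r = (H : ℝ) ^ ((1 : ℝ) / ((d - 1 : ℕ) : ℝ)) := ⟨_, rfl⟩
  have hr1 : 1 ≤ r := by rw [hr]; exact Real.one_le_rpow hH' (by positivity)
  have hr0 : 0 < r := by linarith
  have hrH : r ^ (d - 1) = (H : ℝ) := by
    rw [hr, ← Real.rpow_natCast, ← Real.rpow_mul hH0.le, one_div, inv_mul_cancel₀, Real.rpow_one]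
    have : (d - 1 : ℕ) ≠ 0 := by omega
    exact_mod_cast this
  obtain ⟨δ, hδd⟩ : ∃ δ : ℕ, δ = ⌊r ^ (k + 1)⌋₊ := ⟨_, rfl⟩
  have hδ1 : 1 ≤ δ := by
    rw [hδd]
    apply Nat.le_floor
    rw [Nat.cast_one]
    exact one_le_pow₀ hr1
  have hδle : (δ : ℝ) ≤ r ^ (k + 1) := by rw [hδd]; exact Nat.floor_le (by positivity)
  have hδge : r ^ (k + 1) ≤ (δ : ℝ) + 1 := by rw [hδd]; exact (Nat.lt_floor_add_one _).le
  have hrk : (r ^ (k + 1)) ^ (d - 1) = (H : ℝ) ^ (k + 1) := by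
    rw [← pow_mul, mul_comm, pow_mul, hrH]
  obtain ⟨g, hg⟩ : ∃ g : ℝ, g = cL / (4 * (H : ℝ) ^ (k + 1)) := ⟨_, rfl⟩
  have hHk : (1 : ℝ) ≤ (H : ℝ) ^ (k + 1) := one_le_pow₀ hH'
  have hg0 : 0 < g := by rw [hg]; positivity
  have hg1 : g ≤ 1 := by
    rw [hg, div_le_one (by positivity)]
    linarith
  have hginv : 1 / g = 4 / cL * (H : ℝ) ^ (k + 1) := by
    rw [hg]
    field_simp
  have hgδ : 2 * g * (δ : ℝ) ^ (d - 1) < cL := by
    have h1 : (δ : ℝ) ^ (d - 1) ≤ (H : ℝ) ^ (k + 1) := by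
      rw [← hrk]
      gcongr
    calc 2 * g * (δ : ℝ) ^ (d - 1) ≤ 2 * g * (H : ℝ) ^ (k + 1) := by gcongr
      _ = cL / 2 := by
        rw [hg]
        field_simp
        norm_num
      _ < cL := by linarith
  have hY0 : 312 * KN d 1 ^ 5 * c1 d * (1 / c) ^ 5 * (1 / g) * (H : ℝ) ^ 6 ≤
      A * (H : ℝ) ^ (k + 7) := by
    rw [hginv]
    have e1 : (H : ℝ) ^ (k + 7) = (H : ℝ) ^ (k + 1) * (H : ℝ) ^ 6 := by
      rw [← pow_add]
    rw [e1]
    calc _ = (312 * KN d 1 ^ 5 * c1 d * (1 / c) ^ 5 * (4 / cL)) *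
          ((H : ℝ) ^ (k + 1) * (H : ℝ) ^ 6) := by ring
      _ ≤ _ := by gcongr
  obtain ⟨hYa, hYb, hYc, hY2⟩ := mid_conds (d := d) hH hc0 hc1 hg0 hg1 hY0
  have hsub : S ⊆
      S.filter (fun a => YT d H (A * (H : ℝ) ^ (k + 7)) (Yn d H G) a ∧ ¬ GB (co a) d g) ∪
      (S.filter (fun a => YT d H (A * (H : ℝ) ^ (k + 7)) (Yn d H G) a ∧ GB (co a) d g) ∪
      (S.filter (fun a => ¬ LinesC a) ∪
      S.filter (fun a => LinesC a ∧ ∃ x y : ℤ, Fv (co a) d x y = 0 ∧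
        ((d + 1) * Pool.Agent.H322R2.len (poly a)) ^ G < max x.natAbs y.natAbs))) := by
    intro a ha
    simp only [mem_union, mem_filter]
    obtain ⟨x, y, h0, hxy, hT0⟩ := hz a ha
    by_cases h3 : y.natAbs ≤ Yn d H G
    · have hYT : YT d H (A * (H : ℝ) ^ (k + 7)) (Yn d H G) a := by
        refine ⟨noRoot_of_lead (by omega) (hlead a ha), x, y, h0, hxy, ?_, ?_⟩
        · rw [habs]
          exact_mod_cast hT0.le
        · rw [habs]
          exact_mod_cast h3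
      by_cases h4 : GB (co a) d g
      · exact Or.inr (Or.inl ⟨ha, hYT, h4⟩)
      · exact Or.inl ⟨ha, hYT, h4⟩
    rw [not_le] at h3
    by_cases h4 : LinesC a
    · right; right; right
      refine ⟨ha, h4, x, y, h0, ?_⟩
      refine lt_of_le_of_lt ?_ (lt_of_lt_of_le h3 (le_max_right _ _))
      unfold Yn
      apply Nat.pow_le_pow_left
      exact Nat.mul_le_mul_left _ (len_poly (QF_sub b H (hS ha)))
    · exact Or.inr (Or.inr (Or.inl ⟨ha, h4⟩))
  have b1 := rel_QF (H := H) (b := b)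
    (S := S.filter (fun a => YT d H (A * (H : ℝ) ^ (k + 7)) (Yn d H G) a ∧ ¬ GB (co a) d g))
    ((filter_subset _ _).trans hS) (JR d) (by
      intro p hp
      unfold JR at hp
      rw [mem_filter] at hp
      omega) (B := d * ((2 * H / (δ + 1) + 1 : ℕ) : ℝ) ^ (d - 1)) (by positivity) (by
      intro b' T hT hTb
      exact fiber_row (by omega) hNR hcL hδ1 hgδ b' T
        ((hT.trans (filter_subset _ _)).trans hS) hTb (fun a ha => (mem_filter.1 (hT ha)).2.2))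
    (card_JR (by omega)) (by omega)
  have b2 := rel_QF (H := H) (b := b)
    (S := S.filter (fun a => YT d H (A * (H : ℝ) ^ (k + 7)) (Yn d H G) a ∧ GB (co a) d g))
    ((filter_subset _ _).trans hS) (J4 d) (by
      intro p hp
      unfold J4 at hp
      rw [mem_filter] at hp
      omega) (B := (MB d (H / c) H g (Yn d H G) : ℝ)) (Nat.cast_nonneg _) (by
      intro b' T hT hTb
      have h1 := mid_fiber (H := H) (g := g) (by omega : 4 ≤ d) hH hw hg0 hYa hYb hYc hY2 b' T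
        ((hT.trans (filter_subset _ _)).trans (hS.trans (QF_sub b H))) hTb
        (fun a ha => (mem_filter.1 (hT ha)).2.1.nr)
        (fun a ha => GA_QF hH hc0 hc1 hcb (hS (mem_filter.1 (hT ha)).1))
        (fun a ha => (mem_filter.1 (hT ha)).2.2)
        (fun a ha => (mem_filter.1 (hT ha)).2.1.z)
      exact_mod_cast h1) (card_J4 d) (by omega)
  have b3 := rel_QF (H := H) (b := b) (S := S.filter (fun a => ¬ LinesC a))
    ((filter_subset _ _).trans hS) (JR d) (by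
      intro p hp
      unfold JR at hp
      rw [mem_filter] at hp
      omega) (B := d) (Nat.cast_nonneg _) (by
      intro b' T hT hTb
      have h1 := lines_row (by omega : 4 ≤ d) T b' hTb (fun a ha =>
        ⟨hlead a (mem_filter.1 (hT ha)).1, (mem_filter.1 (hT ha)).2⟩)
      exact_mod_cast h1) (card_JR (by omega)) (by omega)
  have b4 := rel_QF (H := H) (b := b) (S := S.filter (fun a => LinesC a ∧ ∃ x y : ℤ,
      Fv (co a) d x y = 0 ∧
        ((d + 1) * Pool.Agent.H322R2.len (poly a)) ^ G < max x.natAbs y.natAbs))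
    ((filter_subset _ _).trans hS) (J4 d) (by
      intro p hp
      unfold J4 at hp
      rw [mem_filter] at hp
      omega) (B := N) (Nat.cast_nonneg _) (by
      intro b' T hT hTb
      have h1 := hLF T b' (by
        intro a ha i hi
        apply hTb a ha
        intro h3
        apply hi
        unfold J4 at h3
        rw [mem_filter] at h3 ⊢
        exact ⟨mem_univ _, h3.2.2⟩) (fun a ha => by
          have h2 := mem_filter.1 (hT ha)
          exact ⟨hlead a h2.1, h2.2.1, h2.2.2⟩)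
      exact_mod_cast h1) (card_J4 d) (by omega)
  have hMB := MB_le3 (d := d) (Y₁ := (Yn d H G : ℝ)) (L := L) hH hc0 hc1 hg0 hg1 hL0 hlog0 hlog
  obtain ⟨N', hN'⟩ : ∃ N', N' = MM d - (d + 1) := ⟨_, rfl⟩
  rw [← hN'] at b1 b2 b3 b4 hM ⊢
  obtain ⟨X, hXd⟩ : ∃ X : ℝ, X = 2 * (H : ℝ) + 1 := ⟨_, rfl⟩
  rw [← hXd] at b1 b2 b3 b4 ⊢
  have hX : 1 ≤ X := by rw [hXd]; linarith
  have hX0 : 0 < X := by linarith
  have hHX : (H : ℝ) ≤ X := by rw [hXd]; linarith
  have hmono : ∀ m n : ℕ, m ≤ n → X ^ m ≤ X ^ n := fun m n h => pow_le_pow_right₀ hX h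
  -- first
  have c1' : ((S.filter (fun a => YT d H (A * (H : ℝ) ^ (k + 7)) (Yn d H G) a ∧
      ¬ GB (co a) d g)).card : ℝ) ≤ d * 3 ^ (d - 1) * X ^ (N' - (k + 1)) := by
    refine b1.trans ?_
    have hrk1 : 1 ≤ r ^ (k + 1) := one_le_pow₀ hr1
    have hrk0 : 0 < r ^ (k + 1) := by linarith
    have h1 : ((2 * H / (δ + 1) + 1 : ℕ) : ℝ) ≤ 3 * H / r ^ (k + 1) := by
      push_cast
      have h2 : ((2 * H / (δ + 1) : ℕ) : ℝ) ≤ 2 * H / (δ + 1) := by
        refine Nat.cast_div_le.trans (le_of_eq ?_)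
        push_cast
        rfl
      have h3 : 2 * (H : ℝ) / (δ + 1) ≤ 2 * H / r ^ (k + 1) := by gcongr
      have h4 : 1 ≤ (H : ℝ) / r ^ (k + 1) := by
        rw [le_div_iff₀ hrk0, one_mul, ← hrH]
        exact pow_le_pow_right₀ hr1 (by omega)
      have h5 : 3 * (H : ℝ) / r ^ (k + 1) = 2 * H / r ^ (k + 1) + H / r ^ (k + 1) := by ring
      push_cast at h2
      linarith
    have h2 : ((2 * H / (δ + 1) + 1 : ℕ) : ℝ) ^ (d - 1) ≤ 3 ^ (d - 1) * (H : ℝ) ^ (d - 1 - (k + 1)) := by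
      calc ((2 * H / (δ + 1) + 1 : ℕ) : ℝ) ^ (d - 1) ≤ (3 * H / r ^ (k + 1)) ^ (d - 1) := by gcongr
        _ = 3 ^ (d - 1) * ((H : ℝ) ^ (d - 1) / (H : ℝ) ^ (k + 1)) := by
            rw [div_pow, mul_pow, hrk, mul_div_assoc]
        _ = _ := by
            rw [pow_sub₀ _ hH0.ne' (by omega : k + 1 ≤ d - 1), ← div_eq_mul_inv]
    calc d * ((2 * H / (δ + 1) + 1 : ℕ) : ℝ) ^ (d - 1) * X ^ (N' - (d - 1))
        ≤ d * (3 ^ (d - 1) * X ^ (d - 1 - (k + 1))) * X ^ (N' - (d - 1)) := by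
          have h3 : (H : ℝ) ^ (d - 1 - (k + 1)) ≤ X ^ (d - 1 - (k + 1)) := by gcongr
          have h4 : ((2 * H / (δ + 1) + 1 : ℕ) : ℝ) ^ (d - 1) ≤ 3 ^ (d - 1) * X ^ (d - 1 - (k + 1)) := by
            refine h2.trans ?_
            gcongr
          gcongr
      _ = d * 3 ^ (d - 1) * (X ^ (d - 1 - (k + 1)) * X ^ (N' - (d - 1))) := by ring
      _ = _ := by
          rw [← pow_add]
          congr 2
          omega
  have c2' : ((S.filter (fun a => YT d H (A * (H : ℝ) ^ (k + 7)) (Yn d H G) a ∧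
      GB (co a) d g)).card : ℝ) ≤ C1 * X ^ (N' - (k + 1)) := by
    refine b2.trans ?_
    have hsq : Real.sqrt H ≤ X := by
      refine le_trans ?_ hHX
      rw [Real.sqrt_le_left hH0.le]
      nlinarith
    have h3 : (MB d (H / c) H g (Yn d H G) : ℝ) ≤ C1 * X ^ (k + 7) := by
      refine hMB.trans ?_
      rw [hginv]
      calc 8 * s1 d * d * (4 * KN d 1 * L + 1) * (1 / c) ^ 5 * (4 / cL * (H : ℝ) ^ (k + 1)) *
            ((H : ℝ) ^ 5 * Real.sqrt H)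
          = C1 * ((H : ℝ) ^ (k + 1) * ((H : ℝ) ^ 5 * Real.sqrt H)) := by rw [hC1]; ring
        _ ≤ C1 * (X ^ (k + 1) * (X ^ 5 * X)) := by gcongr
        _ = C1 * X ^ (k + 7) := by ring
    calc (MB d (H / c) H g (Yn d H G) : ℝ) * X ^ (N' - (d - 3))
        ≤ (C1 * X ^ (k + 7)) * X ^ (N' - (d - 3)) := by gcongr
      _ = C1 * X ^ (k + 7 + (N' - (d - 3))) := by rw [pow_add]; ring
      _ ≤ _ := by
          have := hmono (k + 7 + (N' - (d - 3))) (N' - (k + 1)) (by omega)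
          gcongr
  have c3' : ((S.filter (fun a => ¬ LinesC a)).card : ℝ) ≤ d * X ^ (N' - (k + 1)) := by
    refine b3.trans ?_
    have := hmono (N' - (d - 1)) (N' - (k + 1)) (by omega)
    gcongr
  have c4' : ((S.filter (fun a => LinesC a ∧ ∃ x y : ℤ,
      Fv (co a) d x y = 0 ∧
        ((d + 1) * Pool.Agent.H322R2.len (poly a)) ^ G < max x.natAbs y.natAbs)).card : ℝ) ≤
      N * X ^ (N' - (k + 1)) := by
    refine b4.trans ?_
    have := hmono (N' - (d - 3)) (N' - (k + 1)) (by omega)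
    gcongr
  have hcard := (card_le_card hsub).trans ((card_union_le _ _).trans (add_le_add le_rfl
    ((card_union_le _ _).trans (add_le_add le_rfl (card_union_le _ _)))))
  have hcard' := (Nat.cast_le (α := ℝ)).2 hcard
  simp only [Nat.cast_add] at hcard'
  calc (S.card : ℝ) ≤ d * 3 ^ (d - 1) * X ^ (N' - (k + 1)) + (C1 * X ^ (N' - (k + 1)) +
      (d * X ^ (N' - (k + 1)) + N * X ^ (N' - (k + 1)))) :=
        hcard'.trans (add_le_add c1' (add_le_add c2' (add_le_add c3' c4')))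
    _ = _ := by ring

/-- **Huge points, both charts.** -/
theorem card_both_huge {b : Cf d} {k : ℕ} (hd : 2 * k + 11 ≤ d) (hb : Irreducible (LF b)) :
    ∃ (A : ℕ) (C : ℝ), 0 ≤ C ∧ ∀ H : ℕ, 1 ≤ H → ∀ S : Finset (Cf d), S ⊆ QF b H →
    (∀ a ∈ S, ∃ x y : ℤ, Fv (co a) d x y = 0 ∧ A * H ^ (k + 7) < max x.natAbs y.natAbs) →
    (S.card : ℝ) ≤ C * (2 * (H : ℝ) + 1) ^ (MM d - (d + 1) - (k + 1)) := by
  classical
  have hb' : Irreducible (LF (swV b)) := by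
    rw [LF_swV]
    exact (MulEquiv.irreducible_iff
      (MvPolynomial.renameEquiv ℚ (Equiv.swap (0 : Fin 2) 1))).2 hb
  obtain ⟨A1, C1, hC1, h1⟩ := card_y_huge hd (lead_of_irr (by omega) hb)
  obtain ⟨A2, C2, hC2, h2⟩ := card_y_huge hd (lead_of_irr (by omega) hb')
  refine ⟨A1 + A2, C1 + C2, add_nonneg hC1 hC2, fun H hH S hS hz => ?_⟩
  have hA1 : A1 * H ^ (k + 7) ≤ (A1 + A2) * H ^ (k + 7) := Nat.mul_le_mul_right _ (by omega)
  have hA2 : A2 * H ^ (k + 7) ≤ (A1 + A2) * H ^ (k + 7) := Nat.mul_le_mul_right _ (by omega)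
  have hsub : S ⊆ S.filter (fun a => ∃ x y : ℤ, Fv (co a) d x y = 0 ∧ |x| ≤ |y| ∧
      A1 * H ^ (k + 7) < y.natAbs) ∪
      S.filter (fun a => ∃ x y : ℤ, Fv (co (swV a)) d x y = 0 ∧ |x| ≤ |y| ∧
      A2 * H ^ (k + 7) < y.natAbs) := by
    intro a ha
    rw [mem_union, mem_filter, mem_filter]
    obtain ⟨x, y, h0, hT⟩ := hz a ha
    rcases le_total |x| |y| with h | h
    · have h' : x.natAbs ≤ y.natAbs := by
        rw [Int.abs_eq_natAbs, Int.abs_eq_natAbs] at h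
        exact_mod_cast h
      rw [max_eq_right h'] at hT
      exact Or.inl ⟨ha, x, y, h0, h, hA1.trans_lt hT⟩
    · have h' : y.natAbs ≤ x.natAbs := by
        rw [Int.abs_eq_natAbs, Int.abs_eq_natAbs] at h
        exact_mod_cast h
      rw [max_eq_left h'] at hT
      exact Or.inr ⟨ha, y, x, by rw [Fv_swV]; exact h0, h, hA2.trans_lt hT⟩
  have b1 := h1 H hH
    (S.filter (fun a => ∃ x y : ℤ, Fv (co a) d x y = 0 ∧ |x| ≤ |y| ∧
      A1 * H ^ (k + 7) < y.natAbs))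
    ((filter_subset _ _).trans hS) (fun a ha => (mem_filter.1 ha).2)
  have b2 := h2 H hH
    ((S.filter (fun a => ∃ x y : ℤ, Fv (co (swV a)) d x y = 0 ∧ |x| ≤ |y| ∧
      A2 * H ^ (k + 7) < y.natAbs)).image swV)
    (by
      intro c hc
      rw [mem_image] at hc
      obtain ⟨a, ha, rfl⟩ := hc
      exact QF_swV (hS (mem_filter.1 ha).1))
    (by
      intro c hc
      rw [mem_image] at hc
      obtain ⟨a, ha, rfl⟩ := hc
      exact (mem_filter.1 ha).2)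
  rw [card_image_of_injective _ swV_inj] at b2
  have h3 := (Nat.cast_le (α := ℝ)).2 ((card_le_card hsub).trans (card_union_le _ _))
  push_cast at h3
  refine h3.trans ((add_le_add b1 b2).trans (le_of_eq ?_))
  ring

/-- **Huge points.** -/
theorem huge_main {e k : ℕ} {φ : MvPolynomial (Fin 2) ℤ} (he : 2 * k + 10 ≤ e)
    (hφ : φ.IsHomogeneous (e + 1))
    (hirr : Irreducible (MvPolynomial.map (Int.castRingHom ℚ) φ)) :
    ∃ (A : ℕ) (C : ℝ), 1 ≤ A ∧ 0 ≤ C ∧ ∀ H : ℕ, 1 ≤ H → ∀ S : Finset (Cf e), S ⊆ ibox ↥(I e) H →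
      (∀ r ∈ S, ∃ x y : ℤ, MvPolynomial.eval ![x, y] (φ + poly r) = 0 ∧
        A * H ^ (k + 7) < max x.natAbs y.natAbs) →
      (S.card : ℝ) ≤ C * (H : ℝ) ^ (MM e - (k + 1)) := by
  classical
  have hφd : φ.totalDegree ≤ e + 1 := hφ.totalDegree_le
  obtain ⟨h0, hh0⟩ : ∃ h0 : ℕ, ∀ m, |φ.coeff m| ≤ (h0 : ℤ) := by
    refine ⟨∑ m ∈ φ.support, (φ.coeff m).natAbs, fun m => ?_⟩
    by_cases hm : m ∈ φ.support
    · rw [Int.abs_eq_natAbs]
      exact_mod_cast single_le_sum (f := fun m => (φ.coeff m).natAbs) (fun _ _ => Nat.zero_le _) hm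
    · rw [MvPolynomial.notMem_support_iff.1 hm, abs_zero]
      positivity
  obtain ⟨b, hbbox, hb⟩ := exists_vec hφd hh0
  have hLFb : Irreducible (LF b) := by
    unfold LF
    rw [hb, MvPolynomial.homogeneousComponent_of_mem hφ, if_pos rfl]
    exact hirr
  obtain ⟨A, C, hC, hmain⟩ := card_both_huge (k := k) (by omega : 2 * k + 11 ≤ e + 1) hLFb
  have hMM2 : MM (e + 1) - (e + 1 + 1) = MM e := by
    rw [MM_eq, MM_eq]
    have h1 : (e + 1 + 1) * (e + 1 + 2) = (e + 1) * (e + 2) + 2 * (e + 1 + 1) := by ring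
    rw [h1]
    omega
  rw [hMM2] at hmain
  obtain ⟨Ψ, hΨ⟩ : ∃ Ψ : Cf e → Cf (e + 1), Ψ = fun r p => b p + co r p.1.1 p.1.2 := ⟨_, rfl⟩
  have hco : ∀ r : Cf e, ∀ k i, co (Ψ r) k i = co b k i + co r k i := by
    intro r k i
    by_cases hmem : (k, i) ∈ I (e + 1)
    · rw [co_of_mem _ hmem, co_of_mem b hmem, hΨ]
    · have hmem' : (k, i) ∉ I e := by
        rw [mem_I] at hmem ⊢
        omega
      unfold co
      rw [dif_neg hmem, dif_neg hmem, dif_neg hmem', add_zero]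
  have hpoly : ∀ r : Cf e, poly (Ψ r) = φ + poly r := by
    intro r
    ext m
    rw [MvPolynomial.coeff_add, ← hb, coeff_poly, coeff_poly, coeff_poly, hco]
  have hΨinj : Function.Injective Ψ := by
    intro r r' h
    have h1 := hpoly r
    rw [h, hpoly r'] at h1
    exact poly_inj (add_left_cancel h1).symm
  have hΨQ : ∀ H, ∀ r ∈ ibox ↥(I e) H, Ψ r ∈ QF b (H + h0) := by
    intro H r hr
    rw [mem_QF, mem_ibox]
    constructor
    · intro p
      rw [hΨ]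
      simp only
      have h1 : |b p| ≤ h0 := by
        have := mem_ibox.1 hbbox p
        exact this
      have h2 := co_le hr p.1.1 p.1.2
      have h3 := abs_add_le (b p) (co r p.1.1 p.1.2)
      push_cast
      linarith
    · intro i
      rw [hco]
      have hmem' : (e + 1, i) ∉ I e := by
        rw [mem_I]
        omega
      have h1 : co r (e + 1) i = 0 := by
        unfold co
        rw [dif_neg hmem']
      rw [h1, add_zero]
  refine ⟨A * (1 + h0) ^ (k + 7) + 1, C * (2 * (1 + (h0 : ℝ)) + 1) ^ (MM e), by omega,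
    by positivity, fun H hH S hS hz => ?_⟩
  have hH' : (1 : ℝ) ≤ H := by exact_mod_cast hH
  have hle : H + h0 ≤ (1 + h0) * H := by
    have : h0 * 1 ≤ h0 * H := Nat.mul_le_mul_left _ hH
    linarith
  have h1 := hmain (H + h0) (by omega) (S.image Ψ) (by
      intro a ha
      rw [mem_image] at ha
      obtain ⟨r, hr, rfl⟩ := ha
      exact hΨQ H r (hS hr)) (by
      intro a ha
      rw [mem_image] at ha
      obtain ⟨r, hr, rfl⟩ := ha
      obtain ⟨x, y, h2, h3⟩ := hz r hr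
      refine ⟨x, y, ?_, ?_⟩
      · rw [← eval_poly, hpoly]
        exact h2
      · refine lt_of_le_of_lt ?_ h3
        calc A * (H + h0) ^ (k + 7) ≤ A * ((1 + h0) * H) ^ (k + 7) :=
              Nat.mul_le_mul_left _ (Nat.pow_le_pow_left hle _)
          _ = A * (1 + h0) ^ (k + 7) * H ^ (k + 7) := by rw [mul_pow]; ring
          _ ≤ _ := Nat.mul_le_mul_right _ (by omega))
  rw [card_image_of_injective _ hΨinj] at h1
  refine h1.trans ?_
  have h2 : 2 * (((H + h0 : ℕ)) : ℝ) + 1 ≤ (2 * (1 + (h0 : ℝ)) + 1) * H := by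
    have h3 : ((H + h0 : ℕ) : ℝ) ≤ (1 + (h0 : ℝ)) * H := by exact_mod_cast hle
    linarith
  have h3 : (1 : ℝ) ≤ 2 * (1 + (h0 : ℝ)) + 1 := by
    have : (0 : ℝ) ≤ h0 := Nat.cast_nonneg _
    linarith
  calc C * (2 * (((H + h0 : ℕ)) : ℝ) + 1) ^ (MM e - (k + 1))
      ≤ C * ((2 * (1 + (h0 : ℝ)) + 1) * H) ^ (MM e - (k + 1)) := by gcongr
    _ = C * (2 * (1 + (h0 : ℝ)) + 1) ^ (MM e - (k + 1)) * (H : ℝ) ^ (MM e - (k + 1)) := by
        rw [mul_pow]
        ring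
    _ ≤ _ := by
        have := pow_le_pow_right₀ h3 (Nat.sub_le (MM e) (k + 1))
        gcongr

end Pool.Agent.Run7.h953.KP
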