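import Pool.Agent.Run7.h953.KP.Cnt
import Pool.Agent.Run7.h953.KP.Huge

set_option autoImplicit false
set_option linter.unusedSectionVars false

/-! Curves with a prescribed leading form through many points: the tail. -/

open Finset Filter Topology

namespace Pool.Agent.Run7.h953.KP

open Pool.Agent.R414.DN Pool.Agent.N656.LL

lemma tau_pos (P : ℤ × ℤ) : 0 < tau P := lt_of_lt_of_le one_pos (tau_one P)

lemma summable_tau : Summable fun P : ℤ × ℤ => 1 / tau P ^ 3 := by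
  have h1 := EisensteinSeries.summable_one_div_norm_rpow (k := 3) (by norm_num)
  have h2 : Summable fun P : ℤ × ℤ => ‖(finTwoArrowEquiv ℤ).symm P‖ ^ (-(3 : ℝ)) :=
    ((finTwoArrowEquiv ℤ).symm.summable_iff
      (f := fun x : Fin 2 → ℤ => ‖x‖ ^ (-(3 : ℝ)))).2 h1
  have h3 : Summable fun P : ℤ × ℤ => if P = 0 then (1 : ℝ) else 0 := by
    apply summable_of_ne_finset_zero (s := {0})
    intro P hP
    rw [mem_singleton] at hP
    rw [if_neg hP]
  refine Summable.of_nonneg_of_le (fun P => ?_) (fun P => ?_) (h2.add h3)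
  · have := tau_pos P
    positivity
  · by_cases hP : P = 0
    · rw [if_pos hP]
      have h4 : 1 / tau P ^ 3 ≤ 1 := by
        rw [div_le_one (by have := tau_pos P; positivity)]
        exact one_le_pow₀ (tau_one P)
      have h5 : 0 ≤ ‖(finTwoArrowEquiv ℤ).symm P‖ ^ (-(3 : ℝ)) := by positivity
      linarith
    · rw [if_neg hP, add_zero]
      have h4 : ‖(finTwoArrowEquiv ℤ).symm P‖ = tau P := by
        have h5 : ‖(finTwoArrowEquiv ℤ).symm P‖ = max |(P.1 : ℝ)| |(P.2 : ℝ)| := by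
          rw [← Int.norm_eq_abs, ← Int.norm_eq_abs]
          apply le_antisymm
          · rw [pi_norm_le_iff_of_nonneg (le_max_of_le_left (norm_nonneg _))]
            intro i
            fin_cases i
            · exact le_max_left _ _
            · exact le_max_right _ _
          · apply max_le
            · exact norm_le_pi_norm ((finTwoArrowEquiv ℤ).symm P) 0
            · exact norm_le_pi_norm ((finTwoArrowEquiv ℤ).symm P) 1
        have h6 : (sz P : ℝ) = max |(P.1 : ℝ)| |(P.2 : ℝ)| := by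
          unfold sz
          rw [Nat.cast_max, Nat.cast_natAbs, Nat.cast_natAbs, Int.cast_abs, Int.cast_abs]
        have h7 : 1 ≤ sz P := by
          unfold sz
          by_contra h
          apply hP
          apply Prod.ext
          · show P.1 = 0
            omega
          · show P.2 = 0
            omega
        unfold tau
        rw [h5, ← h6, max_eq_right]
        exact_mod_cast h7
      rw [h4, Real.rpow_neg (tau_pos P).le]
      have h5 : tau P ^ (3 : ℝ) = tau P ^ 3 := by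
        have := Real.rpow_natCast (tau P) 3
        exact_mod_cast this
      rw [h5, one_div]

/-- the weight of a finite set -/
noncomputable def wS (S : Finset (ℤ × ℤ)) : ℝ := 1 / pt S ^ 3

lemma wS_eq (S : Finset (ℤ × ℤ)) : wS S = ∏ P ∈ S, 1 / tau P ^ 3 := by
  unfold wS pt
  rw [prod_div_distrib, prod_const_one, prod_pow]

lemma wS_nonneg (S : Finset (ℤ × ℤ)) : 0 ≤ wS S := by
  unfold wS
  have := pt_one S
  positivity

lemma summable_wS : Summable wS := by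
  have h1 := summable_finsetProd_of_summable_nonneg (f := fun P : ℤ × ℤ => 1 / tau P ^ 3)
    (fun P => by have := tau_pos P; positivity) summable_tau
  refine h1.congr fun S => ?_
  rw [wS_eq]

lemma exists_split {H : ℝ} (hH : 1 ≤ H) (S : Finset (ℤ × ℤ)) (h : H < pt S) :
    ∃ S' ⊆ S, ∃ P ∈ S, P ∉ S' ∧ pt S' ≤ H ∧ H < pt (insert P S') := by
  classical
  induction S using Finset.induction_on with
  | empty =>
    unfold pt at h
    rw [prod_empty] at h
    linarith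
  | insert P S hP ih =>
    by_cases h1 : H < pt S
    · obtain ⟨S', h2, Q, h3, h4, h5, h6⟩ := ih h1
      exact ⟨S', h2.trans (subset_insert _ _), Q, mem_insert_of_mem h3, h4, h5, h6⟩
    · exact ⟨S, subset_insert _ _, P, mem_insert_self _ _, hP, not_lt.1 h1, h⟩

lemma tau_le_pt {S : Finset (ℤ × ℤ)} {P : ℤ × ℤ} (hP : P ∈ S) : tau P ≤ pt S := by
  classical
  unfold pt
  rw [← mul_prod_erase S tau hP]
  have h1 : 1 ≤ ∏ P ∈ S.erase P, tau P := pt_one (S.erase P)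
  have := tau_pos P
  nlinarith

lemma card_bx (T : ℕ) : (bx T).card = (2 * T + 1) * (2 * T + 1) := by
  unfold bx
  rw [card_product, card_Icc_H]

section

variable {e k : ℕ} (s : ℤ × ℤ → ℤ)

/-- **Middle points.** -/
theorem middle (he : 3 * k + 17 ≤ e) (A : ℕ) (hA : 1 ≤ A) : ∃ C : ℝ, 0 ≤ C ∧ ∀ H : ℕ, 1 ≤ H →
    ∀ T : Finset (Cf e), T ⊆ ibox ↥(I e) H →
    (∀ a ∈ T, ∃ S : Finset (ℤ × ℤ), S.card = k ∧ (∀ P ∈ S, sz P ≤ A * H ^ (k + 7)) ∧
      (H : ℝ) < pt S ∧ ∀ P ∈ S, Fv (co a) e P.1 P.2 = s P) →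
    (T.card : ℝ) ≤ C * (H : ℝ) ^ (MM e - (k + 1)) := by
  classical
  obtain ⟨W, hW⟩ : ∃ W : ℝ, W = ∑' S, wS S := ⟨_, rfl⟩
  have hW0 : 0 ≤ W := by rw [hW]; exact tsum_nonneg wS_nonneg
  have hCP := CP_pos e
  refine ⟨W * (3 * A) ^ 2 * (CP e * 2 ^ (e + 1)), by positivity, fun H hH T hT hz => ?_⟩
  have hH' : (1 : ℝ) ≤ H := by exact_mod_cast hH
  have hH0 : (0 : ℝ) < H := by linarith
  obtain ⟨X, hX⟩ : ∃ X : ℕ, X = A * H ^ (k + 7) := ⟨_, rfl⟩
  rw [← hX] at hz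
  have hX1 : 1 ≤ X := by
    rw [hX]
    exact Nat.mul_pos hA (Nat.pow_pos hH)
  obtain ⟨U, hU⟩ : ∃ U : Finset (Finset (ℤ × ℤ)), U = (bx X).powerset.filter fun S' =>
    pt S' ≤ H := ⟨_, rfl⟩
  have hUc : (U.card : ℝ) ≤ (H : ℝ) ^ 3 * W := by
    calc (U.card : ℝ) = ∑ _S' ∈ U, (1 : ℝ) := by rw [sum_const, nsmul_eq_mul, mul_one]
      _ ≤ ∑ S' ∈ U, (H : ℝ) ^ 3 * wS S' := by
          refine sum_le_sum fun S' hS' => ?_
          rw [hU, mem_filter] at hS'
          unfold wS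
          rw [mul_one_div, le_div_iff₀ (by have := pt_one S'; positivity), one_mul]
          have := pt_one S'
          exact pow_le_pow_left₀ (by linarith) hS'.2 3
      _ = (H : ℝ) ^ 3 * ∑ S' ∈ U, wS S' := by rw [mul_sum]
      _ ≤ (H : ℝ) ^ 3 * W := by
          have := summable_wS.sum_le_tsum U (fun S _ => wS_nonneg S)
          rw [← hW] at this
          gcongr
  have hsub : T ⊆ U.biUnion fun S' => (bx X).biUnion fun P =>
      T.filter fun a => (insert P S').card ≤ e + 1 ∧ (H : ℝ) ≤ pt (insert P S') ∧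
        ∀ Q ∈ insert P S', Fv (co a) e Q.1 Q.2 = s Q := by
    intro a ha
    obtain ⟨S, h1, h2, h3, h4⟩ := hz a ha
    obtain ⟨S', g1, P, g2, g3, g4, g5⟩ := exists_split hH' S h3
    have hsubS : insert P S' ⊆ S := insert_subset g2 g1
    rw [mem_biUnion]
    refine ⟨S', ?_, ?_⟩
    · rw [hU, mem_filter, mem_powerset]
      refine ⟨fun Q hQ => ?_, g4⟩
      rw [mem_bx]
      exact h2 Q (g1 hQ)
    · rw [mem_biUnion]
      refine ⟨P, mem_bx.2 (h2 P g2), ?_⟩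
      rw [mem_filter]
      refine ⟨ha, ?_, g5.le, fun Q hQ => h4 Q (hsubS hQ)⟩
      have := card_le_card hsubS
      omega
  have hcard : (T.card : ℝ) ≤ ∑ S' ∈ U, ∑ P ∈ bx X, CP e * 2 ^ (e + 1) *
      (H : ℝ) ^ (MM e - (e + 1)) := by
    have h1 := (Nat.cast_le (α := ℝ)).2 ((card_le_card hsub).trans (card_biUnion_le.trans
      (sum_le_sum fun S' _ => card_biUnion_le)))
    push_cast at h1
    refine h1.trans (sum_le_sum fun S' _ => sum_le_sum fun P _ => ?_)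
    by_cases h2 : (insert P S').card ≤ e + 1 ∧ (H : ℝ) ≤ pt (insert P S')
    · exact count_large hH (insert P S') h2.1 h2.2 s _ ((filter_subset _ _).trans hT)
        (fun a ha => (mem_filter.1 ha).2.2.2)
    · have h3 : (T.filter fun a => (insert P S').card ≤ e + 1 ∧ (H : ℝ) ≤ pt (insert P S') ∧
        ∀ Q ∈ insert P S', Fv (co a) e Q.1 Q.2 = s Q) = ∅ := by
        apply filter_false_of_mem
        intro a _ h4
        exact h2 ⟨h4.1, h4.2.1⟩
      rw [h3, card_empty, Nat.cast_zero]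
      positivity
  refine hcard.trans ?_
  rw [sum_const, sum_const, nsmul_eq_mul, nsmul_eq_mul, card_bx]
  have hXb : (((2 * X + 1) * (2 * X + 1) : ℕ) : ℝ) ≤ (3 * A) ^ 2 * (H : ℝ) ^ (2 * (k + 7)) := by
    have h1 : ((2 * X + 1 : ℕ) : ℝ) ≤ 3 * A * (H : ℝ) ^ (k + 7) := by
      have h2 : 2 * X + 1 ≤ 3 * (A * H ^ (k + 7)) := by omega
      calc ((2 * X + 1 : ℕ) : ℝ) ≤ ((3 * (A * H ^ (k + 7)) : ℕ) : ℝ) := by exact_mod_cast h2
        _ = _ := by push_cast; ring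
    rw [Nat.cast_mul]
    calc ((2 * X + 1 : ℕ) : ℝ) * ((2 * X + 1 : ℕ) : ℝ) ≤
          (3 * A * (H : ℝ) ^ (k + 7)) * (3 * A * (H : ℝ) ^ (k + 7)) := by gcongr
      _ = _ := by rw [two_mul (k + 7), pow_add]; ring
  have hMe : e + 1 ≤ MM e := by
    rw [MM_eq]
    have h2 : (e + 1) * 2 ≤ (e + 1) * (e + 2) := Nat.mul_le_mul_left _ (by omega)
    omega
  calc (U.card : ℝ) * ((((2 * X + 1) * (2 * X + 1) : ℕ) : ℝ) * (CP e * 2 ^ (e + 1) *
        (H : ℝ) ^ (MM e - (e + 1))))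
      ≤ ((H : ℝ) ^ 3 * W) * (((3 * A) ^ 2 * (H : ℝ) ^ (2 * (k + 7))) * (CP e * 2 ^ (e + 1) *
        (H : ℝ) ^ (MM e - (e + 1)))) := by gcongr
    _ = W * (3 * A) ^ 2 * (CP e * 2 ^ (e + 1)) *
        (H : ℝ) ^ (3 + 2 * (k + 7) + (MM e - (e + 1))) := by
        rw [pow_add, pow_add]
        ring
    _ ≤ _ := by
        have := pow_le_pow_right₀ hH' (by omega : 3 + 2 * (k + 7) + (MM e - (e + 1)) ≤
          MM e - (k + 1))
        gcongr

/-- **Small points.** -/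
theorem small (he : k + 2 ≤ e) (U : Finset (Finset (ℤ × ℤ))) {ε : ℝ}
    (hU : ∀ V : Finset (Finset (ℤ × ℤ)), Disjoint V U → ∑ S ∈ V, wS S ≤ ε) {H : ℕ} (hH : 1 ≤ H)
    (T : Finset (Cf e)) (hT : T ⊆ ibox ↥(I e) H)
    (hz : ∀ a ∈ T, ∃ S : Finset (ℤ × ℤ), S.card = k ∧ S ∉ U ∧
      pt S ≤ H ∧ ∀ P ∈ S, Fv (co a) e P.1 P.2 = s P) :
    (T.card : ℝ) ≤ CP e * 2 ^ (e + 1) * ε * (H : ℝ) ^ (MM e - k) := by
  classical
  have hCP := CP_pos e
  obtain ⟨V, hV⟩ : ∃ V : Finset (Finset (ℤ × ℤ)), V = (bx H).powerset.filter fun S =>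
    S.card = k ∧ S ∉ U ∧ pt S ≤ H := ⟨_, rfl⟩
  have hVU : Disjoint V U := by
    rw [disjoint_left]
    intro S hS
    rw [hV, mem_filter] at hS
    exact hS.2.2.1
  have hsub : T ⊆ V.biUnion fun S => T.filter fun a => ∀ P ∈ S, Fv (co a) e P.1 P.2 = s P := by
    intro a ha
    obtain ⟨S, h1, h2, h3, h4⟩ := hz a ha
    rw [mem_biUnion]
    refine ⟨S, ?_, mem_filter.2 ⟨ha, h4⟩⟩
    rw [hV, mem_filter, mem_powerset]
    refine ⟨fun P hP => ?_, h1, h2, h3⟩
    rw [mem_bx]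
    have h5 := (le_max_right (1 : ℝ) (sz P : ℝ)).trans ((tau_le_pt hP).trans h3)
    exact_mod_cast h5
  have h1 := (Nat.cast_le (α := ℝ)).2 ((card_le_card hsub).trans card_biUnion_le)
  push_cast at h1
  refine h1.trans ?_
  calc ∑ S ∈ V, ((T.filter fun a => ∀ P ∈ S, Fv (co a) e P.1 P.2 = s P).card : ℝ)
      ≤ ∑ S ∈ V, CP e * 2 ^ (e + 1) * (H : ℝ) ^ (MM e - k) * wS S := by
        refine sum_le_sum fun S hS => ?_
        rw [hV, mem_filter] at hS
        have hS1 := hS.2.1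
        have h2 := count_small hH S (by omega) hS.2.2.2 s
          (T.filter fun a => ∀ P ∈ S, Fv (co a) e P.1 P.2 = s P)
          ((filter_subset _ _).trans hT) (fun a ha => (mem_filter.1 ha).2)
        refine h2.trans ?_
        rw [hS1]
        unfold wS
        rw [mul_one_div]
        have h3 := pt_one S
        have h4 : pt S ^ 3 ≤ pt S ^ (e + 1 - k) := pow_le_pow_right₀ h3 (by omega)
        gcongr
    _ = CP e * 2 ^ (e + 1) * (H : ℝ) ^ (MM e - k) * ∑ S ∈ V, wS S := by rw [mul_sum]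
    _ ≤ CP e * 2 ^ (e + 1) * (H : ℝ) ^ (MM e - k) * ε := by
        have := hU V hVU
        gcongr
    _ = _ := by ring

end

/-- **The tail.** -/
theorem tail_all {e k : ℕ} {φ : MvPolynomial (Fin 2) ℤ} (he : 3 * k + 17 ≤ e)
    (hφ : φ.IsHomogeneous (e + 1))
    (hirr : Irreducible (MvPolynomial.map (Int.castRingHom ℚ) φ)) (ε : ℝ) (hε : 0 < ε) :
    ∃ U : Finset (Finset (ℤ × ℤ)), ∀ᶠ H : ℕ in atTop, (Set.ncard {a | a ∈ ibox ↥(I e) H ∧
      ∃ S : Finset (ℤ × ℤ), S.card = k ∧ S ∉ U ∧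
        ∀ P ∈ S, MvPolynomial.eval ![P.1, P.2] (φ + poly a) = 0} : ℝ) / (H : ℝ) ^ (MM e - k) ≤
      ε := by
  classical
  obtain ⟨s, hs⟩ : ∃ s : ℤ × ℤ → ℤ, s = fun P => -MvPolynomial.eval ![P.1, P.2] φ := ⟨_, rfl⟩
  have hzs : ∀ (a : Cf e) (P : ℤ × ℤ), MvPolynomial.eval ![P.1, P.2] (φ + poly a) = 0 ↔
      Fv (co a) e P.1 P.2 = s P := by
    intro a P
    rw [map_add, eval_poly, hs]
    constructor <;> intro h <;> linarith
  obtain ⟨A, C1, hA, hC1, h1⟩ := huge_main (k := k) (by omega) hφ hirr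
  obtain ⟨C2, hC2, h2⟩ := middle s he A hA
  have hCP := CP_pos e
  obtain ⟨ε', hε', hεε⟩ : ∃ ε' : ℝ, 0 < ε' ∧ CP e * 2 ^ (e + 1) * ε' = ε / 2 :=
    ⟨ε / 2 / (CP e * 2 ^ (e + 1)), by positivity, by field_simp⟩
  obtain ⟨U, hU⟩ := summable_iff_vanishing_norm.1 summable_wS ε' hε'
  refine ⟨U, ?_⟩
  obtain ⟨H₀, hH₀⟩ := exists_nat_ge (2 * (C1 + C2) / ε)
  filter_upwards [eventually_ge_atTop H₀, eventually_ge_atTop 1] with H hH0 hH
  have hH' : (1 : ℝ) ≤ H := by exact_mod_cast hH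
  have hHp : (0 : ℝ) < H := by linarith
  obtain ⟨T, hT⟩ : ∃ T : Finset (Cf e), T = (ibox ↥(I e) H).filter fun a =>
    ∃ S : Finset (ℤ × ℤ), S.card = k ∧ S ∉ U ∧
        ∀ P ∈ S, MvPolynomial.eval ![P.1, P.2] (φ + poly a) = 0 := ⟨_, rfl⟩
  have hcard : Set.ncard {a | a ∈ ibox ↥(I e) H ∧
      ∃ S : Finset (ℤ × ℤ), S.card = k ∧ S ∉ U ∧
        ∀ P ∈ S, MvPolynomial.eval ![P.1, P.2] (φ + poly a) = 0} = T.card := by
    rw [hT, ← Set.ncard_coe_finset]
    congr 1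
    ext a
    rw [mem_coe, mem_filter]
    rfl
  rw [hcard]
  obtain ⟨T1, hT1⟩ : ∃ T1 : Finset (Cf e), T1 = T.filter fun a => ∃ x y : ℤ,
    MvPolynomial.eval ![x, y] (φ + poly a) = 0 ∧ A * H ^ (k + 7) < max x.natAbs y.natAbs :=
    ⟨_, rfl⟩
  obtain ⟨T2, hT2⟩ : ∃ T2 : Finset (Cf e), T2 = T.filter fun a => ∃ S : Finset (ℤ × ℤ),
    S.card = k ∧ (∀ P ∈ S, sz P ≤ A * H ^ (k + 7)) ∧
      (H : ℝ) < pt S ∧ ∀ P ∈ S, Fv (co a) e P.1 P.2 = s P := ⟨_, rfl⟩
  obtain ⟨T3, hT3⟩ : ∃ T3 : Finset (Cf e), T3 = T.filter fun a => ∃ S : Finset (ℤ × ℤ),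
    S.card = k ∧ S ∉ U ∧ pt S ≤ H ∧ ∀ P ∈ S, Fv (co a) e P.1 P.2 = s P := ⟨_, rfl⟩
  have hTb : T ⊆ ibox ↥(I e) H := by rw [hT]; exact filter_subset _ _
  have hsub : T ⊆ T1 ∪ (T2 ∪ T3) := by
    intro a ha
    have ha' := ha
    rw [hT, mem_filter] at ha'
    obtain ⟨-, S, g1, g2, g3⟩ := ha'
    rw [mem_union, mem_union, hT1, hT2, hT3, mem_filter, mem_filter, mem_filter]
    by_cases g4 : ∀ P ∈ S, sz P ≤ A * H ^ (k + 7)
    · by_cases g5 : (H : ℝ) < pt S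
      · exact Or.inr (Or.inl ⟨ha, S, g1, g4, g5, fun P hP => (hzs a P).1 (g3 P hP)⟩)
      · exact Or.inr (Or.inr ⟨ha, S, g1, g2, not_lt.1 g5, fun P hP => (hzs a P).1 (g3 P hP)⟩)
    · push Not at g4
      obtain ⟨P, hP, hP2⟩ := g4
      exact Or.inl ⟨ha, P.1, P.2, g3 P hP, hP2⟩
  have b1 := h1 H hH T1 (by rw [hT1]; exact (filter_subset _ _).trans hTb) (by
    intro a ha
    rw [hT1, mem_filter] at ha
    exact ha.2)
  have b2 := h2 H hH T2 (by rw [hT2]; exact (filter_subset _ _).trans hTb) (by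
    intro a ha
    rw [hT2, mem_filter] at ha
    exact ha.2)
  have b3 := small s (by omega : k + 2 ≤ e) U (ε := ε') (by
    intro V hV
    have := hU V hV
    rw [Real.norm_eq_abs, abs_of_nonneg (sum_nonneg fun S _ => wS_nonneg S)] at this
    exact this.le) hH T3 (by rw [hT3]; exact (filter_subset _ _).trans hTb) (by
    intro a ha
    rw [hT3, mem_filter] at ha
    exact ha.2)
  rw [hεε] at b3
  have hc := (Nat.cast_le (α := ℝ)).2 ((card_le_card hsub).trans ((card_union_le _ _).trans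
    (add_le_add le_rfl (card_union_le _ _))))
  push_cast at hc
  have hM : k + 1 ≤ MM e := by
    rw [MM_eq]
    have h2 : (e + 1) * 2 ≤ (e + 1) * (e + 2) := Nat.mul_le_mul_left _ (by omega)
    omega
  have e1 : (H : ℝ) ^ (MM e - k) = (H : ℝ) ^ (MM e - (k + 1)) * H := by
    rw [← pow_succ]
    congr 1
    omega
  rw [div_le_iff₀ (by positivity)]
  have h5 : (C1 + C2) * (H : ℝ) ^ (MM e - (k + 1)) ≤ ε / 2 * (H : ℝ) ^ (MM e - k) := by
    rw [e1]
    have h6 : C1 + C2 ≤ ε / 2 * H := by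
      have h7 : 2 * (C1 + C2) / ε ≤ H := hH₀.trans (by exact_mod_cast hH0)
      rw [div_le_iff₀ hε] at h7
      linarith
    calc (C1 + C2) * (H : ℝ) ^ (MM e - (k + 1)) ≤ (ε / 2 * H) * (H : ℝ) ^ (MM e - (k + 1)) := by
          gcongr
      _ = _ := by ring
  linarith

end Pool.Agent.Run7.h953.KP
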