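import Pool.Agent.Run7.h953.KP.Bd
import Pool.Agent.Run7.h953.KP.Small

set_option autoImplicit false
set_option linter.unusedSectionVars false

/-! The tail of the limit law of the sets of integer points. -/

open Filter Topology Finset

namespace Pool.Agent.Run7.h953.KP

open Pool.Agent.R414.DN Pool.Agent.N656.LL

lemma tau_sz {P : ℤ × ℤ} (h : 1 ≤ sz P) : tau P = sz P := by
  unfold tau
  exact max_eq_right (by exact_mod_cast h)

lemma card_sphere (m : ℕ) (hm : 1 ≤ m) (F : Finset (ℤ × ℤ)) (hF : ∀ P ∈ F, sz P = m) :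
    F.card ≤ 8 * m := by
  classical
  have h1 : F ⊆ bx m \ bx (m - 1) := by
    intro P hP
    rw [Finset.mem_sdiff, mem_bx, mem_bx, hF P hP]
    omega
  have h2 : bx (m - 1) ⊆ bx m := by
    intro P hP
    rw [mem_bx] at hP ⊢
    omega
  refine (card_le_card h1).trans ?_
  rw [card_sdiff_of_subset h2, card_bx, card_bx]
  obtain ⟨n, rfl⟩ : ∃ n, m = n + 1 := ⟨m - 1, by omega⟩
  rw [Nat.add_sub_cancel, Nat.sub_le_iff_le_add]
  nlinarith

/-- the sum over the large points -/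
lemma sum_large {T : ℕ} (hT : 1 ≤ T) (F : Finset (ℤ × ℤ)) (hF : ∀ P ∈ F, T < sz P) :
    ∑ P ∈ F, 1 / tau P ^ 3 ≤ 8 / (T : ℝ) := by
  classical
  obtain ⟨M, hM⟩ : ∃ M, M = max T (F.sup sz) := ⟨_, rfl⟩
  have hTM : T ≤ M := by rw [hM]; exact le_max_left _ _
  have hmaps : ∀ P ∈ F, sz P ∈ Ioc T M := by
    intro P hP
    rw [mem_Ioc, hM]
    exact ⟨hF P hP, (le_sup (f := sz) hP).trans (le_max_right _ _)⟩
  rw [← sum_fiberwise_of_maps_to hmaps]
  have h1 : ∀ m ∈ Ioc T M, ∑ P ∈ F with sz P = m, 1 / tau P ^ 3 ≤ 8 * ((m : ℝ) ^ 2)⁻¹ := by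
    intro m hm
    rw [mem_Ioc] at hm
    have hm1 : 1 ≤ m := by omega
    have hm0 : (0 : ℝ) < m := by exact_mod_cast hm1
    have h2 : ∀ P ∈ F.filter (fun P => sz P = m), 1 / tau P ^ 3 ≤ 1 / (m : ℝ) ^ 3 := by
      intro P hP
      rw [mem_filter] at hP
      rw [tau_sz (by rw [hP.2]; exact hm1), hP.2]
    refine (sum_le_card_nsmul _ _ _ h2).trans ?_
    have h3 : ((F.filter fun P => sz P = m).card : ℝ) ≤ 8 * m := by
      exact_mod_cast card_sphere m hm1 _ (fun P hP => (mem_filter.1 hP).2)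
    rw [nsmul_eq_mul]
    calc ((F.filter fun P => sz P = m).card : ℝ) * (1 / (m : ℝ) ^ 3)
        ≤ 8 * m * (1 / (m : ℝ) ^ 3) := by gcongr
      _ = _ := by field_simp
  refine (sum_le_sum h1).trans ?_
  rw [← mul_sum]
  have h2 := sum_Ioc_inv_sq_le_sub (α := ℝ) (show T ≠ 0 by omega) hTM
  have h3 : (0 : ℝ) ≤ (M : ℝ)⁻¹ := by positivity
  rw [div_eq_mul_inv]
  nlinarith

/-- the sum over the sets with a large point -/
lemma sum_sets {T s : ℕ} (hT : 1 ≤ T) (hs : 3 ≤ s) (F : Finset (Finset (ℤ × ℤ)))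
    (hF : ∀ S ∈ F, ∃ P ∈ S, T < sz P) :
    ∑ S ∈ F, 1 / pt S ^ s ≤ 8 * (∑' S, wS S) / (T : ℝ) ^ (s - 2) := by
  classical
  have hT' : (1 : ℝ) ≤ T := by exact_mod_cast hT
  have hT0 : (0 : ℝ) < T := by linarith
  obtain ⟨g, hg⟩ : ∃ g : Finset (ℤ × ℤ) → ℤ × ℤ, ∀ S ∈ F, g S ∈ S ∧ T < sz (g S) := by
    refine ⟨fun S => if h : S ∈ F then (hF S h).choose else 0, fun S hS => ?_⟩
    simp only [dif_pos hS]
    exact (hF S hS).choose_spec
  have h1 : ∀ S ∈ F, 1 / pt S ^ s ≤ 1 / (T : ℝ) ^ (s - 3) *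
      (1 / tau (g S) ^ 3 * wS (S.erase (g S))) := by
    intro S hS
    obtain ⟨h2, h3⟩ := hg S hS
    have h4 : pt S = tau (g S) * pt (S.erase (g S)) := by
      unfold pt
      rw [mul_prod_erase S _ h2]
    have h5 := pt_one (S.erase (g S))
    have h6 : (T : ℝ) ≤ tau (g S) := by
      rw [tau_sz (by omega)]
      exact_mod_cast h3.le
    have h7 := tau_pos (g S)
    unfold wS
    rw [h4, div_mul_div_comm, div_mul_div_comm, one_mul, one_mul]
    apply one_div_le_one_div_of_le (by positivity)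
    rw [mul_pow]
    have h8 : (T : ℝ) ^ (s - 3) * tau (g S) ^ 3 ≤ tau (g S) ^ s := by
      calc (T : ℝ) ^ (s - 3) * tau (g S) ^ 3 ≤ tau (g S) ^ (s - 3) * tau (g S) ^ 3 := by gcongr
        _ = _ := by
          rw [← pow_add]
          congr 1
          omega
    have h9 : pt (S.erase (g S)) ^ 3 ≤ pt (S.erase (g S)) ^ s := pow_le_pow_right₀ h5 hs
    calc (T : ℝ) ^ (s - 3) * (tau (g S) ^ 3 * pt (S.erase (g S)) ^ 3)
        = ((T : ℝ) ^ (s - 3) * tau (g S) ^ 3) * pt (S.erase (g S)) ^ 3 := by ring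
      _ ≤ _ := by gcongr
  refine (sum_le_sum h1).trans ?_
  rw [← mul_sum]
  have h2 : ∑ S ∈ F, 1 / tau (g S) ^ 3 * wS (S.erase (g S)) ≤ 8 / T * ∑' S, wS S := by
    obtain ⟨G, hG⟩ : ∃ G : Finset (ℤ × ℤ), G = F.image g := ⟨_, rfl⟩
    obtain ⟨E, hE⟩ : ∃ E : Finset (Finset (ℤ × ℤ)), E = F.image fun S => S.erase (g S) := ⟨_, rfl⟩
    have h3 : ∑ S ∈ F, 1 / tau (g S) ^ 3 * wS (S.erase (g S)) =
        ∑ q ∈ F.image (fun S => (g S, S.erase (g S))), 1 / tau q.1 ^ 3 * wS q.2 := by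
      rw [sum_image]
      intro S hS S' hS' h
      rw [Prod.mk.injEq] at h
      have e1 := insert_erase (hg S hS).1
      have e2 := insert_erase (hg S' hS').1
      rw [← e1, ← e2, h.2, h.1]
    rw [h3]
    have h4 : F.image (fun S => (g S, S.erase (g S))) ⊆ G ×ˢ E := by
      intro q hq
      rw [mem_image] at hq
      obtain ⟨S, hS, rfl⟩ := hq
      rw [mem_product, hG, hE]
      exact ⟨mem_image_of_mem _ hS, mem_image_of_mem _ hS⟩
    have hnn : ∀ P : ℤ × ℤ, 0 ≤ 1 / tau P ^ 3 := fun P => by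
      have := tau_pos P
      positivity
    refine (sum_le_sum_of_subset_of_nonneg h4 fun q _ _ =>
      mul_nonneg (hnn q.1) (wS_nonneg q.2)).trans ?_
    rw [sum_product]
    simp only
    have h5 : ∀ P ∈ G, ∑ S ∈ E, 1 / tau P ^ 3 * wS S ≤ 1 / tau P ^ 3 * ∑' S, wS S := by
      intro P _
      rw [← mul_sum]
      apply mul_le_mul_of_nonneg_left _ (hnn P)
      exact summable_wS.sum_le_tsum _ fun S _ => wS_nonneg S
    refine (sum_le_sum h5).trans ?_
    rw [← sum_mul]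
    apply mul_le_mul_of_nonneg_right _ (tsum_nonneg wS_nonneg)
    apply sum_large hT
    intro P hP
    rw [hG, mem_image] at hP
    obtain ⟨S, hS, rfl⟩ := hP
    exact (hg S hS).2
  have h3 : (T : ℝ) ^ (s - 2) = (T : ℝ) ^ (s - 3) * T := by
    rw [← pow_succ]
    congr 1
    omega
  calc 1 / (T : ℝ) ^ (s - 3) * ∑ S ∈ F, 1 / tau (g S) ^ 3 * wS (S.erase (g S))
      ≤ 1 / (T : ℝ) ^ (s - 3) * (8 / T * ∑' S, wS S) := by gcongr
    _ = _ := by
      rw [h3]
      field_simp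

variable {e k : ℕ}

/-- **The tail, upper bound.** -/
theorem tail_upper (he : 2 * k + 2 ≤ e) : ∃ C : ℝ, 0 ≤ C ∧ ∀ T : ℕ, 1 ≤ T →
    ∀ F : Finset (Finset (ℤ × ℤ)), (∀ S ∈ F, S.card = k ∧ ∃ P ∈ S, T < sz P) →
      ∑ S ∈ F, VS e S ≤ C / (T : ℝ) ^ (e - k - 1) := by
  classical
  have hC := CP_pos e
  have hw : 0 ≤ ∑' S, wS S := tsum_nonneg wS_nonneg
  refine ⟨CP e * 2 ^ (e + 1) * (8 * ∑' S, wS S), by positivity, fun T hT F hF => ?_⟩
  have h1 : ∀ S ∈ F, VS e S ≤ CP e * 2 ^ (e + 1) * (1 / pt S ^ (e + 1 - k)) := by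
    intro S hS
    have h2 := VS_le (e := e) S (by rw [(hF S hS).1]; omega)
    rw [(hF S hS).1] at h2
    rw [mul_one_div]
    exact h2
  refine (sum_le_sum h1).trans ?_
  rw [← mul_sum]
  have h2 := sum_sets hT (s := e + 1 - k) (by omega) F fun S hS => (hF S hS).2
  have h3 : e + 1 - k - 2 = e - k - 1 := by omega
  rw [h3] at h2
  calc CP e * 2 ^ (e + 1) * ∑ S ∈ F, 1 / pt S ^ (e + 1 - k)
      ≤ CP e * 2 ^ (e + 1) * (8 * (∑' S, wS S) / (T : ℝ) ^ (e - k - 1)) := by gcongr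
    _ = _ := by ring

/-- **The tail, lower bound.** -/
theorem tail_lower (hk : 1 ≤ k) (he : 2 * k + 2 ≤ e) : ∃ c : ℝ, 0 < c ∧ ∀ T : ℕ, 1 ≤ T →
    ∃ F : Finset (Finset (ℤ × ℤ)), (∀ S ∈ F, S.card = k ∧ ∃ P ∈ S, T < sz P) ∧
      c / (T : ℝ) ^ (e - 2) ≤ ∑ S ∈ F, VS e S := by
  classical
  obtain ⟨S₀, hS₀⟩ : ∃ S₀ : Finset (ℤ × ℤ), S₀ = (range (k - 1)).image fun j : ℕ =>
    ((j : ℤ), (0 : ℤ)) := ⟨_, rfl⟩
  have hcard : S₀.card = k - 1 := by
    rw [hS₀, card_image_of_injective _ (fun a b h => by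
      have := congrArg Prod.fst h
      simp only at this
      exact_mod_cast this), card_range]
  have h0 : ∀ P ∈ S₀, P.2 = 0 := by
    intro P hP
    rw [hS₀, mem_image] at hP
    obtain ⟨j, -, rfl⟩ := hP
    rfl
  obtain ⟨c₀, hc₀⟩ : ∃ c₀ : ℝ, c₀ = 1 / (3 * (MM e : ℝ)) ^ (e + 1) := ⟨_, rfl⟩
  have hM0 : (0 : ℝ) < MM e := by exact_mod_cast lt_of_lt_of_le (by omega) (MM_pos e)
  have hc0 : 0 < c₀ := by rw [hc₀]; positivity
  have hpt := pt_one S₀
  have hpt0 : 0 < pt S₀ := by linarith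
  refine ⟨c₀ / (2 * pt S₀) ^ e, by positivity, fun T hT => ?_⟩
  have hT0 : (0 : ℝ) < T := by exact_mod_cast hT
  obtain ⟨G, hG⟩ : ∃ G : Finset (ℤ × ℤ), G = (Ioc (T : ℤ) (2 * T)) ×ˢ (Icc (1 : ℤ) T) := ⟨_, rfl⟩
  have hGm : ∀ P ∈ G, T < sz P ∧ sz P ≤ 2 * T ∧ P.2 ≠ 0 := by
    intro P hP
    rw [hG, mem_product, mem_Ioc, mem_Icc] at hP
    unfold sz
    omega
  have hGc : G.card = T * T := by
    rw [hG, card_product, Int.card_Ioc, Int.card_Icc]
    have e1 : (2 * (T : ℤ) - T).toNat = T := by omega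
    have e2 : ((T : ℤ) + 1 - 1).toNat = T := by omega
    rw [e1, e2]
  have hnot : ∀ P ∈ G, P ∉ S₀ := fun P hP h => (hGm P hP).2.2 (h0 P h)
  have hinj : Set.InjOn (fun P => insert P S₀) (G : Set (ℤ × ℤ)) := by
    intro P hP Q hQ h
    simp only at h
    have h1 : P ∈ insert Q S₀ := by
      rw [← h]
      exact mem_insert_self _ _
    rcases mem_insert.1 h1 with h2 | h2
    · exact h2
    · exact absurd h2 (hnot P (mem_coe.1 hP))
  refine ⟨G.image fun P => insert P S₀, ?_, ?_⟩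
  · intro S hS
    rw [mem_image] at hS
    obtain ⟨P, hP, rfl⟩ := hS
    refine ⟨?_, P, mem_insert_self _ _, (hGm P hP).1⟩
    rw [card_insert_of_notMem (hnot P hP), hcard]
    omega
  · rw [sum_image hinj]
    have h1 : ∀ P ∈ G, c₀ / (2 * pt S₀) ^ e / (T : ℝ) ^ e ≤ VS e (insert P S₀) := by
      intro P hP
      have hc : (insert P S₀).card = k := by
        rw [card_insert_of_notMem (hnot P hP), hcard]
        omega
      have h2 := VS_ge (e := e) (insert P S₀) (by rw [hc]; omega) (by rw [hc]; omega)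
      rw [← hc₀] at h2
      refine le_trans ?_ h2
      have h3 : pt (insert P S₀) ≤ 2 * pt S₀ * T := by
        have h4 : pt (insert P S₀) = tau P * pt S₀ := by
          unfold pt
          rw [prod_insert (hnot P hP)]
        have h5 : tau P ≤ 2 * T := by
          rw [tau_sz (by have := (hGm P hP).1; omega)]
          exact_mod_cast (hGm P hP).2.1
        rw [h4]
        calc tau P * pt S₀ ≤ 2 * T * pt S₀ := by gcongr
          _ = _ := by ring
      have h6 := pt_one (insert P S₀)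
      have h7 : 0 < pt (insert P S₀) := by linarith
      rw [div_div, ← mul_pow]
      gcongr
    refine le_trans (le_of_eq ?_) (card_nsmul_le_sum _ _ _ h1)
    rw [hGc, nsmul_eq_mul]
    have h2 : (T : ℝ) ^ e = (T : ℝ) ^ (e - 2) * T ^ 2 := by
      rw [← pow_add]
      congr 1
      omega
    rw [h2]
    push_cast
    field_simp

end Pool.Agent.Run7.h953.KP
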