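import Pool.Agent.Run7.h953.KP.Ev

set_option autoImplicit false
set_option linter.unusedSectionVars false

/-! Bounds for the density of the curves through given points. -/

open Filter Topology Finset

namespace Pool.Agent.Run7.h953.KP

open Pool.Agent.R414.DN Pool.Agent.N656.LL

variable {e : ℕ}

lemma hom_zero (n : ℕ) : (0 : MvPolynomial (Fin 2) ℤ).IsHomogeneous n :=
  MvPolynomial.isHomogeneous_zero _ _ _

lemma ncard_zeros (S : Finset (ℤ × ℤ)) (H : ℕ) [DecidablePred fun a : Cf e =>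
    ∀ P ∈ S, Fv (co a) e P.1 P.2 = 0] :
    Set.ncard {a | a ∈ ibox ↥(I e) H ∧
      ∀ P ∈ S, MvPolynomial.eval ![P.1, P.2] ((0 : MvPolynomial (Fin 2) ℤ) + poly a) = 0} =
    ((ibox ↥(I e) H).filter fun a => ∀ P ∈ S, Fv (co a) e P.1 P.2 = 0).card := by
  rw [← Set.ncard_coe_finset]
  congr 1
  ext a
  rw [mem_coe, mem_filter]
  constructor
  · rintro ⟨h1, h2⟩
    refine ⟨h1, fun P hP => ?_⟩
    have := h2 P hP
    rwa [zero_add, eval_poly] at this
  · rintro ⟨h1, h2⟩
    refine ⟨h1, fun P hP => ?_⟩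
    rw [zero_add, eval_poly]
    exact h2 P hP

/-- the upper bound -/
theorem VS_le (S : Finset (ℤ × ℤ)) (hS : 2 * S.card ≤ e + 1) :
    VS e S ≤ CP e * 2 ^ (e + 1) / pt S ^ (e + 1 - S.card) := by
  classical
  have h1 := lim_points (hom_zero (e + 1)) S hS
  refine le_of_tendsto h1 ?_
  obtain ⟨N, hN⟩ := exists_nat_ge (pt S)
  filter_upwards [eventually_ge_atTop N, eventually_ge_atTop 1] with H hH hH1
  rw [ncard_zeros]
  have hp : pt S ≤ H := hN.trans (by exact_mod_cast hH)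
  have h2 := count_small hH1 S (by omega) hp (fun _ => 0)
    ((ibox ↥(I e) H).filter fun a => ∀ P ∈ S, Fv (co a) e P.1 P.2 = 0) (filter_subset _ _)
    (fun a ha => (mem_filter.1 ha).2)
  have hH0 : (0 : ℝ) < H := by exact_mod_cast hH1
  rw [div_le_iff₀ (by positivity)]
  refine h2.trans (le_of_eq ?_)
  ring

/-- a bound for the values -/
lemma Fv_le {H : ℕ} {a : Cf e} (ha : a ∈ ibox ↥(I e) H) (P : ℤ × ℤ) :
    |Fv (co a) e P.1 P.2| ≤ ((MM e * H * (max 1 (sz P)) ^ e : ℕ) : ℤ) := by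
  rw [Fv_sumI]
  refine (abs_sum_le_sum_abs _ _).trans ?_
  have h1 : ∀ p ∈ (univ : Finset ↥(I e)), |a p * (P.1 ^ p.1.2 * P.2 ^ (p.1.1 - p.1.2))| ≤
      ((H * (max 1 (sz P)) ^ e : ℕ) : ℤ) := by
    intro p _
    have hp := mem_I.1 p.2
    have g1 : |P.1| ≤ ((max 1 (sz P) : ℕ) : ℤ) := by
      rw [Int.abs_eq_natAbs]
      exact_mod_cast (le_max_left P.1.natAbs P.2.natAbs).trans (le_max_right 1 (sz P))
    have g2 : |P.2| ≤ ((max 1 (sz P) : ℕ) : ℤ) := by
      rw [Int.abs_eq_natAbs]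
      exact_mod_cast (le_max_right P.1.natAbs P.2.natAbs).trans (le_max_right 1 (sz P))
    rw [abs_mul, abs_mul, abs_pow, abs_pow, Nat.cast_mul, Nat.cast_pow]
    apply mul_le_mul (mem_ibox.1 ha p) _ (by positivity) (by positivity)
    calc |P.1| ^ p.1.2 * |P.2| ^ (p.1.1 - p.1.2)
        ≤ ((max 1 (sz P) : ℕ) : ℤ) ^ p.1.2 * ((max 1 (sz P) : ℕ) : ℤ) ^ (p.1.1 - p.1.2) := by
          gcongr
      _ = ((max 1 (sz P) : ℕ) : ℤ) ^ p.1.1 := by
          rw [← pow_add]
          congr 1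
          omega
      _ ≤ ((max 1 (sz P) : ℕ) : ℤ) ^ e := by
          apply pow_le_pow_right₀ _ hp.1
          exact_mod_cast le_max_left _ _
  refine (sum_le_sum h1).trans ?_
  rw [sum_const, card_univ, nsmul_eq_mul]
  unfold MM
  push_cast
  rw [mul_assoc]

/-- the number of polynomials with given zeros -/
lemma card_ge (S : Finset (ℤ × ℤ)) (hS : S.card ≤ e) {H : ℕ} (hH : 1 ≤ H)
    [DecidablePred fun a : Cf e => ∀ P ∈ S, Fv (co a) e P.1 P.2 = 0] :
    (2 * H + 1) ^ MM e ≤ ((ibox ↥(I e) (2 * H)).filter fun a =>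
      ∀ P ∈ S, Fv (co a) e P.1 P.2 = 0).card * ∏ P ∈ S, (3 * (MM e * H * (max 1 (sz P)) ^ e)) := by
  classical
  obtain ⟨Z, hZ⟩ : ∃ Z : Finset (Cf e), Z = (ibox ↥(I e) (2 * H)).filter fun a =>
      ∀ P ∈ S, Fv (co a) e P.1 P.2 = 0 := ⟨_, rfl⟩
  rw [← hZ]
  have h1 := card_le_mul_card_image (f := fun a : Cf e => evS e S a) (ibox ↥(I e) H) Z.card ?_
  · rw [card_ibox] at h1
    refine le_trans (le_of_eq ?_) (h1.trans (Nat.mul_le_mul_left _ ?_))
    · rfl
    · have h2 : (ibox ↥(I e) H).image (fun a : Cf e => evS e S a) ⊆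
          Fintype.piFinset fun P : ↥S => Icc (-((MM e * H * (max 1 (sz P.1)) ^ e : ℕ) : ℤ))
            ((MM e * H * (max 1 (sz P.1)) ^ e : ℕ) : ℤ) := by
        intro v hv
        rw [mem_image] at hv
        obtain ⟨a, ha, rfl⟩ := hv
        rw [Fintype.mem_piFinset]
        intro P
        rw [mem_Icc, ← abs_le, evS_apply]
        exact Fv_le ha P.1
      refine (card_le_card h2).trans ?_
      rw [Fintype.card_piFinset, ← prod_coe_sort S]
      apply prod_le_prod' 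
      intro P _
      rw [Int.card_Icc]
      have h3 : 1 ≤ MM e * H * (max 1 (sz P.1)) ^ e := by
        have h4 : 1 ≤ max 1 (sz P.1) := le_max_left _ _
        have h5 : 1 ≤ MM e := le_trans (by omega) (MM_pos e)
        exact Nat.one_le_iff_ne_zero.2 (by positivity)
      omega
  · intro v hv
    rw [mem_image] at hv
    obtain ⟨a₀, ha₀, rfl⟩ := hv
    apply card_le_card_of_injOn (fun a => a - a₀)
    · intro a ha
      rw [mem_coe, mem_filter] at ha
      rw [mem_coe, hZ, mem_filter]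
      constructor
      · rw [mem_ibox]
        intro p
        have g1 := mem_ibox.1 ha.1 p
        have g2 := mem_ibox.1 ha₀ p
        show |a p - a₀ p| ≤ _
        refine (abs_sub _ _).trans ?_
        push_cast
        linarith
      · intro P hP
        have g1 := congrFun ha.2 ⟨P, hP⟩
        simp only [evS_apply] at g1
        show Fv (co (a - a₀)) e P.1 P.2 = 0
        rw [Fv_sub, g1, sub_self]
    · intro a _ a' _ h
      exact sub_left_injective h

/-- the lower bound -/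
theorem VS_ge (S : Finset (ℤ × ℤ)) (hS : 2 * S.card ≤ e + 1) (hSe : S.card ≤ e) :
    1 / (3 * (MM e : ℝ)) ^ (e + 1) / pt S ^ e ≤ VS e S := by
  classical
  have h1 := lim_points (hom_zero (e + 1)) S hS
  have h2 : Tendsto (fun H : ℕ => 2 * H) atTop atTop := by
    apply tendsto_atTop_mono (fun H => ?_) tendsto_id
    simp only [id]
    omega
  have hM : e + 1 ≤ MM e := by
    rw [MM_eq]
    have h2 : (e + 1) * 2 ≤ (e + 1) * (e + 2) := Nat.mul_le_mul_left _ (by omega)
    omega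
  refine ge_of_tendsto (h1.comp h2) ?_
  filter_upwards [eventually_ge_atTop 1] with H hH1
  simp only [Function.comp_apply]
  rw [ncard_zeros]
  have hH0 : (0 : ℝ) < H := by exact_mod_cast hH1
  have hM0 : (0 : ℝ) < MM e := by exact_mod_cast lt_of_lt_of_le (by omega : 0 < e + 1) hM
  have h3 := card_ge S hSe hH1
  obtain ⟨Z, hZ⟩ : ∃ Z : Finset (Cf e), Z = (ibox ↥(I e) (2 * H)).filter fun a =>
      ∀ P ∈ S, Fv (co a) e P.1 P.2 = 0 := ⟨_, rfl⟩
  rw [← hZ] at h3 ⊢
  have h4 : ((∏ P ∈ S, (3 * (MM e * H * (max 1 (sz P)) ^ e)) : ℕ) : ℝ) =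
      (3 * (MM e : ℝ) * H) ^ S.card * pt S ^ e := by
    push_cast
    unfold pt tau
    rw [← prod_pow, ← prod_const, ← prod_mul_distrib]
    refine prod_congr rfl fun P _ => ?_
    push_cast
    ring
  have h5 : (2 * (H : ℝ)) ^ MM e ≤ Z.card * ((3 * (MM e : ℝ) * H) ^ S.card * pt S ^ e) := by
    rw [← h4]
    calc (2 * (H : ℝ)) ^ MM e ≤ (2 * (H : ℝ) + 1) ^ MM e := by
          gcongr
          linarith
      _ ≤ _ := by exact_mod_cast h3
  have hp := pt_one S
  have hpp : 0 < pt S := by linarith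
  rw [div_div, div_le_div_iff₀ (by positivity) (by positivity), one_mul]
  push_cast
  have h6 : (2 * (H : ℝ)) ^ MM e = (2 * (H : ℝ)) ^ (MM e - S.card) * (2 * (H : ℝ)) ^ S.card := by
    rw [← pow_add]
    congr 1
    omega
  have h7 : (3 * (MM e : ℝ) * H) ^ S.card = (3 * (MM e : ℝ)) ^ S.card * (H : ℝ) ^ S.card := by
    rw [mul_pow]
  rw [h6, h7] at h5
  have h8 : (2 * (H : ℝ)) ^ (MM e - S.card) * (H : ℝ) ^ S.card ≤
      Z.card * ((3 * (MM e : ℝ)) ^ S.card * pt S ^ e) * (H : ℝ) ^ S.card := by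
    calc (2 * (H : ℝ)) ^ (MM e - S.card) * (H : ℝ) ^ S.card
        ≤ (2 * (H : ℝ)) ^ (MM e - S.card) * (2 * (H : ℝ)) ^ S.card := by
          gcongr
          linarith
      _ ≤ _ := h5
      _ = _ := by ring
  have h9 := le_of_mul_le_mul_right h8 (by positivity)
  refine h9.trans ?_
  have h10 : (3 * (MM e : ℝ)) ^ S.card ≤ (3 * (MM e : ℝ)) ^ (e + 1) := by
    apply pow_le_pow_right₀ _ (by omega)
    have : (1 : ℝ) ≤ MM e := by exact_mod_cast le_trans (by omega : 1 ≤ e + 1) hM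
    linarith
  gcongr

end Pool.Agent.Run7.h953.KP
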