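import Pool.Agent.N656.LL.Asm

set_option autoImplicit false
set_option linter.unusedSectionVars false

/-! An abstract limit law for rare events indexed by an arbitrary type. -/

open Filter Topology Finset

namespace Pool.Agent.Run7.h953.KP

open Pool.Agent.N656.LL

/-- the data of a limit law -/
structure LawData where
  ι : Type
  α : Type
  S : ℕ → Finset α
  Z : α → ι → Prop
  v : ι → ℝ
  n : ℕ
  hv : ∀ i, 0 < v i
  lim : ∀ i, Tendsto (fun H : ℕ => (Set.ncard {a | a ∈ S H ∧ Z a i} : ℝ) / (H : ℝ) ^ n) atTop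
    (𝓝 (v i))
  two : ∀ i j, i ≠ j → Tendsto (fun H : ℕ =>
    (Set.ncard {a | a ∈ S H ∧ Z a i ∧ Z a j} : ℝ) / (H : ℝ) ^ n) atTop (𝓝 0)
  tail : ∀ ε : ℝ, 0 < ε → ∃ F : Finset ι, ∀ᶠ H : ℕ in atTop,
    (Set.ncard {a | a ∈ S H ∧ ∃ i, i ∉ F ∧ Z a i} : ℝ) / (H : ℝ) ^ n ≤ ε

namespace LawData

variable (D : LawData)

lemma fin (H : ℕ) (p : D.α → Prop) : {a | a ∈ D.S H ∧ p a}.Finite :=
  (D.S H).finite_toSet.subset fun _ h => h.1

/-- the number of members for which an event in `A` holds -/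
noncomputable def N (A : Set D.ι) (H : ℕ) : ℝ :=
  (Set.ncard {a | a ∈ D.S H ∧ ∃ i ∈ A, D.Z a i} : ℝ)

lemma N_nonneg (A : Set D.ι) (H : ℕ) : 0 ≤ D.N A H := Nat.cast_nonneg _

lemma N_mono {A B : Set D.ι} (h : A ⊆ B) (H : ℕ) : D.N A H ≤ D.N B H := by
  unfold N
  have h1 : {a | a ∈ D.S H ∧ ∃ i ∈ A, D.Z a i} ⊆ {a | a ∈ D.S H ∧ ∃ i ∈ B, D.Z a i} := by
    rintro a ⟨ha, i, hi, hz⟩
    exact ⟨ha, i, h hi, hz⟩
  exact_mod_cast Set.ncard_le_ncard h1 (D.fin H _)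

lemma N_union (A B : Set D.ι) (H : ℕ) : D.N (A ∪ B) H ≤ D.N A H + D.N B H := by
  unfold N
  have h1 : {a | a ∈ D.S H ∧ ∃ i ∈ A ∪ B, D.Z a i} ⊆
      {a | a ∈ D.S H ∧ ∃ i ∈ A, D.Z a i} ∪ {a | a ∈ D.S H ∧ ∃ i ∈ B, D.Z a i} := by
    rintro a ⟨ha, i, hi, hz⟩
    rcases hi with hi | hi
    · exact Or.inl ⟨ha, i, hi, hz⟩
    · exact Or.inr ⟨ha, i, hi, hz⟩
  exact_mod_cast (Set.ncard_le_ncard h1 ((D.fin H _).union (D.fin H _))).trans
    (Set.ncard_union_le _ _)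

/-- the number of members for which two given events hold, summed over a finite set -/
noncomputable def P2 (F : Finset D.ι) (H : ℕ) : ℝ := by
  classical
  exact ∑ i ∈ F, ∑ j ∈ F.erase i, (Set.ncard {a | a ∈ D.S H ∧ D.Z a i ∧ D.Z a j} : ℝ)

lemma P2_nonneg (F : Finset D.ι) (H : ℕ) : 0 ≤ D.P2 F H := by
  unfold P2
  exact sum_nonneg fun _ _ => sum_nonneg fun _ _ => Nat.cast_nonneg _

lemma P2_lim (F : Finset D.ι) : Tendsto (fun H : ℕ => D.P2 F H / (H : ℝ) ^ D.n) atTop (𝓝 0) := by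
  classical
  unfold P2
  simp only [sum_div]
  have h1 : Tendsto (fun H : ℕ => ∑ i ∈ F, ∑ j ∈ F.erase i,
      (Set.ncard {a | a ∈ D.S H ∧ D.Z a i ∧ D.Z a j} : ℝ) / (H : ℝ) ^ D.n) atTop
      (𝓝 (∑ i ∈ F, ∑ _j ∈ F.erase i, (0 : ℝ))) := by
    refine tendsto_finsetSum _ fun i _ => tendsto_finsetSum _ fun j hj => ?_
    exact D.two i j (Ne.symm (mem_erase.1 hj).1)
  simpa using h1

/-- upper and lower bound for finite sets -/
lemma N_finset (F G : Finset D.ι) (hG : G ⊆ F) (H : ℕ) :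
    D.N G H ≤ ∑ i ∈ G, (Set.ncard {a | a ∈ D.S H ∧ D.Z a i} : ℝ) ∧
    ∑ i ∈ G, (Set.ncard {a | a ∈ D.S H ∧ D.Z a i} : ℝ) -
      (F.card : ℝ) ^ 2 * D.P2 F H ≤ D.N G H := by
  classical
  have e1 : ∀ (p : D.α → Prop) [DecidablePred p],
      Set.ncard {a | a ∈ D.S H ∧ p a} = ((D.S H).filter p).card := by
    intro p _
    rw [← Set.ncard_coe_finset]
    congr 1
    ext a
    simp
  have e2 : (D.S H).filter (fun a => ∃ i, i ∈ G ∧ D.Z a i) =
      G.biUnion fun i => (D.S H).filter fun a => D.Z a i := by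
    ext a
    simp only [mem_filter, mem_biUnion]
    constructor
    · rintro ⟨h1, P, h2, h3⟩
      exact ⟨P, h2, h1, h3⟩
    · rintro ⟨P, h2, h1, h3⟩
      exact ⟨h1, P, h2, h3⟩
  have e3 : D.N G H = ((G.biUnion fun i => (D.S H).filter fun a => D.Z a i).card : ℝ) := by
    rw [← e2, ← e1]
    rfl
  have e4 : ∀ i, (Set.ncard {a | a ∈ D.S H ∧ D.Z a i} : ℝ) =
      (((D.S H).filter fun a => D.Z a i).card : ℝ) := fun i => by rw [e1]
  rw [e3]
  simp only [e4]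
  constructor
  · exact_mod_cast card_biUnion_le
  · have h0 := bonf G (fun i => (D.S H).filter fun a => D.Z a i) (D.P2 F H) ?_ (D.P2_nonneg F H)
    · refine le_trans ?_ h0
      have h1 : (G.card : ℝ) ^ 2 * D.P2 F H ≤ (F.card : ℝ) ^ 2 * D.P2 F H := by
        apply mul_le_mul_of_nonneg_right _ (D.P2_nonneg F H)
        have : (G.card : ℝ) ≤ F.card := by exact_mod_cast card_le_card hG
        gcongr
      linarith
    · intro i hi j hj hij
      have h1 : (((D.S H).filter fun a => D.Z a i) ∩ ((D.S H).filter fun a => D.Z a j)).card ≤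
          Set.ncard {a | a ∈ D.S H ∧ D.Z a i ∧ D.Z a j} := by
        rw [e1 (fun a => D.Z a i ∧ D.Z a j)]
        apply card_le_card
        intro a ha
        rw [mem_inter, mem_filter, mem_filter] at ha
        rw [mem_filter]
        exact ⟨ha.1.1, ha.1.2, ha.2.2⟩
      have h2 : (Set.ncard {a | a ∈ D.S H ∧ D.Z a i ∧ D.Z a j} : ℝ) ≤ D.P2 F H := by
        unfold P2
        have h3 : (Set.ncard {a | a ∈ D.S H ∧ D.Z a i ∧ D.Z a j} : ℝ) ≤
            ∑ j ∈ F.erase i, (Set.ncard {a | a ∈ D.S H ∧ D.Z a i ∧ D.Z a j} : ℝ) :=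
          single_le_sum (f := fun j => (Set.ncard {a | a ∈ D.S H ∧ D.Z a i ∧ D.Z a j} : ℝ))
            (fun _ _ => Nat.cast_nonneg _) (mem_erase.2 ⟨Ne.symm hij, hG hj⟩)
        refine h3.trans ?_
        exact single_le_sum (f := fun i => ∑ j ∈ F.erase i,
          (Set.ncard {a | a ∈ D.S H ∧ D.Z a i ∧ D.Z a j} : ℝ))
          (fun _ _ => sum_nonneg fun _ _ => Nat.cast_nonneg _) (hG hi)
      exact (Nat.cast_le.2 h1).trans h2

/-- finite sets: the limit -/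
lemma sum_lim (F : Finset D.ι) :
    Tendsto (fun H : ℕ => (∑ i ∈ F, (Set.ncard {a | a ∈ D.S H ∧ D.Z a i} : ℝ)) / (H : ℝ) ^ D.n)
      atTop (𝓝 (∑ i ∈ F, D.v i)) := by
  simp only [sum_div]
  exact tendsto_finsetSum _ fun i _ => D.lim i

/-- finite sets outside of the essential part have small weight -/
lemma finset_tail {ε : ℝ} {F₀ : Finset D.ι} (h : ∀ᶠ H : ℕ in atTop,
    (Set.ncard {a | a ∈ D.S H ∧ ∃ i, i ∉ F₀ ∧ D.Z a i} : ℝ) / (H : ℝ) ^ D.n ≤ ε)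
    (G : Finset D.ι) (hG : ∀ i ∈ G, i ∉ F₀) : ∑ i ∈ G, D.v i ≤ ε := by
  have h1 := D.sum_lim G
  have h2 : Tendsto (fun H : ℕ => ε + (G.card : ℝ) ^ 2 * (D.P2 G H / (H : ℝ) ^ D.n)) atTop
      (𝓝 (ε + (G.card : ℝ) ^ 2 * 0)) :=
    tendsto_const_nhds.add ((D.P2_lim G).const_mul _)
  rw [mul_zero, add_zero] at h2
  refine le_of_tendsto_of_tendsto h1 h2 ?_
  filter_upwards [h, eventually_ge_atTop 1] with H hH hH1
  have hH0 : (0 : ℝ) < H := by exact_mod_cast hH1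
  have h4 := (D.N_finset G G (subset_refl _) H).2
  have h5 : D.N G H ≤ (Set.ncard {a | a ∈ D.S H ∧ ∃ i, i ∉ F₀ ∧ D.Z a i} : ℝ) := by
    unfold N
    have h6 : {a | a ∈ D.S H ∧ ∃ i ∈ (G : Set D.ι), D.Z a i} ⊆
        {a | a ∈ D.S H ∧ ∃ i, i ∉ F₀ ∧ D.Z a i} := by
      rintro a ⟨ha, i, hi, hz⟩
      exact ⟨ha, i, hG i (mem_coe.1 hi), hz⟩
    exact_mod_cast Set.ncard_le_ncard h6 (D.fin H _)
  have h7 : (∑ i ∈ G, (Set.ncard {a | a ∈ D.S H ∧ D.Z a i} : ℝ)) / (H : ℝ) ^ D.n ≤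
      ((Set.ncard {a | a ∈ D.S H ∧ ∃ i, i ∉ F₀ ∧ D.Z a i} : ℝ) +
        (G.card : ℝ) ^ 2 * D.P2 G H) / (H : ℝ) ^ D.n := by
    gcongr
    linarith
  rw [add_div, mul_div_assoc] at h7
  linarith

lemma summable : Summable D.v := by
  classical
  obtain ⟨F₀, h⟩ := D.tail 1 one_pos
  apply summable_of_sum_le (c := ∑ i ∈ F₀, D.v i + 1) (fun i => (D.hv i).le)
  intro F
  have h1 := D.finset_tail h (F \ F₀) (fun i hi => (mem_sdiff.1 hi).2)
  have h2 : ∑ i ∈ F, D.v i ≤ ∑ i ∈ F₀ ∪ (F \ F₀), D.v i := by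
    apply sum_le_sum_of_subset_of_nonneg
    · intro i hi
      rw [mem_union]
      by_cases hi0 : i ∈ F₀
      · exact Or.inl hi0
      · exact Or.inr (mem_sdiff.2 ⟨hi, hi0⟩)
    · intro i _ _
      exact (D.hv i).le
  rw [sum_union disjoint_sdiff] at h2
  linarith

/-- the weight of a set -/
noncomputable def wt (A : Set D.ι) : ℝ := ∑' i, A.indicator D.v i

lemma summable_ind (A : Set D.ι) : Summable (A.indicator D.v) := D.summable.indicator A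

lemma wt_nonneg (A : Set D.ι) : 0 ≤ D.wt A :=
  tsum_nonneg fun i => Set.indicator_nonneg (fun i _ => (D.hv i).le) i

lemma wt_mono {A B : Set D.ι} (h : A ⊆ B) : D.wt A ≤ D.wt B := by
  unfold wt
  refine (D.summable_ind A).tsum_le_tsum (fun P => ?_) (D.summable_ind B)
  exact Set.indicator_le_indicator_of_subset h (fun P => (D.hv P).le) P

lemma wt_pos {A : Set D.ι} {i : D.ι} (h : i ∈ A) : 0 < D.wt A := by
  refine (D.summable_ind A).tsum_pos (fun Q => Set.indicator_nonneg (fun P _ => (D.hv P).le) Q) i ?_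
  rw [Set.indicator_of_mem h]
  exact D.hv i

lemma wt_tail {ε : ℝ} {F₀ : Finset D.ι} (h : ∀ᶠ H : ℕ in atTop,
    (Set.ncard {a | a ∈ D.S H ∧ ∃ i, i ∉ F₀ ∧ D.Z a i} : ℝ) / (H : ℝ) ^ D.n ≤ ε) :
    D.wt {i | i ∉ F₀} ≤ ε := by
  classical
  unfold wt
  refine Real.tsum_le_of_sum_le
    (fun P => Set.indicator_nonneg (fun P _ => (D.hv P).le) P) fun F => ?_
  have h1 := D.finset_tail h (F.filter fun P => P ∉ F₀) (fun P hP => (mem_filter.1 hP).2)
  refine le_trans (le_of_eq ?_) h1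
  rw [sum_filter]
  refine sum_congr rfl fun P _ => ?_
  by_cases hP : P ∉ F₀
  · rw [if_pos hP, Set.indicator_of_mem (show P ∈ {i | i ∉ F₀} from hP)]
  · rw [if_neg hP, Set.indicator_of_notMem (show P ∉ {i | i ∉ F₀} from hP)]

lemma wt_split (A : Set D.ι) (F₀ : Finset D.ι) :
    ∃ F : Finset D.ι, F ⊆ F₀ ∧ (F : Set D.ι) ⊆ A ∧ A ⊆ (F : Set D.ι) ∪ {i | i ∉ F₀} ∧
      D.wt A ≤ ∑ i ∈ F, D.v i + D.wt {i | i ∉ F₀} ∧ ∑ i ∈ F, D.v i ≤ D.wt A := by
  classical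
  refine ⟨F₀.filter fun P => P ∈ A, filter_subset _ _, ?_, ?_, ?_, ?_⟩
  · intro P hP
    rw [mem_coe, mem_filter] at hP
    exact hP.2
  · intro P hP
    by_cases h : P ∈ F₀
    · left
      rw [mem_coe, mem_filter]
      exact ⟨h, hP⟩
    · exact Or.inr h
  · unfold wt
    have h1 : ∑ P ∈ F₀.filter (fun P => P ∈ A), D.v P =
        ∑' P, ((F₀.filter fun P => P ∈ A : Finset D.ι) : Set D.ι).indicator D.v P := by
      rw [← _root_.tsum_subtype, Finset.tsum_subtype']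
    rw [h1, ← (D.summable_ind _).tsum_add (D.summable_ind _)]
    refine (D.summable_ind _).tsum_le_tsum (fun P => ?_) ((D.summable_ind _).add (D.summable_ind _))
    by_cases hA : P ∈ A
    · rw [Set.indicator_of_mem hA]
      by_cases hT : P ∉ F₀
      · rw [Set.indicator_of_mem (show P ∈ {i | i ∉ F₀} from hT)]
        have := Set.indicator_nonneg (s := ((F₀.filter fun P => P ∈ A : Finset D.ι) :
          Set D.ι)) (f := D.v) (fun P _ => (D.hv P).le) P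
        linarith
      · have hm : P ∈ ((F₀.filter fun P => P ∈ A : Finset D.ι) : Set D.ι) := by
          rw [mem_coe, mem_filter]
          exact ⟨not_not.1 hT, hA⟩
        rw [Set.indicator_of_mem hm, Set.indicator_of_notMem (show P ∉ {i | i ∉ F₀} from hT),
          add_zero]
    · rw [Set.indicator_of_notMem hA]
      exact add_nonneg (Set.indicator_nonneg (fun P _ => (D.hv P).le) P)
        (Set.indicator_nonneg (fun P _ => (D.hv P).le) P)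
  · unfold wt
    have h1 : ∑ P ∈ F₀.filter (fun P => P ∈ A), D.v P =
        ∑ P ∈ F₀.filter (fun P => P ∈ A), A.indicator D.v P := by
      refine sum_congr rfl fun P hP => ?_
      rw [Set.indicator_of_mem (mem_filter.1 hP).2]
    rw [h1]
    exact (D.summable_ind A).sum_le_tsum _
      fun P _ => Set.indicator_nonneg (fun P _ => (D.hv P).le) P

/-- **The limit law, uniformly in the set.** -/
theorem law {η : ℝ} (hη : 0 < η) : ∀ᶠ H : ℕ in atTop, ∀ A : Set D.ι,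
    |D.N A H / (H : ℝ) ^ D.n - D.wt A| ≤ η := by
  classical
  obtain ⟨F₀, hT⟩ := D.tail (η / 8) (by positivity)
  have hs : ∀ᶠ H : ℕ in atTop, ∀ i ∈ F₀,
      |(Set.ncard {a | a ∈ D.S H ∧ D.Z a i} : ℝ) / (H : ℝ) ^ D.n - D.v i| ≤
        η / (8 * (F₀.card + 1)) := by
    rw [Filter.eventually_all_finset]
    intro P _
    have h1 := D.lim P
    rw [Metric.tendsto_nhds] at h1
    have h2 := h1 (η / (8 * (F₀.card + 1))) (by positivity)
    filter_upwards [h2] with H hH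
    rw [Real.dist_eq] at hH
    exact hH.le
  have hp : ∀ᶠ H : ℕ in atTop, (F₀.card : ℝ) ^ 2 * (D.P2 F₀ H / (H : ℝ) ^ D.n) ≤ η / 8 := by
    have h1 := (D.P2_lim F₀).const_mul ((F₀.card : ℝ) ^ 2)
    rw [mul_zero] at h1
    exact h1.eventually (eventually_le_nhds (by positivity))
  filter_upwards [hT, hs, hp, eventually_ge_atTop 1] with H h1 h2 h3 hH1 A
  have hH0 : (0 : ℝ) < H := by exact_mod_cast hH1
  have hX : (0 : ℝ) < (H : ℝ) ^ D.n := by positivity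
  obtain ⟨F, hFT, hFA, hAF, hF1, hF2⟩ := D.wt_split A F₀
  have hFc : (F.card : ℝ) ≤ F₀.card := by exact_mod_cast card_le_card hFT
  obtain ⟨g1, g2⟩ := D.N_finset F₀ F hFT H
  obtain ⟨s, hs⟩ : ∃ s : ℝ, s = (∑ P ∈ F, (Set.ncard {a | a ∈ D.S H ∧ D.Z a P} : ℝ)) /
    (H : ℝ) ^ D.n := ⟨_, rfl⟩
  have hsv : |s - ∑ P ∈ F, D.v P| ≤ η / 8 := by
    rw [hs, sum_div, ← sum_sub_distrib]
    refine (abs_sum_le_sum_abs _ _).trans ?_
    calc ∑ P ∈ F, |(Set.ncard {a | a ∈ D.S H ∧ D.Z a P} : ℝ) / (H : ℝ) ^ D.n - D.v P|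
        ≤ ∑ _P ∈ F, η / (8 * (F₀.card + 1)) := sum_le_sum fun P hP => h2 P (hFT hP)
      _ = (F.card : ℝ) * (η / (8 * (F₀.card + 1))) := by rw [sum_const, nsmul_eq_mul]
      _ ≤ (F₀.card + 1) * (η / (8 * (F₀.card + 1))) := by
          apply mul_le_mul_of_nonneg_right _ (by positivity)
          linarith
      _ = η / 8 := by field_simp
  have hNF1 : D.N F H / (H : ℝ) ^ D.n ≤ s := by
    rw [hs]
    gcongr
  have hNF2 : s - η / 8 ≤ D.N F H / (H : ℝ) ^ D.n := by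
    have h4 : s - (F₀.card : ℝ) ^ 2 * (D.P2 F₀ H / (H : ℝ) ^ D.n) ≤
        D.N F H / (H : ℝ) ^ D.n := by
      rw [hs, ← mul_div_assoc, ← sub_div]
      gcongr
    linarith
  have hN1 : D.N F H ≤ D.N A H := D.N_mono hFA H
  have hN2 : D.N A H ≤ D.N F H + D.N {i | i ∉ F₀} H :=
    le_trans (D.N_mono hAF H) (D.N_union _ _ H)
  have hN1' : D.N F H / (H : ℝ) ^ D.n ≤ D.N A H / (H : ℝ) ^ D.n := by gcongr
  have hN2' : D.N A H / (H : ℝ) ^ D.n ≤ D.N F H / (H : ℝ) ^ D.n +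
      D.N {i | i ∉ F₀} H / (H : ℝ) ^ D.n := by
    rw [← add_div]
    gcongr
  have hN3 : D.N {i | i ∉ F₀} H / (H : ℝ) ^ D.n ≤ η / 8 := h1
  have hb := D.wt_tail hT
  have hsv' := abs_le.1 hsv
  rw [abs_le]
  constructor <;> linarith [hsv'.1, hsv'.2]

lemma lim_set (A : Set D.ι) :
    Tendsto (fun H : ℕ => D.N A H / (H : ℝ) ^ D.n) atTop (𝓝 (D.wt A)) := by
  rw [Metric.tendsto_nhds]
  intro η hη
  filter_upwards [D.law (by positivity : 0 < η / 2)] with H hH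
  rw [Real.dist_eq]
  have := hH A
  linarith

/-- **Members with a rare property are rare among the members for which an event holds.** -/
theorem rare (Q : D.α → Prop) (hQ : ∀ i, Tendsto (fun H : ℕ =>
    (Set.ncard {a | a ∈ D.S H ∧ D.Z a i ∧ Q a} : ℝ) / (H : ℝ) ^ D.n) atTop (𝓝 0)) :
    Tendsto (fun H : ℕ => (Set.ncard {a | a ∈ D.S H ∧ (∃ i, D.Z a i) ∧ Q a} : ℝ) /
      (H : ℝ) ^ D.n) atTop (𝓝 0) := by
  classical
  rw [Metric.tendsto_nhds]
  intro η hη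
  obtain ⟨F₀, hT⟩ := D.tail (η / 4) (by positivity)
  have hs : Tendsto (fun H : ℕ => ∑ i ∈ F₀,
      (Set.ncard {a | a ∈ D.S H ∧ D.Z a i ∧ Q a} : ℝ) / (H : ℝ) ^ D.n) atTop
      (𝓝 (∑ _i ∈ F₀, (0 : ℝ))) := tendsto_finsetSum _ fun i _ => hQ i
  rw [sum_const_zero] at hs
  filter_upwards [hT, hs.eventually (eventually_le_nhds (by positivity : (0 : ℝ) < η / 4)),
    eventually_ge_atTop 1] with H h1 h2 hH1
  have hH0 : (0 : ℝ) < H := by exact_mod_cast hH1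
  have h5 : {a | a ∈ D.S H ∧ (∃ i, D.Z a i) ∧ Q a} ⊆
      {a | a ∈ D.S H ∧ ∃ i, i ∉ F₀ ∧ D.Z a i} ∪
      ⋃ i ∈ F₀, {a | a ∈ D.S H ∧ D.Z a i ∧ Q a} := by
    rintro a ⟨ha, ⟨i, hi⟩, hq⟩
    by_cases hF : i ∈ F₀
    · right
      rw [Set.mem_iUnion₂]
      exact ⟨i, hF, ha, hi, hq⟩
    · exact Or.inl ⟨ha, i, hF, hi⟩
  have h6 := Set.ncard_le_ncard h5 ((D.fin H _).union
    (Set.Finite.biUnion (finite_toSet _) fun q _ => D.fin H _))
  have h7 := h6.trans (Set.ncard_union_le _ _)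
  have h8 : Set.ncard (⋃ i ∈ F₀, {a | a ∈ D.S H ∧ D.Z a i ∧ Q a}) ≤
      ∑ i ∈ F₀, Set.ncard {a | a ∈ D.S H ∧ D.Z a i ∧ Q a} :=
    Finset.set_ncard_biUnion_le _ _
  have h9 : (Set.ncard {a | a ∈ D.S H ∧ (∃ i, D.Z a i) ∧ Q a} : ℝ) ≤
      (Set.ncard {a | a ∈ D.S H ∧ ∃ i, i ∉ F₀ ∧ D.Z a i} : ℝ) +
      ∑ i ∈ F₀, (Set.ncard {a | a ∈ D.S H ∧ D.Z a i ∧ Q a} : ℝ) := by
    exact_mod_cast h7.trans (Nat.add_le_add_left h8 _)
  have h10 : (Set.ncard {a | a ∈ D.S H ∧ (∃ i, D.Z a i) ∧ Q a} : ℝ) / (H : ℝ) ^ D.n ≤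
      (Set.ncard {a | a ∈ D.S H ∧ ∃ i, i ∉ F₀ ∧ D.Z a i} : ℝ) / (H : ℝ) ^ D.n +
      ∑ i ∈ F₀, (Set.ncard {a | a ∈ D.S H ∧ D.Z a i ∧ Q a} : ℝ) / (H : ℝ) ^ D.n := by
    rw [← sum_div, ← add_div]
    gcongr
  rw [Real.dist_eq, sub_zero, abs_of_nonneg (by positivity)]
  linarith

/-- **Two events are rare.** -/
theorem two_rare : Tendsto (fun H : ℕ =>
    (Set.ncard {a | a ∈ D.S H ∧ ∃ i j, i ≠ j ∧ D.Z a i ∧ D.Z a j} : ℝ) /
      (H : ℝ) ^ D.n) atTop (𝓝 0) := by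
  classical
  rw [Metric.tendsto_nhds]
  intro η hη
  obtain ⟨F₀, hT⟩ := D.tail (η / 4) (by positivity)
  have hs := D.P2_lim F₀
  filter_upwards [hT, hs.eventually (eventually_le_nhds (by positivity : (0 : ℝ) < η / 4)),
    eventually_ge_atTop 1] with H h1 h2 hH1
  have hH0 : (0 : ℝ) < H := by exact_mod_cast hH1
  have h5 : {a | a ∈ D.S H ∧ ∃ i j, i ≠ j ∧ D.Z a i ∧ D.Z a j} ⊆
      {a | a ∈ D.S H ∧ ∃ i, i ∉ F₀ ∧ D.Z a i} ∪
      ⋃ i ∈ F₀, ⋃ j ∈ F₀.erase i, {a | a ∈ D.S H ∧ D.Z a i ∧ D.Z a j} := by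
    rintro a ⟨ha, i, j, hij, hi, hj⟩
    by_cases hF : i ∈ F₀
    · by_cases hF' : j ∈ F₀
      · right
        rw [Set.mem_iUnion₂]
        refine ⟨i, hF, ?_⟩
        rw [Set.mem_iUnion₂]
        exact ⟨j, mem_erase.2 ⟨Ne.symm hij, hF'⟩, ha, hi, hj⟩
      · exact Or.inl ⟨ha, j, hF', hj⟩
    · exact Or.inl ⟨ha, i, hF, hi⟩
  have h6 := Set.ncard_le_ncard h5 ((D.fin H _).union
    (Set.Finite.biUnion (finite_toSet _) fun q _ =>
      Set.Finite.biUnion (finite_toSet _) fun q _ => D.fin H _))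
  have h7 := h6.trans (Set.ncard_union_le _ _)
  have h8 : Set.ncard (⋃ i ∈ F₀, ⋃ j ∈ F₀.erase i, {a | a ∈ D.S H ∧ D.Z a i ∧ D.Z a j}) ≤
      ∑ i ∈ F₀, ∑ j ∈ F₀.erase i, Set.ncard {a | a ∈ D.S H ∧ D.Z a i ∧ D.Z a j} :=
    (Finset.set_ncard_biUnion_le _ _).trans
      (sum_le_sum fun i _ => Finset.set_ncard_biUnion_le _ _)
  have h9 : (Set.ncard {a | a ∈ D.S H ∧ ∃ i j, i ≠ j ∧ D.Z a i ∧ D.Z a j} : ℝ) ≤
      (Set.ncard {a | a ∈ D.S H ∧ ∃ i, i ∉ F₀ ∧ D.Z a i} : ℝ) + D.P2 F₀ H := by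
    unfold P2
    exact_mod_cast h7.trans (Nat.add_le_add_left h8 _)
  have h10 : (Set.ncard {a | a ∈ D.S H ∧ ∃ i j, i ≠ j ∧ D.Z a i ∧ D.Z a j} : ℝ) /
      (H : ℝ) ^ D.n ≤
      (Set.ncard {a | a ∈ D.S H ∧ ∃ i, i ∉ F₀ ∧ D.Z a i} : ℝ) / (H : ℝ) ^ D.n +
      D.P2 F₀ H / (H : ℝ) ^ D.n := by
    rw [← add_div]
    gcongr
  rw [Real.dist_eq, sub_zero, abs_of_nonneg (by positivity)]
  linarith

/-- ratios, uniformly -/
theorem ratio (hc : 0 < D.wt Set.univ) {ε : ℝ} (hε : 0 < ε) :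
    ∀ᶠ H : ℕ in atTop, ∀ A : Set D.ι,
    |D.N A H / D.N Set.univ H - D.wt A / D.wt Set.univ| ≤ ε := by
  obtain ⟨c, hcd⟩ : ∃ c, c = D.wt Set.univ := ⟨_, rfl⟩
  rw [← hcd] at hc
  obtain ⟨η, hη, hη1, hη2⟩ : ∃ η : ℝ, 0 < η ∧ η ≤ c / 2 ∧ 4 * η ≤ ε * c := by
    refine ⟨min (c / 2) (ε * c / 4), by positivity, min_le_left _ _, ?_⟩
    have := min_le_right (c / 2) (ε * c / 4)
    linarith
  filter_upwards [D.law hη, eventually_ge_atTop 1] with H hH hH1 A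
  have hX : (0 : ℝ) < (H : ℝ) ^ D.n := by
    have : (0 : ℝ) < H := by exact_mod_cast hH1
    positivity
  obtain ⟨a, ha⟩ : ∃ a, a = D.N A H / (H : ℝ) ^ D.n := ⟨_, rfl⟩
  obtain ⟨u, hu⟩ : ∃ u, u = D.N Set.univ H / (H : ℝ) ^ D.n := ⟨_, rfl⟩
  have h1 := hH A
  have h2 := hH Set.univ
  rw [← ha] at h1
  rw [← hu, ← hcd] at h2
  have h3 : D.N A H / D.N Set.univ H = a / u := by
    rw [ha, hu, div_div_div_cancel_right₀ hX.ne']
  rw [h3, ← hcd]
  have h1' := abs_le.1 h1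
  have h2' := abs_le.1 h2
  have hw0 := D.wt_nonneg A
  have hw1 : D.wt A ≤ c := by
    rw [hcd]
    exact D.wt_mono (Set.subset_univ A)
  have hu0 : c / 2 ≤ u := by linarith [h2'.1]
  have hu1 : 0 < u := by linarith
  have e1 : a / u - D.wt A / c = ((a - D.wt A) * c + D.wt A * (c - u)) / (u * c) := by
    field_simp
    ring
  rw [e1, abs_div, abs_of_pos (by positivity : 0 < u * c), div_le_iff₀ (by positivity)]
  calc |(a - D.wt A) * c + D.wt A * (c - u)| ≤ |(a - D.wt A) * c| + |D.wt A * (c - u)| :=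
        abs_add_le _ _
    _ = |a - D.wt A| * c + D.wt A * |c - u| := by
        rw [abs_mul, abs_mul, abs_of_pos hc, abs_of_nonneg hw0]
    _ ≤ η * c + c * η := by
        have h4 : |c - u| ≤ η := by rw [abs_sub_comm]; exact h2
        gcongr
    _ ≤ ε * (u * c) := by nlinarith

/-- quotients of a rare count -/
lemma div_zero {f : ℕ → ℝ} (hc : 0 < D.wt Set.univ)
    (hf : Tendsto (fun H : ℕ => f H / (H : ℝ) ^ D.n) atTop (𝓝 0)) :
    Tendsto (fun H : ℕ => f H / D.N Set.univ H) atTop (𝓝 0) := by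
  have h1 := hf.div (D.lim_set Set.univ) hc.ne'
  rw [zero_div] at h1
  refine h1.congr' ?_
  filter_upwards [eventually_ge_atTop 1] with H hH1
  have hX : (0 : ℝ) < (H : ℝ) ^ D.n := by
    have : (0 : ℝ) < H := by exact_mod_cast hH1
    positivity
  simp only [Pi.div_apply]
  rw [div_div_div_cancel_right₀ hX.ne']

/-- **Bound functions**, for a decreasing sequence of sets with empty intersection. -/
theorem bound_iff (U : ℕ → Set D.ι) (hU : Antitone U) (hne : ∀ T, (U T).Nonempty)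
    (hi : ∀ i, ∃ T, i ∉ U T) (B : ℕ → ℕ) :
    Tendsto (fun H : ℕ => D.N (U (B H)) H / D.N Set.univ H) atTop (𝓝 0) ↔
      Tendsto B atTop atTop := by
  classical
  have hc : 0 < D.wt Set.univ := by
    obtain ⟨i, -⟩ := hne 0
    exact D.wt_pos (Set.mem_univ i)
  constructor
  · intro h
    rw [tendsto_atTop]
    intro T
    obtain ⟨i, hiT⟩ := hne T
    have h1 : 0 < D.wt (U T) := D.wt_pos hiT
    obtain ⟨q, hq⟩ : ∃ q, q = D.wt (U T) / D.wt Set.univ := ⟨_, rfl⟩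
    have hq0 : 0 < q := by rw [hq]; positivity
    have h2 : ∀ᶠ H : ℕ in atTop, D.N (U (B H)) H / D.N Set.univ H < q / 2 := by
      have h3 := h.eventually (gt_mem_nhds (by positivity : (0 : ℝ) < q / 2))
      exact h3
    filter_upwards [h2, D.ratio hc (by positivity : 0 < q / 2)] with H h3 h4
    by_contra h5
    rw [not_le] at h5
    have h6 := (abs_le.1 (h4 (U T))).1
    rw [← hq] at h6
    have h7 : D.N (U T) H ≤ D.N (U (B H)) H := D.N_mono (hU h5.le) H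
    have h8 : D.N (U T) H / D.N Set.univ H ≤ D.N (U (B H)) H / D.N Set.univ H := by
      have := D.N_nonneg Set.univ H
      gcongr
    linarith
  · intro h
    rw [Metric.tendsto_nhds]
    intro η hη
    obtain ⟨F₀, hF⟩ := D.tail (D.wt Set.univ * (η / 4)) (by positivity)
    choose t ht using hi
    obtain ⟨T, hT⟩ : ∃ T, T = F₀.sup t := ⟨_, rfl⟩
    have hsub : U T ⊆ {i | i ∉ F₀} := by
      intro i hiU hiF
      apply ht i
      apply hU _ hiU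
      rw [hT]
      exact Finset.le_sup hiF
    filter_upwards [h.eventually (eventually_ge_atTop T), D.ratio hc (by positivity : 0 < η / 4)]
      with H h1 h2
    have h3 : D.N (U (B H)) H ≤ D.N (U T) H := D.N_mono (hU h1) H
    have h4 : D.N (U (B H)) H / D.N Set.univ H ≤ D.N (U T) H / D.N Set.univ H := by
      have := D.N_nonneg Set.univ H
      gcongr
    have h5 := (abs_le.1 (h2 (U T))).2
    have h6 : D.wt (U T) / D.wt Set.univ ≤ η / 4 := by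
      rw [div_le_iff₀ hc]
      have h8 := D.wt_mono hsub
      have h9 := D.wt_tail hF
      linarith
    have h7 : 0 ≤ D.N (U (B H)) H / D.N Set.univ H :=
      div_nonneg (D.N_nonneg _ _) (D.N_nonneg _ _)
    rw [Real.dist_eq, sub_zero, abs_of_nonneg h7]
    linarith

end LawData

end Pool.Agent.Run7.h953.KP
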