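import Pool.Agent.Run7.h953.KP.Sing
import Pool.Agent.Run7.h953.KP.Bd
import Pool.Agent.Run7.h953.KP.Law
import Pool.Agent.Run7.h953.KP.Small

set_option autoImplicit false
set_option linter.unusedSectionVars false

/-! The limit law of the sets of integer points of plane curves. -/

open Filter Topology Finset

namespace Pool.Agent.Run7.h953.KP

open Pool.Agent.R414.DN Pool.Agent.N656.LL

section

variable {e k : ℕ} {φ : MvPolynomial (Fin 2) ℤ}

lemma two_points (he : k ≤ e) {T : Finset (ℤ × ℤ)} (hT : T.card = k + 1) :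
    Tendsto (fun H : ℕ => (Set.ncard {a : Cf e | a ∈ ibox ↥(I e) H ∧
      ∀ P ∈ T, MvPolynomial.eval ![P.1, P.2] (φ + poly a) = 0} : ℝ) / (H : ℝ) ^ (MM e - k)) atTop
      (𝓝 0) := by
  classical
  have h1 : Tendsto (fun H : ℕ => CP e * 2 ^ (e + 1) / (H : ℝ)) atTop (𝓝 0) :=
    tendsto_const_nhds.div_atTop tendsto_natCast_atTop_atTop
  refine squeeze_zero' (Eventually.of_forall fun H => by positivity) ?_ h1
  filter_upwards [eventually_ge_atTop 1] with H hH
  have hH0 : (0 : ℝ) < H := by exact_mod_cast hH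
  have hH' : (1 : ℝ) ≤ H := by exact_mod_cast hH
  obtain ⟨Z, hZ⟩ : ∃ Z : Finset (Cf e), Z = (ibox ↥(I e) H).filter fun a =>
      ∀ P ∈ T, MvPolynomial.eval ![P.1, P.2] (φ + poly a) = 0 := ⟨_, rfl⟩
  have hc : Set.ncard {a : Cf e | a ∈ ibox ↥(I e) H ∧
      ∀ P ∈ T, MvPolynomial.eval ![P.1, P.2] (φ + poly a) = 0} = Z.card := by
    rw [hZ, ← Set.ncard_coe_finset]
    congr 1
    ext a
    rw [mem_coe, mem_filter]
    rfl
  rw [hc]
  have h2 := count_points hH T (by omega) (fun P => -MvPolynomial.eval ![P.1, P.2] φ) Z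
    (by rw [hZ]; exact filter_subset _ _) (by
      intro a ha P hP
      rw [hZ, mem_filter] at ha
      have h3 := ha.2 P hP
      rw [map_add, eval_poly] at h3
      linarith)
  have hM : e + 1 ≤ MM e := by
    rw [MM_eq]
    have h2 : (e + 1) * 2 ≤ (e + 1) * (e + 2) := Nat.mul_le_mul_left _ (by omega)
    omega
  have hp := pt_one T
  have hC := CP_pos e
  have h3 : (H : ℝ) / pt T + 1 ≤ 2 * H := by
    have : (H : ℝ) / pt T ≤ H := div_le_self hH0.le hp
    linarith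
  rw [div_le_div_iff₀ (by positivity) hH0]
  have e1 : (H : ℝ) ^ (MM e - k) = (H : ℝ) ^ (MM e - (e + 1)) * (H : ℝ) ^ (e + 1 - (k + 1)) * H := by
    rw [← pow_add, ← pow_succ]
    congr 1
    omega
  rw [e1]
  have h4 : (Z.card : ℝ) ≤ CP e * (H : ℝ) ^ (MM e - (e + 1)) * (2 ^ (e + 1) *
      (H : ℝ) ^ (e + 1 - (k + 1))) := by
    refine h2.trans ?_
    rw [hT]
    have h5 : ((H : ℝ) / pt T + 1) ^ (e + 1 - (k + 1)) ≤ 2 ^ (e + 1) *
        (H : ℝ) ^ (e + 1 - (k + 1)) := by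
      calc ((H : ℝ) / pt T + 1) ^ (e + 1 - (k + 1)) ≤ (2 * H) ^ (e + 1 - (k + 1)) := by gcongr
        _ = 2 ^ (e + 1 - (k + 1)) * (H : ℝ) ^ (e + 1 - (k + 1)) := by rw [mul_pow]
        _ ≤ _ := by
          have : (2 : ℝ) ^ (e + 1 - (k + 1)) ≤ 2 ^ (e + 1) :=
            pow_le_pow_right₀ (by norm_num) (Nat.sub_le _ _)
          gcongr
    gcongr
  calc (Z.card : ℝ) * H ≤ CP e * (H : ℝ) ^ (MM e - (e + 1)) * (2 ^ (e + 1) *
      (H : ℝ) ^ (e + 1 - (k + 1))) * H := by gcongr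
    _ = _ := by ring

/-- **The data of the limit law.** -/
noncomputable def dat (he : 3 * k + 17 ≤ e) (hφ : φ.IsHomogeneous (e + 1))
    (hirr : Irreducible (MvPolynomial.map (Int.castRingHom ℚ) φ)) : LawData where
  ι := {S : Finset (ℤ × ℤ) // S.card = k}
  α := Cf e
  S H := ibox ↥(I e) H
  Z a i := ∀ P ∈ i.1, MvPolynomial.eval ![P.1, P.2] (φ + poly a) = 0
  v i := VS e i.1
  n := MM e - k
  hv i := VS_pos i.1
  lim i := by
    have h1 := lim_points hφ i.1 (by rw [i.2]; omega)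
    rw [i.2] at h1
    exact h1
  two i j hij := by
    classical
    have h1 : k + 1 ≤ (i.1 ∪ j.1).card := by
      by_contra h
      apply hij
      apply Subtype.ext
      have h2 : i.1 = i.1 ∪ j.1 := eq_of_subset_of_card_le subset_union_left (by
        rw [i.2]
        omega)
      have h3 : j.1 ⊆ i.1 := by
        rw [h2]
        exact subset_union_right
      exact (eq_of_subset_of_card_le h3 (by rw [i.2, j.2])).symm
    obtain ⟨T, hT1, hT2⟩ := exists_subset_card_eq h1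
    refine squeeze_zero (fun H => by positivity) (fun H => ?_)
      (two_points (e := e) (φ := φ) (by omega : k ≤ e) hT2)
    apply div_le_div_of_nonneg_right _ (by positivity)
    have hfin : {a : Cf e | a ∈ ibox ↥(I e) H ∧
        ∀ P ∈ T, MvPolynomial.eval ![P.1, P.2] (φ + poly a) = 0}.Finite :=
      ((ibox ↥(I e) H).finite_toSet).subset fun a h => h.1
    have hsub : {a : Cf e | a ∈ ibox ↥(I e) H ∧
        (∀ P ∈ i.1, MvPolynomial.eval ![P.1, P.2] (φ + poly a) = 0) ∧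
        ∀ P ∈ j.1, MvPolynomial.eval ![P.1, P.2] (φ + poly a) = 0} ⊆
        {a : Cf e | a ∈ ibox ↥(I e) H ∧
        ∀ P ∈ T, MvPolynomial.eval ![P.1, P.2] (φ + poly a) = 0} := by
      rintro a ⟨h3, h4, h5⟩
      refine ⟨h3, fun P hP => ?_⟩
      rcases mem_union.1 (hT1 hP) with h6 | h6
      · exact h4 P h6
      · exact h5 P h6
    exact_mod_cast Set.ncard_le_ncard hsub hfin
  tail ε hε := by
    classical
    obtain ⟨U, hU⟩ := tail_all he hφ hirr ε hε
    refine ⟨U.subtype fun S => S.card = k, ?_⟩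
    filter_upwards [hU] with H hH
    refine le_trans ?_ hH
    apply div_le_div_of_nonneg_right _ (by positivity)
    have hfin : {a | a ∈ ibox ↥(I e) H ∧
        ∃ S : Finset (ℤ × ℤ), S.card = k ∧ S ∉ U ∧
          ∀ P ∈ S, MvPolynomial.eval ![P.1, P.2] (φ + poly a) = 0}.Finite :=
      ((ibox ↥(I e) H).finite_toSet).subset fun a h => h.1
    have hsub : {a : Cf e | a ∈ ibox ↥(I e) H ∧ ∃ i : {S : Finset (ℤ × ℤ) // S.card = k},
        i ∉ (U.subtype (fun S : Finset (ℤ × ℤ) => S.card = k) :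
          Finset {S : Finset (ℤ × ℤ) // S.card = k}) ∧
        ∀ P ∈ i.1, MvPolynomial.eval ![P.1, P.2] (φ + poly a) = 0} ⊆
        {a | a ∈ ibox ↥(I e) H ∧
        ∃ S : Finset (ℤ × ℤ), S.card = k ∧ S ∉ U ∧
          ∀ P ∈ S, MvPolynomial.eval ![P.1, P.2] (φ + poly a) = 0} := by
      rintro a ⟨h3, i, h4, h5⟩
      refine ⟨h3, i.1, i.2, ?_, h5⟩
      intro h6
      apply h4
      rw [mem_subtype]
      exact h6
    exact_mod_cast Set.ncard_le_ncard hsub hfin

variable (he : 3 * k + 17 ≤ e) (hφ : φ.IsHomogeneous (e + 1))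
    (hirr : Irreducible (MvPolynomial.map (Int.castRingHom ℚ) φ))

/-- the sets of the type -/
def inT (k : ℕ) (A : Set (Finset (ℤ × ℤ))) : Set {S : Finset (ℤ × ℤ) // S.card = k} :=
  {i | i.1 ∈ A}

lemma dat_N {A : Set (Finset (ℤ × ℤ))} (hA : ∀ S ∈ A, S.card = k) (H : ℕ) :
    (dat he hφ hirr).N (inT k A) H = (Set.ncard {a : Cf e | a ∈ ibox ↥(I e) H ∧ ∃ S ∈ A,
      ∀ P ∈ S, MvPolynomial.eval ![P.1, P.2] (φ + poly a) = 0} : ℝ) := by
  unfold LawData.N
  congr 2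
  ext a
  constructor
  · rintro ⟨h1, i, h2, h3⟩
    exact ⟨h1, i.1, h2, h3⟩
  · rintro ⟨h1, S, h2, h3⟩
    exact ⟨h1, ⟨S, hA S h2⟩, h2, h3⟩

lemma dat_wt {A : Set (Finset (ℤ × ℤ))} (hA : ∀ S ∈ A, S.card = k) :
    (dat he hφ hirr).wt (inT k A) = ∑' S : A, VS e S.1 := by
  have h1 : (dat he hφ hirr).wt (inT k A) =
      ∑' i, (inT k A).indicator (fun i : {S : Finset (ℤ × ℤ) // S.card = k} => VS e i.1) i := rfl
  rw [h1, ← _root_.tsum_subtype]
  exact ((Equiv.tsum_eq (⟨fun S : A => (⟨⟨S.1, hA S.1 S.2⟩, S.2⟩ : ↥(inT k A)),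
    fun i => ⟨i.1.1, i.2⟩, fun S => rfl, fun i => rfl⟩ : A ≃ ↥(inT k A))
    (fun i => VS e i.1.1))).symm

end

end Pool.Agent.Run7.h953.KP
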