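import Mathlib

set_option autoImplicit false
set_option linter.unusedSectionVars false

/-! Polynomials with an irreducible leading form are irreducible. -/

open Finset

namespace Pool.Agent.Run7.h953.KP

open MvPolynomial

lemma deg_lt {R : Type} [CommRing R] {G : MvPolynomial (Fin 2) R} {a : ℕ}
    (hG : G.totalDegree ≤ a) {m : Fin 2 →₀ ℕ} (hm : a < m.degree) : G.coeff m = 0 := by
  apply coeff_eq_zero_of_totalDegree_lt
  refine lt_of_le_of_lt hG ?_
  rw [Finsupp.degree] at hm
  exact hm

lemma top_mul {R : Type} [CommRing R] {G H : MvPolynomial (Fin 2) R} {a b : ℕ}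
    (hG : G.totalDegree ≤ a) (hH : H.totalDegree ≤ b) :
    homogeneousComponent (a + b) (G * H) =
      homogeneousComponent a G * homogeneousComponent b H := by
  classical
  ext m
  by_cases hm : m.degree = a + b
  · rw [coeff_homogeneousComponent, if_pos hm, coeff_mul, coeff_mul]
    refine sum_congr rfl fun p hp => ?_
    rw [HasAntidiagonal.mem_antidiagonal] at hp
    have h1 : p.1.degree + p.2.degree = a + b := by
      rw [← hm, ← hp, map_add]
    rw [coeff_homogeneousComponent, coeff_homogeneousComponent]
    rcases lt_trichotomy p.1.degree a with h | h | h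
    · rw [if_neg h.ne, zero_mul, deg_lt hH (by omega : b < p.2.degree), mul_zero]
    · rw [if_pos h, if_pos (by omega)]
    · rw [if_neg h.ne', zero_mul, deg_lt hG h, zero_mul]
  · rw [coeff_homogeneousComponent, if_neg hm]
    have h1 : (homogeneousComponent a G * homogeneousComponent b H).IsHomogeneous (a + b) :=
      (homogeneousComponent_isHomogeneous a G).mul (homogeneousComponent_isHomogeneous b H)
    by_contra h2
    apply hm
    have h3 := h1 (Ne.symm h2)
    rw [Finsupp.degree_eq_weight_one]
    exact h3

lemma top_ne {R : Type} [CommRing R] {G : MvPolynomial (Fin 2) R} (hG : G ≠ 0) :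
    homogeneousComponent G.totalDegree G ≠ 0 := by
  classical
  intro h
  obtain ⟨m, hm, hm2⟩ : ∃ m ∈ G.support, m.degree = G.totalDegree := by
    obtain ⟨m, hm, hm2⟩ := Finset.exists_mem_eq_sup G.support (support_nonempty.2 hG)
      (fun m => m.sum fun _ e => e)
    exact ⟨m, hm, hm2.symm⟩
  have h1 := congrArg (fun F => F.coeff m) h
  simp only [coeff_homogeneousComponent, if_pos hm2, coeff_zero] at h1
  exact mem_support_iff.1 hm h1

/-- a factor with a constant leading form is a unit -/
lemma unit_of_top {K : Type} [Field K] {G : MvPolynomial (Fin 2) K}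
    (hG : G ≠ 0) (h : IsUnit (homogeneousComponent G.totalDegree G)) : IsUnit G := by
  have h1 := (isUnit_iff_totalDegree_of_isReduced).1 h
  have h2 : (homogeneousComponent G.totalDegree G).totalDegree = G.totalDegree :=
    (homogeneousComponent_isHomogeneous _ G).totalDegree (top_ne hG)
  rw [h1.2] at h2
  rw [isUnit_iff_totalDegree_of_isReduced]
  refine ⟨?_, h2.symm⟩
  rw [← h2, homogeneousComponent_zero] at h
  rw [isUnit_iff_totalDegree_of_isReduced] at h
  have := h.1
  rwa [coeff_C, if_pos rfl] at this

/-- **A polynomial with an irreducible leading form is irreducible.** -/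
theorem irr_of_top {K : Type} [Field K] {φ R : MvPolynomial (Fin 2) K} {n : ℕ}
    (hφ : φ.IsHomogeneous n) (hirr : Irreducible φ) (hR : R.totalDegree < n) :
    Irreducible (φ + R) := by
  have hφ0 : φ ≠ 0 := hirr.ne_zero
  have hdφ : φ.totalDegree = n := hφ.totalDegree hφ0
  have hF : (φ + R).totalDegree = n := by
    rw [totalDegree_add_eq_left_of_totalDegree_lt (by rw [hdφ]; exact hR), hdφ]
  have hF0 : φ + R ≠ 0 := by
    intro h
    rw [h, totalDegree_zero] at hF
    omega
  have hcF : homogeneousComponent n (φ + R) = φ := by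
    rw [map_add, homogeneousComponent_eq_self hφ, homogeneousComponent_eq_zero n R hR, add_zero]
  rw [irreducible_iff]
  constructor
  · intro h
    have h1 := ((isUnit_iff_totalDegree_of_isReduced).1 h).2
    rw [hF] at h1
    omega
  · intro G H hGH
    have hG0 : G ≠ 0 := by
      rintro rfl
      rw [zero_mul] at hGH
      exact hF0 hGH
    have hH0 : H ≠ 0 := by
      rintro rfl
      rw [mul_zero] at hGH
      exact hF0 hGH
    have h1 := totalDegree_mul_of_isDomain hG0 hH0
    rw [← hGH, hF] at h1
    have h2 := top_mul (le_refl G.totalDegree) (le_refl H.totalDegree)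
    rw [← h1, ← hGH, hcF] at h2
    rcases hirr.isUnit_or_isUnit h2 with h3 | h3
    · exact Or.inl (unit_of_top hG0 h3)
    · exact Or.inr (unit_of_top hH0 h3)

end Pool.Agent.Run7.h953.KP
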