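import Pool.Agent.Run7.h953.KP.Ev
import Pool.Agent.Run7.h953.KP.Top
import Pool.Agent.N656.PC.Irr

set_option autoImplicit false
set_option linter.unusedSectionVars false

/-! Curves through given points with a vanishing derivative. -/

open Filter Topology Finset

namespace Pool.Agent.Run7.h953.KP

open Pool.Agent.R414.DN Pool.Agent.N656.LL

variable {e : ℕ}

lemma poly_cfl (c : ℤ) (g : Polynomial ℤ) (hg : g.natDegree < e + 1) :
    poly (cfl e c g.coeff) = Polynomial.aeval
      (MvPolynomial.X 1 + MvPolynomial.C c * MvPolynomial.X 0 : MvPolynomial (Fin 2) ℤ) g := by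
  apply MvPolynomial.funext
  intro v
  have hv : v = ![v 0, v 1] := by
    funext i
    fin_cases i <;> rfl
  rw [hv, eval_poly, Fv_cfl, ← Polynomial.eval_eq_sum_range' hg, Polynomial.aeval_def,
    Polynomial.hom_eval₂]
  have h1 : (MvPolynomial.eval ![v 0, v 1]).comp (algebraMap ℤ (MvPolynomial (Fin 2) ℤ)) =
      RingHom.id ℤ := Subsingleton.elim _ _
  rw [h1, Polynomial.eval₂_id]
  simp

lemma dx_cfl (c : ℤ) (g : Polynomial ℤ) (hg : g.natDegree < e + 1) (x y : ℤ) :
    MvPolynomial.eval ![x, y] (MvPolynomial.pderiv 0 (poly (cfl e c g.coeff))) =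
      g.derivative.eval (y + c * x) * c := by
  rw [poly_cfl c g hg, Derivation.map_aeval, smul_eq_mul, map_mul, Polynomial.aeval_def,
    Polynomial.hom_eval₂]
  have h1 : (MvPolynomial.eval ![x, y]).comp (algebraMap ℤ (MvPolynomial (Fin 2) ℤ)) =
      RingHom.id ℤ := Subsingleton.elim _ _
  rw [h1, Polynomial.eval₂_id]
  simp

/-- a polynomial with given zeros and nonzero derivative -/
lemma exists_der (S : Finset (ℤ × ℤ)) (hS : S.card ≤ e) {P : ℤ × ℤ} (hP : P ∈ S) :
    ∃ h : Cf e, (∀ Q ∈ S, Fv (co h) e Q.1 Q.2 = 0) ∧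
      MvPolynomial.eval ![P.1, P.2] (MvPolynomial.pderiv 0 (poly h)) ≠ 0 := by
  classical
  obtain ⟨c, -, hc, -⟩ := exists_dir (insert (P.1 + 1, P.2) S) (le_refl _)
  have hc0 : (c : ℤ) ≠ 0 := by
    intro h0
    have h1 := hc (mem_coe.2 (mem_insert_self (P.1 + 1, P.2) S))
      (mem_coe.2 (mem_insert_of_mem hP)) (by simp only [h0, zero_mul, add_zero])
    have h2 := congrArg Prod.fst h1
    simp only at h2
    omega
  obtain ⟨g, hg⟩ : ∃ g : Polynomial ℤ, g = ∏ Q ∈ S,
    (Polynomial.X - Polynomial.C (Q.2 + (c : ℤ) * Q.1)) := ⟨_, rfl⟩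
  have hdeg : g.natDegree < e + 1 := by
    rw [hg, Polynomial.natDegree_prod_of_monic _ _ fun Q _ => Polynomial.monic_X_sub_C _]
    simp only [Polynomial.natDegree_X_sub_C, sum_const, smul_eq_mul, mul_one]
    omega
  refine ⟨cfl e c g.coeff, ?_, ?_⟩
  · intro Q hQ
    rw [Fv_cfl, ← Polynomial.eval_eq_sum_range' hdeg, hg, Polynomial.eval_prod]
    apply prod_eq_zero hQ
    rw [Polynomial.eval_sub, Polynomial.eval_X, Polynomial.eval_C, sub_self]
  · rw [dx_cfl _ _ hdeg]
    refine mul_ne_zero ?_ hc0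
    rw [hg, ← mul_prod_erase S _ hP, Polynomial.derivative_mul, Polynomial.eval_add,
      Polynomial.eval_mul, Polynomial.eval_mul, Polynomial.eval_sub, Polynomial.eval_X,
      Polynomial.eval_C, sub_self, zero_mul, add_zero, Polynomial.derivative_sub,
      Polynomial.derivative_X, Polynomial.derivative_C, sub_zero, Polynomial.eval_one, one_mul,
      Polynomial.eval_prod, prod_ne_zero_iff]
    intro Q hQ h0
    rw [Polynomial.eval_sub, Polynomial.eval_X, Polynomial.eval_C, sub_eq_zero] at h0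
    rw [mem_erase] at hQ
    exact hQ.1 (hc (mem_coe.2 (mem_insert_of_mem hP))
      (mem_coe.2 (mem_insert_of_mem hQ.2)) h0).symm

lemma poly_add_mul (a h : Cf e) (j : ℤ) :
    poly (fun p => a p + j * h p) = poly a + MvPolynomial.C j * poly h := by
  unfold poly
  rw [mul_sum, ← sum_add_distrib]
  refine sum_congr rfl fun p _ => ?_
  rw [map_add, MvPolynomial.C_mul_monomial]

/-- **Curves through given points with a vanishing derivative are rare.** -/
theorem sing_rare {φ : MvPolynomial (Fin 2) ℤ} (hφ : φ.IsHomogeneous (e + 1))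
    (S : Finset (ℤ × ℤ)) (hS : 2 * S.card ≤ e + 1) (hSe : S.card ≤ e) {P : ℤ × ℤ} (hP : P ∈ S) :
    Tendsto (fun H : ℕ => (Set.ncard {a | a ∈ ibox ↥(I e) H ∧
      (∀ Q ∈ S, MvPolynomial.eval ![Q.1, Q.2] (φ + poly a) = 0) ∧
      MvPolynomial.eval ![P.1, P.2] (MvPolynomial.pderiv 0 (φ + poly a)) = 0} : ℝ) /
      (H : ℝ) ^ (MM e - S.card)) atTop (𝓝 0) := by
  classical
  obtain ⟨h, hh1, hh2⟩ := exists_der S hSe hP
  obtain ⟨b, hb⟩ : ∃ b : ℕ, ∀ p, |h p| ≤ (b : ℤ) := by
    refine ⟨∑ p, (h p).natAbs, fun p => ?_⟩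
    rw [Int.abs_eq_natAbs]
    exact_mod_cast single_le_sum (f := fun p => (h p).natAbs) (fun _ _ => Nat.zero_le _)
      (mem_univ p)
  have hlim := lim_points hφ S hS
  have hmap : Tendsto (fun H : ℕ => (1 + b) * H) atTop atTop := by
    apply tendsto_atTop_mono (fun H => ?_) tendsto_id
    simp only [id]
    nlinarith [Nat.zero_le (b * H)]
  have h1 := hlim.comp hmap
  have h2 : Tendsto (fun H : ℕ => ((1 + b : ℕ) : ℝ) ^ (MM e - S.card) / ((H : ℝ) + 1)) atTop
      (𝓝 0) := by
    apply Tendsto.div_atTop tendsto_const_nhds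
    exact tendsto_atTop_add_const_right _ _ tendsto_natCast_atTop_atTop
  have h3 := h2.mul h1
  rw [zero_mul] at h3
  refine squeeze_zero' (Eventually.of_forall fun H => by positivity) ?_ h3
  filter_upwards [eventually_ge_atTop 1] with H hH
  obtain ⟨T, hT⟩ : ∃ T : Finset (Cf e), T = (ibox ↥(I e) H).filter fun a =>
    (∀ Q ∈ S, MvPolynomial.eval ![Q.1, Q.2] (φ + poly a) = 0) ∧
      MvPolynomial.eval ![P.1, P.2] (MvPolynomial.pderiv 0 (φ + poly a)) = 0 := ⟨_, rfl⟩
  obtain ⟨Z, hZ⟩ : ∃ Z : Finset (Cf e), Z = (ibox ↥(I e) ((1 + b) * H)).filter fun a =>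
    ∀ Q ∈ S, MvPolynomial.eval ![Q.1, Q.2] (φ + poly a) = 0 := ⟨_, rfl⟩
  have hTc : Set.ncard {a | a ∈ ibox ↥(I e) H ∧
      (∀ Q ∈ S, MvPolynomial.eval ![Q.1, Q.2] (φ + poly a) = 0) ∧
      MvPolynomial.eval ![P.1, P.2] (MvPolynomial.pderiv 0 (φ + poly a)) = 0} = T.card := by
    rw [hT, ← Set.ncard_coe_finset]
    congr 1
    ext a
    rw [mem_coe, mem_filter]
    rfl
  have hZc : Set.ncard {a | a ∈ ibox ↥(I e) ((1 + b) * H) ∧
      ∀ Q ∈ S, MvPolynomial.eval ![Q.1, Q.2] (φ + poly a) = 0} = Z.card := by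
    rw [hZ, ← Set.ncard_coe_finset]
    congr 1
    ext a
    rw [mem_coe, mem_filter]
    rfl
  simp only [Function.comp_apply]
  rw [hTc, hZc]
  have key : T.card * (H + 1) ≤ Z.card := by
    rw [← card_range (H + 1), ← card_product]
    apply card_le_card_of_injOn (fun q : Cf e × ℕ => fun p => q.1 p + (q.2 : ℤ) * h p)
    · rintro ⟨a, j⟩ hq
      rw [mem_coe, mem_product, mem_range, hT, mem_filter] at hq
      obtain ⟨⟨ha1, ha2, ha3⟩, hj⟩ := hq
      rw [mem_coe, hZ, mem_filter]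
      constructor
      · rw [mem_ibox]
        intro p
        have e1 := mem_ibox.1 ha1 p
        have e2 := hb p
        simp only at hj ⊢
        refine (abs_add_le _ _).trans ?_
        rw [abs_mul, Nat.abs_cast]
        have e3 : (j : ℤ) ≤ H := by exact_mod_cast (by omega : j ≤ H)
        have e4 : (j : ℤ) * |h p| ≤ H * b := by
          apply mul_le_mul e3 e2 (abs_nonneg _) (by positivity)
        push_cast
        nlinarith
      · intro Q hQ
        have e1 := ha2 Q hQ
        rw [poly_add_mul, ← add_assoc, map_add, e1, map_mul, eval_poly, hh1 Q hQ, mul_zero,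
          add_zero]
    · rintro ⟨a, j⟩ hq ⟨a', j'⟩ hq' heq
      rw [mem_coe, mem_product, mem_range, hT, mem_filter] at hq hq'
      obtain ⟨⟨ha1, ha2, ha3⟩, hj⟩ := hq
      obtain ⟨⟨ha1', ha2', ha3'⟩, hj'⟩ := hq'
      simp only at heq
      have e1 := congrArg (fun c : Cf e => MvPolynomial.eval ![P.1, P.2]
        (MvPolynomial.pderiv 0 (φ + poly c))) heq
      have e2 : ∀ (a : Cf e) (j : ℤ), MvPolynomial.eval ![P.1, P.2]
          (MvPolynomial.pderiv 0 (φ + poly (fun p => a p + j * h p))) =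
          MvPolynomial.eval ![P.1, P.2] (MvPolynomial.pderiv 0 (φ + poly a)) +
          j * MvPolynomial.eval ![P.1, P.2] (MvPolynomial.pderiv 0 (poly h)) := by
        intro a j
        rw [poly_add_mul, ← add_assoc, map_add, map_add, MvPolynomial.pderiv_C_mul, map_mul,
          MvPolynomial.eval_C]
      simp only at ha3 ha3'
      rw [e2, e2, ha3, ha3', zero_add, zero_add] at e1
      have e3 := mul_right_cancel₀ hh2 e1
      have e4 : j = j' := by exact_mod_cast e3
      subst e4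
      rw [Prod.mk.injEq]
      refine ⟨?_, rfl⟩
      funext p
      have := congrFun heq p
      linarith
  have hH0 : (0 : ℝ) < H := by exact_mod_cast hH
  have hkey : (T.card : ℝ) * ((H : ℝ) + 1) ≤ Z.card := by exact_mod_cast key
  push_cast
  rw [mul_pow]
  calc (T.card : ℝ) / (H : ℝ) ^ (MM e - S.card)
      ≤ (Z.card / ((H : ℝ) + 1)) / (H : ℝ) ^ (MM e - S.card) := by
        gcongr
        rw [le_div_iff₀ (by positivity)]
        exact hkey
    _ = _ := by
        field_simp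

/-- **Almost all curves through given points are absolutely irreducible.** -/
theorem irr_rare_points {φ : MvPolynomial (Fin 2) ℤ} (hφ : φ.IsHomogeneous (e + 1))
    (hirr : Irreducible (MvPolynomial.map (Int.castRingHom ℚ) φ))
    (S : Finset (ℤ × ℤ)) (hS : 2 * S.card ≤ e + 1) (hSe : S.card ≤ e) (hne : S.Nonempty) :
    Tendsto (fun H : ℕ => (Set.ncard {a | a ∈ ibox ↥(I e) H ∧
      (∀ Q ∈ S, MvPolynomial.eval ![Q.1, Q.2] (φ + poly a) = 0) ∧
      ¬ Irreducible (MvPolynomial.map (Int.castRingHom (AlgebraicClosure ℚ)) (φ + poly a))} : ℝ) /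
      (H : ℝ) ^ (MM e - S.card)) atTop (𝓝 0) := by
  classical
  obtain ⟨P, hP⟩ := hne
  refine squeeze_zero (fun H => by positivity) (fun H => ?_) (sing_rare hφ S hS hSe hP)
  apply div_le_div_of_nonneg_right _ (by positivity)
  have hfin : {a | a ∈ ibox ↥(I e) H ∧
      (∀ Q ∈ S, MvPolynomial.eval ![Q.1, Q.2] (φ + poly a) = 0) ∧
      MvPolynomial.eval ![P.1, P.2] (MvPolynomial.pderiv 0 (φ + poly a)) = 0}.Finite :=
    ((ibox ↥(I e) H).finite_toSet).subset fun a h => h.1
  have hsub : {a | a ∈ ibox ↥(I e) H ∧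
      (∀ Q ∈ S, MvPolynomial.eval ![Q.1, Q.2] (φ + poly a) = 0) ∧
      ¬ Irreducible (MvPolynomial.map (Int.castRingHom (AlgebraicClosure ℚ)) (φ + poly a))} ⊆
      {a | a ∈ ibox ↥(I e) H ∧
      (∀ Q ∈ S, MvPolynomial.eval ![Q.1, Q.2] (φ + poly a) = 0) ∧
      MvPolynomial.eval ![P.1, P.2] (MvPolynomial.pderiv 0 (φ + poly a)) = 0} := by
    rintro a ⟨h1, h2, h3⟩
    refine ⟨h1, h2, ?_⟩
    by_contra h4
    apply h3
    refine Pool.Agent.N656.PC.abs_irr_at ?_ (P := ![P.1, P.2]) (h2 P hP) h4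
    rw [map_add]
    refine irr_of_top (n := e + 1) ?_ hirr ?_
    · exact hφ.map _
    · refine lt_of_le_of_lt (Finset.sup_mono (MvPolynomial.support_map_subset _ _)) ?_
      have := totalDegree_poly_le a
      unfold MvPolynomial.totalDegree at this
      omega
  exact_mod_cast Set.ncard_le_ncard hsub hfin

end Pool.Agent.Run7.h953.KP
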