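import Pool.Agent.Run7.h953.KP.Uni
import Pool.Agent.R414.DN.Gen
import Pool.Agent.N656.LL.Asm

set_option autoImplicit false
set_option linter.unusedSectionVars false

/-! Plane curves through several given points. -/

open Finset

namespace Pool.Agent.Run7.h953.KP

open Pool.Agent.R414.DN Pool.Agent.N656.LL

variable {e : ℕ}

lemma Fv_sumI (a : Cf e) (x y : ℤ) :
    Fv (co a) e x y = ∑ p : ↥(I e), a p * (x ^ p.1.2 * y ^ (p.1.1 - p.1.2)) := by
  unfold Fv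
  have h1 : ∑ p : ↥(I e), a p * (x ^ p.1.2 * y ^ (p.1.1 - p.1.2)) =
      ∑ p : ↥(I e), (fun k i => co a k i * (x ^ i * y ^ (k - i))) p.1.1 p.1.2 := by
    refine sum_congr rfl fun p _ => ?_
    simp only
    rw [co_of_mem a p.2]
  rw [h1]
  have h2 : ∑ p : ↥(I e), (fun k i => co a k i * (x ^ i * y ^ (k - i))) p.1.1 p.1.2 =
      ∑ p ∈ I e, (fun k i => co a k i * (x ^ i * y ^ (k - i))) p.1 p.2 :=
    sum_coe_sort (I e) (fun p => (fun k i => co a k i * (x ^ i * y ^ (k - i))) p.1 p.2)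
  rw [h2]
  unfold I
  rw [sum_filter, sum_product]
  refine sum_congr rfl fun k hk => ?_
  rw [mem_range] at hk
  simp only
  rw [← sum_filter]
  refine (sum_congr ?_ fun i _ => rfl)
  ext i
  rw [mem_filter, mem_range, mem_range]
  omega

lemma Fv_sub (a a' : Cf e) (x y : ℤ) :
    Fv (co (a - a')) e x y = Fv (co a) e x y - Fv (co a') e x y := by
  rw [Fv_sumI, Fv_sumI, Fv_sumI, ← sum_sub_distrib]
  refine sum_congr rfl fun p _ => ?_
  rw [Pi.sub_apply]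
  ring

lemma Fv_add (a a' : Cf e) (x y : ℤ) :
    Fv (co (a + a')) e x y = Fv (co a) e x y + Fv (co a') e x y := by
  rw [Fv_sumI, Fv_sumI, Fv_sumI, ← sum_add_distrib]
  refine sum_congr rfl fun p _ => ?_
  rw [Pi.add_apply]
  ring

/-- the coefficient vector of `b (y + c x)` -/
def cfl (e : ℕ) (c : ℤ) (b : ℕ → ℤ) : Cf e :=
  fun p => b p.1.1 * ((Nat.choose p.1.1 p.1.2 : ℤ) * c ^ p.1.2)

lemma Fv_cfl (c : ℤ) (b : ℕ → ℤ) (x y : ℤ) :
    Fv (co (cfl e c b)) e x y = ∑ k ∈ range (e + 1), b k * (y + c * x) ^ k := by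
  unfold Fv
  refine sum_congr rfl fun k hk => ?_
  rw [mem_range] at hk
  rw [add_comm y, add_pow, mul_sum]
  refine sum_congr rfl fun i hi => ?_
  rw [mem_range] at hi
  rw [co_of_mem _ (by rw [mem_I]; omega)]
  unfold cfl
  simp only
  rw [mul_pow]
  ring

/-- the polynomial of the pure powers of `y` -/
noncomputable def bp (a : Cf e) : Polynomial ℤ :=
  ∑ k ∈ range (e + 1), Polynomial.C (co a k 0) * Polynomial.X ^ k

lemma bp_coeff (a : Cf e) (n : ℕ) : (bp a).coeff n = co a n 0 := by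
  unfold bp
  rw [Polynomial.finsetSum_coeff]
  simp only [Polynomial.coeff_C_mul_X_pow]
  rw [sum_ite_eq]
  split_ifs with h
  · rfl
  · unfold co
    rw [dif_neg]
    rw [mem_I]
    rw [mem_range] at h
    simp only
    omega

lemma bp_degree (a : Cf e) : (bp a).natDegree ≤ e := by
  apply Polynomial.natDegree_sum_le_of_forall_le
  intro k hk
  rw [mem_range] at hk
  refine (Polynomial.natDegree_C_mul_X_pow_le _ _).trans ?_
  omega

lemma bp_eval (a : Cf e) (t : ℤ) :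
    (bp a).eval t = ∑ k ∈ range (e + 1), co a k 0 * t ^ k := by
  unfold bp
  rw [Polynomial.eval_finsetSum]
  simp

/-- the part without pure powers -/
def red (c : ℤ) (a : Cf e) : Cf e := a - cfl e c fun k => co a k 0

lemma Fv_red (c : ℤ) (a : Cf e) (x y : ℤ) :
    Fv (co a) e x y = Fv (co (red c a)) e x y + (bp a).eval (y + c * x) := by
  unfold red
  rw [Fv_sub, Fv_cfl, bp_eval]
  ring

lemma red_mem {H c₀ c : ℕ} (hc : c ≤ c₀) (hc₀ : 1 ≤ c₀) {a : Cf e} (ha : a ∈ ibox ↥(I e) H) :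
    red (c : ℤ) a ∈ ibox0 ((1 + 2 ^ e * c₀ ^ e) * H) (JJ e) := by
  rw [mem_ibox0]
  intro p
  have hp := mem_I.1 p.2
  have h1 := mem_ibox.1 ha p
  have h2 := co_le ha p.1.1 0
  constructor
  · unfold red cfl
    simp only [Pi.sub_apply]
    refine (abs_sub _ _).trans ?_
    rw [abs_mul]
    have h3 : |((Nat.choose p.1.1 p.1.2 : ℤ) * (c : ℤ) ^ p.1.2)| ≤ ((2 ^ e * c₀ ^ e : ℕ) : ℤ) := by
      have h4 : Nat.choose p.1.1 p.1.2 * c ^ p.1.2 ≤ 2 ^ e * c₀ ^ e := by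
        have h5 : Nat.choose p.1.1 p.1.2 ≤ 2 ^ e :=
          (Nat.choose_le_two_pow _ _).trans (Nat.pow_le_pow_right (by norm_num) hp.1)
        have h6 : c ^ p.1.2 ≤ c₀ ^ e :=
          (Nat.pow_le_pow_left hc _).trans (Nat.pow_le_pow_right hc₀ (hp.2.trans hp.1))
        exact Nat.mul_le_mul h5 h6
      rw [abs_of_nonneg (by positivity)]
      exact_mod_cast h4
    push_cast at h3 ⊢
    have h7 : |co a p.1.1 0| * |((Nat.choose p.1.1 p.1.2 : ℤ) * (c : ℤ) ^ p.1.2)| ≤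
        (H : ℤ) * (2 ^ e * (c₀ : ℤ) ^ e) := by
      apply mul_le_mul h2 h3 (abs_nonneg _) (by positivity)
    linarith
  · intro hJ
    unfold JJ at hJ
    rw [mem_filter] at hJ
    unfold red cfl
    simp only [Pi.sub_apply]
    rw [hJ.2, Nat.choose_zero_right, pow_zero]
    have h3 : (p.1.1, 0) ∈ I e := by rw [mem_I]; exact ⟨hp.1, Nat.zero_le _⟩
    rw [co_of_mem a h3]
    have h4 : (⟨(p.1.1, 0), h3⟩ : ↥(I e)) = p := by
      apply Subtype.ext
      apply Prod.ext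
      · rfl
      · exact hJ.2.symm
    rw [h4]
    simp

/-- the list of the parameters -/
noncomputable def tl (c : ℤ) (S : Finset (ℤ × ℤ)) : List ℤ := S.toList.map fun P => P.2 + c * P.1

lemma tl_length (c : ℤ) (S : Finset (ℤ × ℤ)) : (tl c S).length = S.card := by
  unfold tl
  rw [List.length_map, length_toList]

/-- **Fibres.** -/
lemma fiber_points {H c : ℕ} (S : Finset (ℤ × ℤ)) (s : ℤ × ℤ → ℤ)
    (hinj : Set.InjOn (fun P : ℤ × ℤ => P.2 + (c : ℤ) * P.1) (S : Set (ℤ × ℤ)))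
    (G : Cf e) (T : Finset (Cf e)) (hT : T ⊆ ibox ↥(I e) H)
    (hG : ∀ a ∈ T, red (c : ℤ) a = G) (hz : ∀ a ∈ T, ∀ P ∈ S, Fv (co a) e P.1 P.2 = s P) :
    T.card ≤ (2 * ⌊((e : ℝ) + 1) ^ S.card * (2 * H) / szp (tl c S)⌋₊ + 1) ^ (e + 1 - S.card) := by
  classical
  rcases T.eq_empty_or_nonempty with h0 | ⟨a₀, h0⟩
  · rw [h0, card_empty]
    exact Nat.zero_le _
  have hinj2 : Set.InjOn (fun a : Cf e => bp a - bp a₀) (T : Set (Cf e)) := by
    intro a ha a' ha' haa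
    rw [mem_coe] at ha ha'
    simp only [sub_left_inj] at haa
    have h1 : ∀ k, co a k 0 = co a' k 0 := by
      intro k
      rw [← bp_coeff, ← bp_coeff, haa]
    have h2 := (hG a ha).trans (hG a' ha').symm
    unfold red at h2
    have h3 : (fun k => co a k 0) = fun k => co a' k 0 := funext h1
    rw [h3] at h2
    exact sub_left_injective h2
  rw [← card_image_of_injOn hinj2]
  have h2H : (0 : ℝ) ≤ 2 * H := by positivity
  have key := card_roots e (tl c S) h2H (T.image fun a : Cf e => bp a - bp a₀) ?_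
  · rw [tl_length] at key
    exact key
  intro b hb
  rw [mem_image] at hb
  obtain ⟨a, ha, rfl⟩ := hb
  refine ⟨?_, ?_, ?_⟩
  · refine (Polynomial.natDegree_sub_le _ _).trans (max_le (bp_degree a) (bp_degree a₀))
  · intro n
    rw [Polynomial.coeff_sub, bp_coeff, bp_coeff]
    have h1 := co_le (hT ha) n 0
    have h2 := co_le (hT h0) n 0
    have h3 : |co a n 0 - co a₀ n 0| ≤ 2 * (H : ℤ) := (abs_sub _ _).trans (by linarith)
    exact_mod_cast h3
  · apply lin_dvd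
    · unfold tl
      apply List.Nodup.map_on _ S.nodup_toList
      intro P hP Q hQ h
      rw [mem_toList] at hP hQ
      exact hinj hP hQ h
    · intro t ht
      unfold tl at ht
      rw [List.mem_map] at ht
      obtain ⟨P, hP, rfl⟩ := ht
      rw [mem_toList] at hP
      have h1 := Fv_red (c : ℤ) a P.1 P.2
      have h2 := Fv_red (c : ℤ) a₀ P.1 P.2
      rw [hz a ha P hP, hG a ha] at h1
      rw [hz a₀ h0 P hP, hG a₀ h0] at h2
      rw [Polynomial.eval_sub]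
      linarith

/-- **Curves through given points**, for a given direction. -/
lemma count_dir {H c₀ c : ℕ} (hc : c ≤ c₀) (hc₀ : 1 ≤ c₀) (S : Finset (ℤ × ℤ)) (s : ℤ × ℤ → ℤ)
    (hinj : Set.InjOn (fun P : ℤ × ℤ => P.2 + (c : ℤ) * P.1) (S : Set (ℤ × ℤ)))
    (T : Finset (Cf e)) (hT : T ⊆ ibox ↥(I e) H)
    (hz : ∀ a ∈ T, ∀ P ∈ S, Fv (co a) e P.1 P.2 = s P) :
    T.card ≤ (2 * ⌊((e : ℝ) + 1) ^ S.card * (2 * H) / szp (tl c S)⌋₊ + 1) ^ (e + 1 - S.card) *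
      (2 * ((1 + 2 ^ e * c₀ ^ e) * H) + 1) ^ (MM e - (e + 1)) := by
  classical
  have h1 := card_le_mul_card_image (f := red (c : ℤ)) T
    ((2 * ⌊((e : ℝ) + 1) ^ S.card * (2 * H) / szp (tl c S)⌋₊ + 1) ^ (e + 1 - S.card)) (by
      intro G _
      exact fiber_points S s hinj G _ ((filter_subset _ _).trans hT)
        (fun a ha => (mem_filter.1 ha).2) (fun a ha => hz a (mem_filter.1 ha).1))
  refine h1.trans (Nat.mul_le_mul_left _ ?_)
  have h2 : T.image (red (c : ℤ)) ⊆ ibox0 ((1 + 2 ^ e * c₀ ^ e) * H) (JJ e) := by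
    intro G hG
    rw [mem_image] at hG
    obtain ⟨a, ha, rfl⟩ := hG
    exact red_mem hc hc₀ (hT ha)
  have h3 := card_le_card h2
  rw [card_ibox0, card_JJ] at h3
  exact h3

/-- the size of a point, at least one -/
noncomputable def tau (P : ℤ × ℤ) : ℝ := max 1 (sz P : ℝ)

lemma tau_one (P : ℤ × ℤ) : 1 ≤ tau P := le_max_left _ _

/-- **A good direction.** -/
lemma exists_dir (S : Finset (ℤ × ℤ)) {j : ℕ} (hj : S.card ≤ j) : ∃ c : ℕ, c ≤ j * (j + 1) ∧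
    Set.InjOn (fun P : ℤ × ℤ => P.2 + (c : ℤ) * P.1) (S : Set (ℤ × ℤ)) ∧
    ∀ P ∈ S, (sz P : ℤ) ≤ 4 * (j * (j + 1) : ℕ) * |P.2 + (c : ℤ) * P.1| := by
  classical
  obtain ⟨c₀, hc₀⟩ : ∃ c₀, c₀ = j * (j + 1) := ⟨_, rfl⟩
  rw [← hc₀]
  obtain ⟨B1, hB1⟩ : ∃ B1 : ℤ × ℤ → ℤ × ℤ → Finset ℕ, B1 = fun (P Q : ℤ × ℤ) => (range (c₀ + 1)).filter fun c : ℕ =>
    P ≠ Q ∧ P.2 + (c : ℤ) * P.1 = Q.2 + (c : ℤ) * Q.1 := ⟨_, rfl⟩
  obtain ⟨B2, hB2⟩ : ∃ B2 : ℤ × ℤ → Finset ℕ, B2 = fun (P : ℤ × ℤ) => (range (c₀ + 1)).filter fun c : ℕ =>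
    4 * (c₀ : ℤ) * |P.2 + (c : ℤ) * P.1| < (sz P : ℤ) := ⟨_, rfl⟩
  have h1 : ∀ P Q, (B1 P Q).card ≤ 1 := by
    intro P Q
    rw [card_le_one]
    intro c hc c' hc'
    rw [hB1] at hc hc'
    simp only [mem_filter] at hc hc'
    obtain ⟨-, h2, h3⟩ := hc
    obtain ⟨-, -, h4⟩ := hc'
    by_contra hne
    apply h2
    have h5 : ((c : ℤ) - c') * (P.1 - Q.1) = 0 := by linarith
    rcases mul_eq_zero.1 h5 with h6 | h6
    · exfalso
      apply hne
      have : (c : ℤ) = c' := by linarith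
      exact_mod_cast this
    · have h7 : P.1 = Q.1 := by linarith
      rw [h7] at h3
      apply Prod.ext h7
      linarith
  have h2 : ∀ P, (B2 P).card ≤ 1 := by
    intro P
    rw [card_le_one]
    intro c hc c' hc'
    rw [hB2] at hc hc'
    simp only [mem_filter, mem_range] at hc hc'
    obtain ⟨h3, h4⟩ := hc
    obtain ⟨h5, h6⟩ := hc'
    by_contra hne
    rcases Nat.eq_zero_or_pos c₀ with h0 | h0
    · omega
    have hc1 : (1 : ℤ) ≤ c₀ := by exact_mod_cast h0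
    obtain ⟨u, hu⟩ : ∃ u, u = P.2 + (c : ℤ) * P.1 := ⟨_, rfl⟩
    obtain ⟨u', hu'⟩ : ∃ u', u' = P.2 + (c' : ℤ) * P.1 := ⟨_, rfl⟩
    rw [← hu] at h4
    rw [← hu'] at h6
    have h7 : ((c : ℤ) - c') * P.1 = u - u' := by rw [hu, hu']; ring
    have h8 : |P.1| ≤ |u| + |u'| := by
      have h9 : 1 ≤ |(c : ℤ) - c'| := by
        apply Int.one_le_abs
        intro h10
        apply hne
        have : (c : ℤ) = c' := by linarith
        exact_mod_cast this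
      have h10 : |(c : ℤ) - c'| * |P.1| ≤ |u| + |u'| := by
        rw [← abs_mul, h7]
        exact abs_sub _ _
      nlinarith [abs_nonneg P.1]
    have h9 : (sz P : ℤ) = max |P.1| |P.2| := by
      unfold sz
      rw [Int.abs_eq_natAbs, Int.abs_eq_natAbs]
      push_cast
      rfl
    have h10 : |P.2| ≤ |u| + c₀ * |P.1| := by
      have h11 : P.2 = u - (c : ℤ) * P.1 := by rw [hu]; ring
      have h12 : (c : ℤ) ≤ c₀ := by
        have : c ≤ c₀ := by omega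
        exact_mod_cast this
      rw [h11]
      refine (abs_sub _ _).trans ?_
      rw [abs_mul, abs_of_nonneg (by positivity : (0 : ℤ) ≤ c)]
      have := mul_le_mul_of_nonneg_right h12 (abs_nonneg P.1)
      linarith
    rw [h9] at h4 h6
    have h11 := abs_nonneg u
    have h12 := abs_nonneg u'
    have h13 := abs_nonneg P.1
    rcases le_total |P.1| |P.2| with h14 | h14
    · rw [max_eq_right h14] at h4 h6
      have h15 : (c₀ : ℤ) * |P.1| ≤ c₀ * (|u| + |u'|) :=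
        mul_le_mul_of_nonneg_left h8 (by positivity)
      have h16 : |u| ≤ c₀ * |u| := by nlinarith
      nlinarith
    · rw [max_eq_left h14] at h4 h6
      have h15 : |u| ≤ c₀ * |u| := by nlinarith
      have h16 : |u'| ≤ c₀ * |u'| := by nlinarith
      linarith
  obtain ⟨Bd, hBd⟩ : ∃ Bd : Finset ℕ, Bd = ((S ×ˢ S).biUnion fun q => B1 q.1 q.2) ∪ S.biUnion B2 :=
    ⟨_, rfl⟩
  have hcard : Bd.card ≤ c₀ := by
    rw [hBd]
    refine (card_union_le _ _).trans ?_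
    have h3 : ((S ×ˢ S).biUnion fun q => B1 q.1 q.2).card ≤ S.card * S.card := by
      refine card_biUnion_le.trans ((sum_le_sum fun q _ => h1 q.1 q.2).trans ?_)
      rw [sum_const, smul_eq_mul, mul_one, card_product]
    have h4 : (S.biUnion B2).card ≤ S.card := by
      refine card_biUnion_le.trans ((sum_le_sum fun q _ => h2 q).trans ?_)
      rw [sum_const, smul_eq_mul, mul_one]
    have h5 : S.card * S.card ≤ j * j := Nat.mul_le_mul hj hj
    rw [hc₀, mul_add, mul_one]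
    omega
  obtain ⟨c, hc, hcB⟩ : ∃ c ∈ range (c₀ + 1), c ∉ Bd := by
    by_contra h
    push Not at h
    have h3 : range (c₀ + 1) ⊆ Bd := fun c hc => h c hc
    have h4 := card_le_card h3
    rw [card_range] at h4
    omega
  rw [hBd, mem_union, not_or, mem_biUnion, mem_biUnion] at hcB
  refine ⟨c, by rw [mem_range] at hc; omega, ?_, ?_⟩
  · intro P hP Q hQ h
    by_contra hne
    apply hcB.1
    refine ⟨(P, Q), mem_product.2 ⟨hP, hQ⟩, ?_⟩
    rw [hB1]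
    simp only [mem_filter]
    exact ⟨hc, hne, h⟩
  · intro P hP
    by_contra h
    rw [not_le] at h
    apply hcB.2
    refine ⟨P, hP, ?_⟩
    rw [hB2]
    simp only [mem_filter]
    exact ⟨hc, h⟩

/-- the weight of a set of points -/
noncomputable def pt (S : Finset (ℤ × ℤ)) : ℝ := ∏ P ∈ S, tau P

lemma pt_one (S : Finset (ℤ × ℤ)) : 1 ≤ pt S := by
  unfold pt
  calc (1 : ℝ) = ∏ _P ∈ S, (1 : ℝ) := by rw [prod_const_one]
    _ ≤ _ := prod_le_prod (fun _ _ => zero_le_one) fun P _ => tau_one P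

lemma szp_tl_ge (c : ℤ) (S : Finset (ℤ × ℤ)) {N : ℕ} (hN : 1 ≤ N)
    (h : ∀ P ∈ S, (sz P : ℤ) ≤ N * |P.2 + c * P.1|) : pt S ≤ (N : ℝ) ^ S.card * szp (tl c S) := by
  have h1 : szp (tl c S) = ∏ P ∈ S, max (1 : ℝ) |((P.2 + c * P.1 : ℤ) : ℝ)| := by
    unfold szp tl
    rw [List.map_map]
    exact Finset.prod_map_toList S _
  rw [h1, ← prod_const, ← prod_mul_distrib]
  unfold pt
  apply prod_le_prod (fun P _ => (zero_le_one.trans (tau_one P)))
  intro P hP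
  have h2 := h P hP
  have hN' : (1 : ℝ) ≤ N := by exact_mod_cast hN
  have h3 : ((sz P : ℕ) : ℝ) ≤ N * |((P.2 + c * P.1 : ℤ) : ℝ)| := by
    have h4 : (((sz P : ℕ) : ℤ) : ℝ) ≤ ((N * |P.2 + c * P.1| : ℤ) : ℝ) := by exact_mod_cast h2
    rw [Int.cast_natCast] at h4
    refine h4.trans (le_of_eq ?_)
    push_cast
    rfl
  unfold tau
  apply max_le
  · have h5 : (1 : ℝ) ≤ max 1 |((P.2 + c * P.1 : ℤ) : ℝ)| := le_max_left _ _
    nlinarith
  · refine h3.trans ?_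
    have h5 := le_max_right (1 : ℝ) |((P.2 + c * P.1 : ℤ) : ℝ)|
    gcongr

/-- the constant -/
noncomputable def CP (e : ℕ) : ℝ :=
  (2 * (1 + 2 ^ e * ((e + 1) * (e + 1 + 1) : ℕ) ^ e) + 1) ^ (MM e - (e + 1)) *
    (4 * ((e : ℝ) + 1) ^ (e + 1) * (4 * ((e + 1) * (e + 1 + 1) : ℕ) : ℝ) ^ (e + 1)) ^ (e + 1)

lemma CP_pos (e : ℕ) : 0 < CP e := by
  unfold CP
  positivity

/-- **Curves through given points.** -/
theorem count_points {H : ℕ} (hH : 1 ≤ H) (S : Finset (ℤ × ℤ)) (hS : S.card ≤ e + 1)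
    (s : ℤ × ℤ → ℤ) (T : Finset (Cf e)) (hT : T ⊆ ibox ↥(I e) H)
    (hz : ∀ a ∈ T, ∀ P ∈ S, Fv (co a) e P.1 P.2 = s P) :
    (T.card : ℝ) ≤ CP e * (H : ℝ) ^ (MM e - (e + 1)) * ((H : ℝ) / pt S + 1) ^ (e + 1 - S.card) := by
  classical
  obtain ⟨c₀, hc₀⟩ : ∃ c₀, c₀ = (e + 1) * (e + 1 + 1) := ⟨_, rfl⟩
  have hc1 : 1 ≤ c₀ := by rw [hc₀]; exact Nat.mul_pos (by omega) (by omega)
  have hH' : (1 : ℝ) ≤ H := by exact_mod_cast hH
  obtain ⟨c, h1, h2, h3⟩ := exists_dir S hS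
  rw [← hc₀] at h1 h3
  have h4 := count_dir h1 hc1 S s h2 T hT hz
  have h5 := szp_tl_ge (c : ℤ) S (N := 4 * c₀) (by omega) (by
    intro P hP
    have := h3 P hP
    push_cast
    exact this)
  have hs := szp_pos (tl c S)
  have hp := pt_one S
  have h6 : ((e : ℝ) + 1) ^ S.card * (2 * H) / szp (tl c S) ≤
      ((e : ℝ) + 1) ^ (e + 1) * 2 * (4 * (c₀ : ℝ)) ^ (e + 1) * (H / pt S) := by
    have h7 : 1 / szp (tl c S) ≤ (4 * (c₀ : ℝ)) ^ S.card * (1 / pt S) := by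
      rw [mul_one_div, div_le_div_iff₀ (by linarith) (by linarith), one_mul]
      push_cast at h5
      exact h5
    have h8 : (1 : ℝ) ≤ 4 * (c₀ : ℝ) := by
      have : (1 : ℝ) ≤ c₀ := by exact_mod_cast hc1
      linarith
    have h9 : (4 * (c₀ : ℝ)) ^ S.card ≤ (4 * (c₀ : ℝ)) ^ (e + 1) := pow_le_pow_right₀ h8 hS
    have h10 : ((e : ℝ) + 1) ^ S.card ≤ ((e : ℝ) + 1) ^ (e + 1) :=
      pow_le_pow_right₀ (by linarith [(Nat.cast_nonneg e : (0 : ℝ) ≤ e)]) hS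
    calc ((e : ℝ) + 1) ^ S.card * (2 * H) / szp (tl c S)
        = ((e : ℝ) + 1) ^ S.card * (2 * H) * (1 / szp (tl c S)) := by ring
      _ ≤ ((e : ℝ) + 1) ^ (e + 1) * (2 * H) * ((4 * (c₀ : ℝ)) ^ (e + 1) * (1 / pt S)) := by
          have : (0 : ℝ) ≤ 1 / szp (tl c S) := by positivity
          have h11 : 1 / szp (tl c S) ≤ (4 * (c₀ : ℝ)) ^ (e + 1) * (1 / pt S) := by
            refine h7.trans ?_
            gcongr
          gcongr
      _ = _ := by ring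
  obtain ⟨D, hD⟩ : ∃ D : ℝ, D = ((e : ℝ) + 1) ^ (e + 1) * 2 * (4 * (c₀ : ℝ)) ^ (e + 1) := ⟨_, rfl⟩
  rw [← hD] at h6
  have hD1 : 1 ≤ D := by
    have a1 : (1 : ℝ) ≤ ((e : ℝ) + 1) ^ (e + 1) :=
      one_le_pow₀ (by linarith [(Nat.cast_nonneg e : (0 : ℝ) ≤ e)])
    have a2 : (1 : ℝ) ≤ (4 * (c₀ : ℝ)) ^ (e + 1) := by
      apply one_le_pow₀
      have : (1 : ℝ) ≤ c₀ := by exact_mod_cast hc1
      linarith
    rw [hD]
    calc (1 : ℝ) = 1 * 1 * 1 := by norm_num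
      _ ≤ _ := by gcongr; norm_num
  have h7 : ((2 * ⌊((e : ℝ) + 1) ^ S.card * (2 * H) / szp (tl c S)⌋₊ + 1 : ℕ) : ℝ) ≤
      (2 * D) * (H / pt S + 1) := by
    push_cast
    have h8 := Nat.floor_le (a := ((e : ℝ) + 1) ^ S.card * (2 * H) / szp (tl c S)) (by positivity)
    have h9 : 0 ≤ (H : ℝ) / pt S := by positivity
    nlinarith
  have h8 : ((2 * ((1 + 2 ^ e * c₀ ^ e) * H) + 1 : ℕ) : ℝ) ≤
      (2 * (1 + 2 ^ e * (c₀ : ℝ) ^ e) + 1) * H := by
    push_cast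
    nlinarith
  have h9 := (Nat.cast_le (α := ℝ)).2 h4
  rw [Nat.cast_mul, Nat.cast_pow, Nat.cast_pow] at h9
  refine h9.trans ?_
  have hq : (0 : ℝ) ≤ (H : ℝ) / pt S + 1 := by positivity
  calc _ ≤ ((2 * D) * (H / pt S + 1)) ^ (e + 1 - S.card) *
        ((2 * (1 + 2 ^ e * (c₀ : ℝ) ^ e) + 1) * H) ^ (MM e - (e + 1)) := by gcongr
    _ = (2 * (1 + 2 ^ e * (c₀ : ℝ) ^ e) + 1) ^ (MM e - (e + 1)) * (2 * D) ^ (e + 1 - S.card) *
        (H : ℝ) ^ (MM e - (e + 1)) * (H / pt S + 1) ^ (e + 1 - S.card) := by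
        rw [mul_pow (2 * D), mul_pow (2 * (1 + 2 ^ e * (c₀ : ℝ) ^ e) + 1)]
        ring
    _ ≤ (2 * (1 + 2 ^ e * (c₀ : ℝ) ^ e) + 1) ^ (MM e - (e + 1)) * (2 * D) ^ (e + 1) *
        (H : ℝ) ^ (MM e - (e + 1)) * (H / pt S + 1) ^ (e + 1 - S.card) := by
        have h10 : (2 * D) ^ (e + 1 - S.card) ≤ (2 * D) ^ (e + 1) :=
          pow_le_pow_right₀ (by linarith) (Nat.sub_le _ _)
        gcongr
    _ = _ := by
        unfold CP
        rw [← hc₀, hD]
        ring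

/-- few points -/
theorem count_small {H : ℕ} (hH : 1 ≤ H) (S : Finset (ℤ × ℤ)) (hS : S.card ≤ e + 1)
    (hp : pt S ≤ H)
    (s : ℤ × ℤ → ℤ) (T : Finset (Cf e)) (hT : T ⊆ ibox ↥(I e) H)
    (hz : ∀ a ∈ T, ∀ P ∈ S, Fv (co a) e P.1 P.2 = s P) :
    (T.card : ℝ) ≤ CP e * 2 ^ (e + 1) * (H : ℝ) ^ (MM e - S.card) / pt S ^ (e + 1 - S.card) := by
  have hH' : (1 : ℝ) ≤ H := by exact_mod_cast hH
  have h1 := count_points hH S hS s T hT hz
  have hpt := pt_one S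
  have hC := CP_pos e
  have hM : e + 1 ≤ MM e := by
    rw [MM_eq]
    have h2 : (e + 1) * 2 ≤ (e + 1) * (e + 2) := Nat.mul_le_mul_left _ (by omega)
    omega
  refine h1.trans ?_
  have h2 : (H : ℝ) / pt S + 1 ≤ 2 * ((H : ℝ) / pt S) := by
    have : 1 ≤ (H : ℝ) / pt S := by rw [le_div_iff₀ (by linarith)]; linarith
    linarith
  calc CP e * (H : ℝ) ^ (MM e - (e + 1)) * ((H : ℝ) / pt S + 1) ^ (e + 1 - S.card)
      ≤ CP e * (H : ℝ) ^ (MM e - (e + 1)) * (2 * ((H : ℝ) / pt S)) ^ (e + 1 - S.card) := by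
        gcongr
    _ = CP e * 2 ^ (e + 1 - S.card) * ((H : ℝ) ^ (MM e - (e + 1)) * (H : ℝ) ^ (e + 1 - S.card)) /
        pt S ^ (e + 1 - S.card) := by
        rw [mul_pow, div_pow]
        ring
    _ = CP e * 2 ^ (e + 1 - S.card) * (H : ℝ) ^ (MM e - S.card) /
        pt S ^ (e + 1 - S.card) := by
        rw [← pow_add]
        congr 3
        omega
    _ ≤ _ := by
        have h10 : (2 : ℝ) ^ (e + 1 - S.card) ≤ 2 ^ (e + 1) :=
          pow_le_pow_right₀ (by norm_num) (Nat.sub_le _ _)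
        gcongr

/-- many or large points -/
theorem count_large {H : ℕ} (hH : 1 ≤ H) (S : Finset (ℤ × ℤ)) (hS : S.card ≤ e + 1)
    (hp : (H : ℝ) ≤ pt S)
    (s : ℤ × ℤ → ℤ) (T : Finset (Cf e)) (hT : T ⊆ ibox ↥(I e) H)
    (hz : ∀ a ∈ T, ∀ P ∈ S, Fv (co a) e P.1 P.2 = s P) :
    (T.card : ℝ) ≤ CP e * 2 ^ (e + 1) * (H : ℝ) ^ (MM e - (e + 1)) := by
  have hH' : (1 : ℝ) ≤ H := by exact_mod_cast hH
  have h1 := count_points hH S hS s T hT hz
  have hpt := pt_one S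
  have hC := CP_pos e
  refine h1.trans ?_
  have h2 : (H : ℝ) / pt S + 1 ≤ 2 := by
    have : (H : ℝ) / pt S ≤ 1 := by rw [div_le_one (by linarith)]; exact hp
    linarith
  have h3 : ((H : ℝ) / pt S + 1) ^ (e + 1 - S.card) ≤ 2 ^ (e + 1) := by
    calc ((H : ℝ) / pt S + 1) ^ (e + 1 - S.card) ≤ 2 ^ (e + 1 - S.card) := by
          gcongr
      _ ≤ _ := pow_le_pow_right₀ (by norm_num) (Nat.sub_le _ _)
  calc CP e * (H : ℝ) ^ (MM e - (e + 1)) * ((H : ℝ) / pt S + 1) ^ (e + 1 - S.card)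
      ≤ CP e * (H : ℝ) ^ (MM e - (e + 1)) * 2 ^ (e + 1) := by gcongr
    _ = _ := by ring

end Pool.Agent.Run7.h953.KP
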