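import Mathlib

set_option autoImplicit false
set_option linter.unusedSectionVars false

/-! The integer solutions of a linear system in a box. -/

open MeasureTheory Filter Topology

namespace Pool.Agent.Run7.h953.KP

variable {ι : Type} [Fintype ι] {m : ℕ}

/-- the set where finitely many linear forms are at most one in absolute value -/
def K (c : ι → Fin m → ℝ) : Set (Fin m → ℝ) := {u | ∀ i, |∑ j, u j * c i j| ≤ 1}

lemma K_closed (c : ι → Fin m → ℝ) : IsClosed (K c) := by
  have h1 : K c = ⋂ i, {u : Fin m → ℝ | |∑ j, u j * c i j| ≤ 1} := by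
    ext u
    simp [K]
  rw [h1]
  exact isClosed_iInter fun i => isClosed_le (by fun_prop) continuous_const

lemma K_convex (c : ι → Fin m → ℝ) : Convex ℝ (K c) := by
  intro u hu v hv a b ha hb hab i
  have h1 := hu i
  have h2 := hv i
  have e : ∑ j, (a • u + b • v) j * c i j = a * (∑ j, u j * c i j) + b * (∑ j, v j * c i j) := by
    rw [Finset.mul_sum, Finset.mul_sum, ← Finset.sum_add_distrib]
    refine Finset.sum_congr rfl fun m _ => ?_
    simp only [Pi.add_apply, Pi.smul_apply, smul_eq_mul]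
    ring
  rw [e]
  calc |a * (∑ j, u j * c i j) + b * (∑ j, v j * c i j)|
      ≤ |a * (∑ j, u j * c i j)| + |b * (∑ j, v j * c i j)| := abs_add_le _ _
    _ = a * |∑ j, u j * c i j| + b * |∑ j, v j * c i j| := by
        rw [abs_mul, abs_mul, abs_of_nonneg ha, abs_of_nonneg hb]
    _ ≤ a * 1 + b * 1 := by gcongr
    _ = 1 := by rw [mul_one, mul_one, hab]

/-- a left inverse up to a factor -/
lemma exists_left (c : ι → Fin m → ℤ)
    (hc : ∀ z : Fin m → ℤ, (∀ i, ∑ j, z j * c i j = 0) → z = 0) :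
    ∃ (W : Fin m → ι → ℤ) (D : ℤ), D ≠ 0 ∧ ∀ j l, ∑ i, W j i * c i l = if j = l then D else 0 := by
  classical
  obtain ⟨M, hM⟩ : ∃ M : Matrix ι (Fin m) ℤ, M = Matrix.of c := ⟨_, rfl⟩
  obtain ⟨G, hG⟩ : ∃ G : Matrix (Fin m) (Fin m) ℤ, G = M.transpose * M := ⟨_, rfl⟩
  have hdet : G.det ≠ 0 := by
    intro h0
    obtain ⟨v, hv0, hv⟩ := Matrix.exists_mulVec_eq_zero_iff.2 h0
    apply hv0
    apply hc
    have h1 : v ⬝ᵥ (G.mulVec v) = (M.mulVec v) ⬝ᵥ (M.mulVec v) := by
      rw [hG, ← Matrix.mulVec_mulVec, Matrix.dotProduct_mulVec, Matrix.vecMul_transpose]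
    rw [hv, dotProduct_zero] at h1
    have h2 := dotProduct_self_eq_zero.1 h1.symm
    intro i
    have h3 := congrFun h2 i
    rw [hM, Matrix.mulVec] at h3
    simp only [dotProduct, Matrix.of_apply, Pi.zero_apply] at h3
    rw [← h3]
    exact Finset.sum_congr rfl fun j _ => mul_comm _ _
  refine ⟨fun j i => (G.adjugate * M.transpose) j i, G.det, hdet, fun j l => ?_⟩
  have h1 : (G.adjugate * M.transpose) * M = G.det • (1 : Matrix (Fin m) (Fin m) ℤ) := by
    rw [Matrix.mul_assoc, ← hG, Matrix.adjugate_mul]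
  have h2 := congrFun (congrFun h1 j) l
  rw [Matrix.mul_apply] at h2
  have h3 : ∀ i, M i l = c i l := fun i => by rw [hM]; rfl
  simp only [h3] at h2
  rw [h2, Matrix.smul_apply, Matrix.one_apply, smul_eq_mul]
  split_ifs <;> simp

lemma K_bounded (c : ι → Fin m → ℤ)
    (hc : ∀ z : Fin m → ℤ, (∀ i, ∑ j, z j * c i j = 0) → z = 0) :
    Bornology.IsBounded (K fun i j => (c i j : ℝ)) := by
  obtain ⟨W, D, hD, hW⟩ := exists_left c hc
  obtain ⟨R, hR⟩ : ∃ R : ℝ, R = ∑ j, ∑ i, |(W j i : ℝ)| := ⟨_, rfl⟩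
  apply (Metric.isBounded_closedBall (x := (0 : Fin m → ℝ)) (r := R)).subset
  intro u hu
  have hR0 : 0 ≤ R := by
    rw [hR]
    exact Finset.sum_nonneg fun _ _ => Finset.sum_nonneg fun _ _ => abs_nonneg _
  rw [mem_closedBall_zero_iff, pi_norm_le_iff_of_nonneg hR0]
  intro j
  have hD1 : (1 : ℝ) ≤ |(D : ℝ)| := by
    have := Int.one_le_abs hD
    exact_mod_cast this
  have h1 : (D : ℝ) * u j = ∑ i, (W j i : ℝ) * ∑ l, u l * (c i l : ℝ) := by
    have h2 : ∀ l, ∑ i, (W j i : ℝ) * (c i l : ℝ) = if j = l then (D : ℝ) else 0 := by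
      intro l
      have := hW j l
      have h3 : ((∑ i, W j i * c i l : ℤ) : ℝ) = ((if j = l then D else 0 : ℤ) : ℝ) := by
        rw [this]
      push_cast at h3
      rw [h3]
    simp only [Finset.mul_sum]
    rw [Finset.sum_comm]
    have h4 : ∀ l, ∑ i, (W j i : ℝ) * (u l * (c i l : ℝ)) = u l * (if j = l then (D : ℝ) else 0) := by
      intro l
      rw [← h2, Finset.mul_sum]
      exact Finset.sum_congr rfl fun i _ => by ring
    simp only [h4]
    simp [mul_comm]
  have h2 : |(D : ℝ) * u j| ≤ ∑ i, |(W j i : ℝ)| := by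
    rw [h1]
    refine (Finset.abs_sum_le_sum_abs _ _).trans (Finset.sum_le_sum fun i _ => ?_)
    rw [abs_mul]
    exact mul_le_of_le_one_right (abs_nonneg _) (hu i)
  have h3 : ∑ i, |(W j i : ℝ)| ≤ R := by
    rw [hR]
    exact Finset.single_le_sum (f := fun j => ∑ i, |(W j i : ℝ)|)
      (fun _ _ => Finset.sum_nonneg fun _ _ => abs_nonneg _) (Finset.mem_univ j)
  rw [Real.norm_eq_abs]
  rw [abs_mul] at h2
  nlinarith [abs_nonneg (u j)]

/-- the volume -/
noncomputable def vol (c : ι → Fin m → ℝ) : ℝ := volume.real (K c)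

lemma vol_pos (c : ι → Fin m → ℤ)
    (hc : ∀ z : Fin m → ℤ, (∀ i, ∑ j, z j * c i j = 0) → z = 0) :
    0 < vol fun i j => (c i j : ℝ) := by
  obtain ⟨S, hS⟩ : ∃ S : ℝ, S = 1 + ∑ i, ∑ j, |(c i j : ℝ)| := ⟨_, rfl⟩
  have hS0 : 0 ≤ ∑ i, ∑ j, |(c i j : ℝ)| :=
    Finset.sum_nonneg fun _ _ => Finset.sum_nonneg fun _ _ => abs_nonneg _
  have hS1 : 1 ≤ S := by rw [hS]; linarith
  have hsub : Metric.ball (0 : Fin m → ℝ) (1 / S) ⊆ K fun i j => (c i j : ℝ) := by
    intro u hu i
    rw [mem_ball_zero_iff, pi_norm_lt_iff (by positivity)] at hu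
    calc |∑ j, u j * (c i j : ℝ)| ≤ ∑ j, |u j * (c i j : ℝ)| := Finset.abs_sum_le_sum_abs _ _
      _ ≤ ∑ j, (1 / S) * |(c i j : ℝ)| := by
          refine Finset.sum_le_sum fun j _ => ?_
          rw [abs_mul]
          exact mul_le_mul_of_nonneg_right (hu j).le (abs_nonneg _)
      _ = (∑ j, |(c i j : ℝ)|) / S := by rw [← Finset.mul_sum]; ring
      _ ≤ 1 := by
          rw [div_le_one (by linarith), hS]
          have := Finset.single_le_sum (f := fun i => ∑ j, |(c i j : ℝ)|)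
            (fun _ _ => Finset.sum_nonneg fun _ _ => abs_nonneg _) (Finset.mem_univ i)
          linarith
  have h2 : volume (Metric.ball (0 : Fin m → ℝ) (1 / S)) ≤ volume (K fun i j => (c i j : ℝ)) :=
    measure_mono hsub
  have h3 : 0 < volume (Metric.ball (0 : Fin m → ℝ) (1 / S)) :=
    Metric.measure_ball_pos volume 0 (by positivity)
  unfold vol
  rw [measureReal_def]
  exact ENNReal.toReal_pos (h3.trans_le h2).ne' ((K_bounded c hc).measure_lt_top).ne

/-- the integer points for which all the shifted forms are in the box -/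
def cnt (c : ι → Fin m → ℤ) (t : ι → ℤ) (H : ℕ) : Set (Fin m → ℤ) :=
  {z | ∀ i, |t i + ∑ j, z j * c i j| ≤ (H : ℤ)}

section

variable (c : ι → Fin m → ℤ) (hc : ∀ z : Fin m → ℤ, (∀ i, ∑ j, z j * c i j = 0) → z = 0)

include hc

lemma cnt_finite0 (H : ℕ) : (cnt c 0 H).Finite := by
  obtain ⟨W, D, hD, hW⟩ := exists_left c hc
  obtain ⟨R, hR⟩ : ∃ R : ℤ, R = ∑ j, ∑ i, |W j i| := ⟨_, rfl⟩
  apply Set.Finite.subset (Set.finite_Icc (fun _ => -(R * H)) (fun _ => R * H))
  intro u hu
  have hD1 : 1 ≤ |D| := Int.one_le_abs hD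
  have hb : ∀ j, |u j| ≤ R * H := by
    intro j
    have h1 : D * u j = ∑ i, W j i * ∑ l, u l * c i l := by
      simp only [Finset.mul_sum]
      rw [Finset.sum_comm]
      have h4 : ∀ l, ∑ i, W j i * (u l * c i l) = u l * (if j = l then D else 0) := by
        intro l
        rw [← hW, Finset.mul_sum]
        exact Finset.sum_congr rfl fun i _ => by ring
      simp only [h4]
      simp [mul_comm]
    have h2 : |D * u j| ≤ ∑ i, |W j i| * H := by
      rw [h1]
      refine (Finset.abs_sum_le_sum_abs _ _).trans (Finset.sum_le_sum fun i _ => ?_)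
      rw [abs_mul]
      have h3 := hu i
      simp only [Pi.zero_apply, zero_add] at h3
      exact mul_le_mul_of_nonneg_left h3 (abs_nonneg _)
    rw [← Finset.sum_mul] at h2
    have h3 : ∑ i, |W j i| ≤ R := by
      rw [hR]
      exact Finset.single_le_sum (f := fun j => ∑ i, |W j i|)
        (fun _ _ => Finset.sum_nonneg fun _ _ => abs_nonneg _) (Finset.mem_univ j)
    rw [abs_mul] at h2
    have h4 : (∑ i, |W j i|) * (H : ℤ) ≤ R * H := mul_le_mul_of_nonneg_right h3 (by positivity)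
    nlinarith [abs_nonneg (u j)]
  rw [Set.mem_Icc]
  exact ⟨fun j => (abs_le.1 (hb j)).1, fun j => (abs_le.1 (hb j)).2⟩

lemma cnt_sub_up (t : ι → ℤ) (H T : ℕ) (hT : ∀ i, |t i| ≤ (T : ℤ)) :
    cnt c t H ⊆ cnt c 0 (H + T) := by
  intro z hz i
  have h1 := hz i
  have h2 := hT i
  simp only [Pi.zero_apply, zero_add]
  have h3 : ∑ j, z j * c i j = (t i + ∑ j, z j * c i j) - t i := by ring
  rw [h3]
  have := abs_sub (t i + ∑ j, z j * c i j) (t i)
  push_cast
  linarith

lemma cnt_finite (t : ι → ℤ) (H : ℕ) : (cnt c t H).Finite := by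
  obtain ⟨T, hT⟩ : ∃ T : ℕ, ∀ i, |t i| ≤ (T : ℤ) := by
    refine ⟨(∑ i, |t i|).toNat, fun i => ?_⟩
    have h1 : 0 ≤ ∑ i, |t i| := Finset.sum_nonneg fun _ _ => abs_nonneg _
    rw [Int.toNat_of_nonneg h1]
    exact Finset.single_le_sum (f := fun i => |t i|) (fun _ _ => abs_nonneg _) (Finset.mem_univ i)
  exact (cnt_finite0 c hc (H + T)).subset (cnt_sub_up c hc t H T hT)

omit hc in
lemma cnt_sub_low (t : ι → ℤ) (H T : ℕ) (hT : ∀ i, |t i| ≤ (T : ℤ)) :
    cnt c 0 H ⊆ cnt c t (H + T) := by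
  intro z hz i
  have h1 := hz i
  have h2 := hT i
  simp only [Pi.zero_apply, zero_add] at h1
  have := abs_add_le (t i) (∑ j, z j * c i j)
  push_cast
  linarith

open scoped Pointwise in
lemma tendsto_zero :
    Tendsto (fun H : ℕ => ((cnt c 0 H).ncard : ℝ) / (H : ℝ) ^ m) atTop
      (𝓝 (vol fun i j => (c i j : ℝ))) := by
  have key := tendsto_card_div_pow_atTop_volume (K fun i j => (c i j : ℝ)) (K_bounded c hc)
    (K_closed _).measurableSet ((K_convex _).addHaar_frontier volume)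
  rw [Fintype.card_fin] at key
  refine key.congr' ?_
  filter_upwards [eventually_ge_atTop 1] with n hn
  congr 2
  have hn0 : (n : ℝ) ≠ 0 := by
    have : (1 : ℝ) ≤ n := by exact_mod_cast hn
    linarith
  have hnp : (0 : ℝ) < n := by
    have : (1 : ℝ) ≤ n := by exact_mod_cast hn
    linarith
  have hb : K (fun i j => (c i j : ℝ)) ∩
      (n : ℝ)⁻¹ • (Submodule.span ℤ (Set.range (Pi.basisFun ℝ (Fin m))) : Set (Fin m → ℝ)) =
      (fun b : Fin m → ℤ => fun j => (n : ℝ)⁻¹ * (b j : ℝ)) '' cnt c 0 n := by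
    ext u
    constructor
    · rintro ⟨hu, hL⟩
      rw [Set.mem_smul_set] at hL
      obtain ⟨w, hw, rfl⟩ := hL
      rw [SetLike.mem_coe, Module.Basis.mem_span_iff_repr_mem] at hw
      choose b hb using hw
      have hb' : ∀ j, w j = (b j : ℝ) := by
        intro j
        have := hb j
        simp only [Pi.basisFun_repr, algebraMap_int_eq, eq_intCast] at this
        exact this.symm
      refine ⟨b, ?_, ?_⟩
      · intro i
        have h1 := hu i
        simp only [Pi.smul_apply, smul_eq_mul, mul_assoc] at h1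
        rw [← Finset.mul_sum, abs_mul, abs_of_nonneg (by positivity), inv_mul_le_iff₀ hnp,
          mul_one] at h1
        simp only [hb'] at h1
        simp only [Pi.zero_apply, zero_add]
        exact_mod_cast h1
      · funext j
        simp [hb' j]
    · rintro ⟨b, hb, rfl⟩
      refine ⟨?_, ?_⟩
      · intro i
        have h1 := hb i
        simp only [Pi.zero_apply, zero_add] at h1
        have h2 : |∑ j, ((b j : ℤ) : ℝ) * (c i j : ℝ)| ≤ n := by exact_mod_cast h1
        simp only [mul_assoc]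
        rw [← Finset.mul_sum, abs_mul, abs_of_nonneg (by positivity), inv_mul_le_iff₀ hnp, mul_one]
        exact h2
      · rw [Set.mem_smul_set]
        refine ⟨fun j => (b j : ℝ), ?_, ?_⟩
        · rw [SetLike.mem_coe, Module.Basis.mem_span_iff_repr_mem]
          intro j
          exact ⟨b j, by simp⟩
        · funext j
          simp
  rw [hb, Nat.card_image_of_injective, Nat.card_coe_set_eq]
  intro b b' h
  funext j
  have h1 := congrFun h j
  simp only at h1
  have h2 := mul_left_cancel₀ (inv_ne_zero hn0) h1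
  exact_mod_cast h2

omit hc in
lemma tendsto_shift (n k : ℕ) :
    Tendsto (fun H : ℕ => (((H + k : ℕ) : ℝ) / (H : ℝ)) ^ n) atTop (𝓝 1) := by
  have h1 : Tendsto (fun H : ℕ => ((H + k : ℕ) : ℝ) / (H : ℝ)) atTop (𝓝 1) := by
    have h2 : Tendsto (fun H : ℕ => 1 + (k : ℝ) / (H : ℝ)) atTop (𝓝 (1 + 0)) :=
      tendsto_const_nhds.add (tendsto_const_div_atTop_nhds_zero_nat (k : ℝ))
    rw [add_zero] at h2
    refine h2.congr' ?_
    filter_upwards [eventually_ge_atTop 1] with H hH
    have : (0 : ℝ) < H := by exact_mod_cast hH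
    push_cast
    field_simp
  simpa using h1.pow n

/-- **The number of lattice points.** -/
theorem tendsto_cnt (t : ι → ℤ) :
    Tendsto (fun H : ℕ => ((cnt c t H).ncard : ℝ) / (H : ℝ) ^ m) atTop
      (𝓝 (vol fun i j => (c i j : ℝ))) := by
  have h0 := tendsto_zero c hc
  obtain ⟨k, hk⟩ : ∃ T : ℕ, ∀ i, |t i| ≤ (T : ℤ) := by
    refine ⟨(∑ i, |t i|).toNat, fun i => ?_⟩
    have h1 : 0 ≤ ∑ i, |t i| := Finset.sum_nonneg fun _ _ => abs_nonneg _
    rw [Int.toNat_of_nonneg h1]
    exact Finset.single_le_sum (f := fun i => |t i|) (fun _ _ => abs_nonneg _) (Finset.mem_univ i)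
  -- it is enough to treat the shifted sequence
  rw [← tendsto_add_atTop_iff_nat k]
  have hup : Tendsto (fun H : ℕ => ((cnt c 0 (H + (k + k))).ncard : ℝ) /
      ((H + (k + k) : ℕ) : ℝ) ^ m) atTop (𝓝 (vol fun i j => (c i j : ℝ))) :=
    h0.comp (tendsto_add_atTop_nat (k + k))
  have s1 := tendsto_shift m (k + k)
  have s2 := tendsto_shift m k
  have hup' : Tendsto (fun H : ℕ => ((cnt c 0 (H + (k + k))).ncard : ℝ) /
      ((H + (k + k) : ℕ) : ℝ) ^ m * (((H + (k + k) : ℕ) : ℝ) / (H : ℝ)) ^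
        m / ((((H + k : ℕ) : ℝ) / (H : ℝ)) ^ m)) atTop
      (𝓝 (vol (fun i j => (c i j : ℝ)) * 1 / 1)) := (hup.mul s1).div s2 one_ne_zero
  have hlow' : Tendsto (fun H : ℕ => ((cnt c 0 H).ncard : ℝ) / (H : ℝ) ^ m /
      ((((H + k : ℕ) : ℝ) / (H : ℝ)) ^ m)) atTop
      (𝓝 (vol (fun i j => (c i j : ℝ)) / 1)) := h0.div s2 one_ne_zero
  rw [mul_one, div_one] at hup'
  rw [div_one] at hlow'
  refine tendsto_of_tendsto_of_tendsto_of_le_of_le' hlow' hup' ?_ ?_
  · filter_upwards [eventually_ge_atTop 1] with H hH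
    have hH0 : (0 : ℝ) < H := by exact_mod_cast hH
    have h2 : ((cnt c 0 H).ncard : ℝ) ≤ (cnt c t (H + k)).ncard := by
      exact_mod_cast Set.ncard_le_ncard (cnt_sub_low c t H k hk) (cnt_finite c hc t _)
    have h3 : (0 : ℝ) < ((H + k : ℕ) : ℝ) := by exact_mod_cast (by omega : 0 < H + k)
    rw [div_pow, div_div, mul_div_cancel₀ _ (by positivity)]
    gcongr
  · filter_upwards [eventually_ge_atTop 1] with H hH
    have hH0 : (0 : ℝ) < H := by exact_mod_cast hH
    have h1 := cnt_sub_up c hc t (H + k) k hk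
    rw [add_assoc] at h1
    have h2 : ((cnt c t (H + k)).ncard : ℝ) ≤ (cnt c 0 (H + (k + k))).ncard := by
      exact_mod_cast Set.ncard_le_ncard h1 (cnt_finite c hc 0 _)
    have h3 : (0 : ℝ) < ((H + k : ℕ) : ℝ) := by exact_mod_cast (by omega : 0 < H + k)
    have h4 : (0 : ℝ) < ((H + (k + k) : ℕ) : ℝ) := by exact_mod_cast (by omega : 0 < H + (k + k))
    have e : ((cnt c 0 (H + (k + k))).ncard : ℝ) /
      ((H + (k + k) : ℕ) : ℝ) ^ m * (((H + (k + k) : ℕ) : ℝ) / (H : ℝ)) ^
        m / ((((H + k : ℕ) : ℝ) / (H : ℝ)) ^ m) =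
        ((cnt c 0 (H + (k + k))).ncard : ℝ) / ((H + k : ℕ) : ℝ) ^ m := by
      rw [div_pow, div_pow]
      field_simp
    rw [e]
    gcongr

end

/-! ### systems -/

section

variable {κ : Type} [Fintype κ] [DecidableEq ι]

/-- the coordinates of a basis of the kernel -/
noncomputable def kerB (L : (ι → ℤ) →ₗ[ℤ] (κ → ℤ)) :
    ι → Fin (Module.finrank ℤ (LinearMap.ker L)) → ℤ :=
  fun i j => ((Module.finBasis ℤ (LinearMap.ker L)) j : ι → ℤ) i

lemma kerB_inj (L : (ι → ℤ) →ₗ[ℤ] (κ → ℤ)) (z : Fin (Module.finrank ℤ (LinearMap.ker L)) → ℤ)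
    (hz : ∀ i, ∑ j, z j * kerB L i j = 0) : z = 0 := by
  have h1 : ∑ j, z j • (Module.finBasis ℤ (LinearMap.ker L)) j = 0 := by
    apply Subtype.ext
    funext i
    have h2 := hz i
    unfold kerB at h2
    simp only [Submodule.coe_sum, Submodule.coe_smul, Finset.sum_apply, Pi.smul_apply,
      smul_eq_mul, Submodule.coe_zero, Pi.zero_apply]
    exact h2
  have h2 := (Fintype.linearIndependent_iff.1 (Module.finBasis ℤ (LinearMap.ker L)).linearIndependent)
    z h1
  funext j
  exact h2 j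

/-- the density of the solutions -/
noncomputable def dens (L : (ι → ℤ) →ₗ[ℤ] (κ → ℤ)) : ℝ := vol fun i j => (kerB L i j : ℝ)

lemma dens_pos (L : (ι → ℤ) →ₗ[ℤ] (κ → ℤ)) : 0 < dens L := vol_pos _ (kerB_inj L)

/-- **The number of solutions of a linear system in a box.** -/
theorem tendsto_system (L : (ι → ℤ) →ₗ[ℤ] (κ → ℤ)) (t : ι → ℤ) {m : ℕ}
    (hm : Module.finrank ℤ (LinearMap.ker L) = m) :
    Tendsto (fun H : ℕ => (Set.ncard {a : ι → ℤ | (∀ i, |a i| ≤ (H : ℤ)) ∧ L a = L t} : ℝ) /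
      (H : ℝ) ^ m) atTop (𝓝 (dens L)) := by
  subst hm
  refine (tendsto_cnt (kerB L) (kerB_inj L) t).congr fun H => ?_
  congr 2
  refine Set.ncard_congr (fun z _ => fun i => t i + ∑ j, z j * kerB L i j) ?_ ?_ ?_
  · intro z hz
    refine ⟨fun i => hz i, ?_⟩
    have h1 : (fun i => t i + ∑ j, z j * kerB L i j) =
        t + ((∑ j, z j • (Module.finBasis ℤ (LinearMap.ker L)) j : LinearMap.ker L) : ι → ℤ) := by
      funext i
      simp only [Submodule.coe_sum, Submodule.coe_smul, Finset.sum_apply, Pi.smul_apply,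
        smul_eq_mul, Pi.add_apply, kerB]
    rw [h1, map_add, LinearMap.mem_ker.1 (Subtype.property _), add_zero]
  · intro z z' _ _ h
    have h1 : z - z' = 0 := by
      apply kerB_inj L
      intro i
      have h2 := congrFun h i
      simp only [Pi.sub_apply, sub_mul, Finset.sum_sub_distrib]
      linarith
    exact sub_eq_zero.1 h1
  · rintro a ⟨ha, hL⟩
    have hk : a - t ∈ LinearMap.ker L := by
      rw [LinearMap.mem_ker, map_sub, hL, sub_self]
    obtain ⟨b, hb⟩ : ∃ b : LinearMap.ker L, b = ⟨a - t, hk⟩ := ⟨_, rfl⟩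
    have h1 := (Module.finBasis ℤ (LinearMap.ker L)).sum_repr b
    have h2 : (fun i => t i + ∑ j, (Module.finBasis ℤ (LinearMap.ker L)).repr b j * kerB L i j) =
        a := by
      funext i
      have h3 := congrArg (fun x : LinearMap.ker L => (x : ι → ℤ) i) h1
      simp only [Submodule.coe_sum, Submodule.coe_smul, Finset.sum_apply, Pi.smul_apply,
        smul_eq_mul] at h3
      unfold kerB
      rw [h3, hb]
      simp
    refine ⟨fun j => (Module.finBasis ℤ (LinearMap.ker L)).repr b j, ?_, h2⟩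
    intro i
    have h3 := congrFun h2 i
    rw [h3]
    exact ha i

end

end Pool.Agent.Run7.h953.KP
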