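import Pool.Agent.Run7.h953.KP.Cnt
import Pool.Agent.Run7.h953.KP.Lat
import Pool.Agent.R414.DN.Exf

set_option autoImplicit false
set_option linter.unusedSectionVars false

/-! The evaluation of plane curves at several given points. -/

open Filter Topology Finset

namespace Pool.Agent.Run7.h953.KP

open Pool.Agent.R414.DN Pool.Agent.N656.LL

variable {e : ℕ}

/-- the evaluation at several points -/
def evS (e : ℕ) (S : Finset (ℤ × ℤ)) : Cf e →ₗ[ℤ] (↥S → ℤ) where
  toFun a := fun P => Fv (co a) e P.1.1 P.1.2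
  map_add' a a' := by
    funext P
    exact Fv_add a a' _ _
  map_smul' c a := by
    funext P
    simp only [Pi.smul_apply, smul_eq_mul, RingHom.id_apply]
    rw [Fv_sumI, Fv_sumI, mul_sum]
    refine sum_congr rfl fun p _ => ?_
    rw [Pi.smul_apply, smul_eq_mul]
    ring

lemma evS_apply (S : Finset (ℤ × ℤ)) (a : Cf e) (P : ↥S) :
    evS e S a P = Fv (co a) e P.1.1 P.1.2 := rfl

/-- values at one point only -/
lemma exists_one (S : Finset (ℤ × ℤ)) (hS : S.card ≤ e + 1) (P : ↥S) :
    ∃ a : Cf e, evS e S a P ≠ 0 ∧ ∀ Q : ↥S, Q ≠ P → evS e S a Q = 0 := by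
  classical
  obtain ⟨c, -, hc, -⟩ := exists_dir S (le_refl S.card)
  obtain ⟨g, hg⟩ : ∃ g : Polynomial ℤ, g = ∏ Q ∈ S.erase P.1,
    (Polynomial.X - Polynomial.C (Q.2 + (c : ℤ) * Q.1)) := ⟨_, rfl⟩
  have hdeg : g.natDegree < e + 1 := by
    rw [hg, Polynomial.natDegree_prod_of_monic _ _ fun Q _ => Polynomial.monic_X_sub_C _]
    simp only [Polynomial.natDegree_X_sub_C, sum_const, smul_eq_mul, mul_one]
    rw [card_erase_of_mem P.2]
    have : 0 < S.card := card_pos.2 ⟨_, P.2⟩
    omega
  have hval : ∀ Q : ↥S, evS e S (cfl e c g.coeff) Q = g.eval (Q.1.2 + (c : ℤ) * Q.1.1) := by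
    intro Q
    rw [evS_apply, Fv_cfl, Polynomial.eval_eq_sum_range' hdeg]
  refine ⟨cfl e c g.coeff, ?_, ?_⟩
  · rw [hval, hg, Polynomial.eval_prod, prod_ne_zero_iff]
    intro Q hQ h0
    rw [Polynomial.eval_sub, Polynomial.eval_X, Polynomial.eval_C, sub_eq_zero] at h0
    rw [mem_erase] at hQ
    exact hQ.1 (hc (mem_coe.2 P.2) (mem_coe.2 hQ.2) h0).symm
  · intro Q hQ
    rw [hval, hg, Polynomial.eval_prod]
    apply prod_eq_zero (i := Q.1)
    · rw [mem_erase]
      exact ⟨fun h => hQ (Subtype.ext h), Q.2⟩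
    · rw [Polynomial.eval_sub, Polynomial.eval_X, Polynomial.eval_C, sub_self]

lemma finrank_range (S : Finset (ℤ × ℤ)) (hS : S.card ≤ e + 1) :
    Module.finrank ℤ (LinearMap.range (evS e S)) = S.card := by
  classical
  apply le_antisymm
  · have h1 := Submodule.finrank_le (LinearMap.range (evS e S))
    rw [Module.finrank_fintype_fun_eq_card, Fintype.card_coe] at h1
    exact h1
  · choose a ha using fun P : ↥S => exists_one S hS P
    have h1 : LinearIndependent ℤ (fun P : ↥S =>
        (⟨evS e S (a P), LinearMap.mem_range_self _ _⟩ : LinearMap.range (evS e S))) := by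
      rw [Fintype.linearIndependent_iff]
      intro g hg P
      have h2 := congrArg (fun x : LinearMap.range (evS e S) => (x : ↥S → ℤ) P) hg
      simp only [Submodule.coe_sum, Submodule.coe_smul, Finset.sum_apply, Pi.smul_apply,
        smul_eq_mul, Submodule.coe_zero, Pi.zero_apply] at h2
      rw [sum_eq_single P] at h2
      · rcases mul_eq_zero.1 h2 with h3 | h3
        · exact h3
        · exact absurd h3 (ha P).1
      · intro Q _ hQ
        rw [(ha Q).2 P (Ne.symm hQ), mul_zero]
      · intro h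
        exact absurd (mem_univ P) h
    have h2 := h1.fintype_card_le_finrank
    rw [Fintype.card_coe] at h2
    exact h2

lemma finrank_ker (S : Finset (ℤ × ℤ)) (hS : S.card ≤ e + 1) :
    Module.finrank ℤ (LinearMap.ker (evS e S)) = MM e - S.card := by
  have h1 := Submodule.finrank_quotient_add_finrank (R := ℤ) (LinearMap.ker (evS e S))
  rw [LinearEquiv.finrank_eq (LinearMap.quotKerEquivRange (evS e S)), finrank_range S hS,
    Module.finrank_fintype_fun_eq_card] at h1
  unfold MM
  omega

/-- monomials of low degree -/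
lemma mono_low (S : Finset (ℤ × ℤ)) {i j : ℕ} (h : i + j ≤ e) :
    (fun P : ↥S => P.1.1 ^ i * P.1.2 ^ j) ∈ LinearMap.range (evS e S) := by
  classical
  have hm : (i + j, i) ∈ I e := by
    rw [mem_I]
    omega
  refine ⟨Pi.single ⟨(i + j, i), hm⟩ 1, ?_⟩
  funext P
  rw [evS_apply, Fv_sumI, sum_eq_single ⟨(i + j, i), hm⟩]
  · rw [Pi.single_eq_same, one_mul]
    simp only
    rw [Nat.add_sub_cancel_left]
  · intro p _ hp
    rw [Pi.single_eq_of_ne hp, zero_mul]
  · intro h
    exact absurd (mem_univ _) h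

/-- powers modulo the polynomial of the roots -/
lemma exists_redpow (R : Finset (ℤ × ℤ)) (f : ℤ × ℤ → ℤ) (hR : R.Nonempty) :
    ∃ g : ℕ → ℤ, ∀ P ∈ R, f P ^ R.card = ∑ l ∈ range R.card, g l * f P ^ l := by
  classical
  obtain ⟨q, hq⟩ : ∃ q : Polynomial ℤ, q = ∏ Q ∈ R, (Polynomial.X - Polynomial.C (f Q)) :=
    ⟨_, rfl⟩
  have hmon : q.Monic := by
    rw [hq]
    exact Polynomial.monic_prod_of_monic _ _ fun Q _ => Polynomial.monic_X_sub_C _
  have hdeg : q.natDegree = R.card := by
    rw [hq, Polynomial.natDegree_prod_of_monic _ _ fun Q _ => Polynomial.monic_X_sub_C _]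
    simp only [Polynomial.natDegree_X_sub_C, sum_const, smul_eq_mul, mul_one]
  refine ⟨fun l => -q.coeff l, fun P hP => ?_⟩
  have h0 : q.eval (f P) = 0 := by
    rw [hq, Polynomial.eval_prod]
    apply prod_eq_zero hP
    rw [Polynomial.eval_sub, Polynomial.eval_X, Polynomial.eval_C, sub_self]
  rw [Polynomial.eval_eq_sum_range, hdeg, sum_range_succ] at h0
  have h1 : q.coeff R.card = 1 := by
    rw [← hdeg]
    exact hmon
  rw [h1, one_mul] at h0
  simp only [neg_mul, sum_neg_distrib]
  linarith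

/-- monomials of degree `e + 1` -/
lemma mono_top (S : Finset (ℤ × ℤ)) (hS : 2 * S.card ≤ e + 1) {i j : ℕ} (h : i + j = e + 1) :
    (fun P : ↥S => P.1.1 ^ i * P.1.2 ^ j) ∈ LinearMap.range (evS e S) := by
  classical
  rcases S.eq_empty_or_nonempty with hE | hE
  · subst hE
    refine ⟨0, ?_⟩
    funext P
    exact absurd P.2 (notMem_empty _)
  · rcases Nat.lt_or_ge i S.card with hi | hi
    · have hj : S.card ≤ j := by omega
      obtain ⟨g, hg⟩ := exists_redpow S (fun P => P.2) hE
      have h1 : (fun P : ↥S => P.1.1 ^ i * P.1.2 ^ j) = ∑ l ∈ range S.card,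
          g l • (fun P : ↥S => P.1.1 ^ i * P.1.2 ^ (l + (j - S.card))) := by
        funext P
        rw [Finset.sum_apply]
        simp only [Pi.smul_apply, smul_eq_mul]
        have h2 : P.1.2 ^ j = P.1.2 ^ S.card * P.1.2 ^ (j - S.card) := by
          rw [← pow_add]
          congr 1
          omega
        rw [h2, hg P.1 P.2, sum_mul, mul_sum]
        refine sum_congr rfl fun l _ => ?_
        rw [pow_add]
        ring
      rw [h1]
      apply Submodule.sum_mem
      intro l hl
      rw [mem_range] at hl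
      exact Submodule.smul_mem _ _ (mono_low S (by omega))
    · obtain ⟨g, hg⟩ := exists_redpow S (fun P => P.1) hE
      have h1 : (fun P : ↥S => P.1.1 ^ i * P.1.2 ^ j) = ∑ l ∈ range S.card,
          g l • (fun P : ↥S => P.1.1 ^ (l + (i - S.card)) * P.1.2 ^ j) := by
        funext P
        rw [Finset.sum_apply]
        simp only [Pi.smul_apply, smul_eq_mul]
        have h2 : P.1.1 ^ i = P.1.1 ^ S.card * P.1.1 ^ (i - S.card) := by
          rw [← pow_add]
          congr 1
          omega
        rw [h2, hg P.1 P.2, sum_mul, sum_mul]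
        refine sum_congr rfl fun l _ => ?_
        rw [pow_add]
        ring
      rw [h1]
      apply Submodule.sum_mem
      intro l hl
      rw [mem_range] at hl
      exact Submodule.smul_mem _ _ (mono_low S (by omega))

/-- the values of a form are attained by polynomials of lower degree -/
lemma exists_lower {φ : MvPolynomial (Fin 2) ℤ} (hφ : φ.IsHomogeneous (e + 1))
    (S : Finset (ℤ × ℤ)) (hS : 2 * S.card ≤ e + 1) :
    ∃ t : Cf e, ∀ P : ↥S, evS e S t P = -MvPolynomial.eval ![P.1.1, P.1.2] φ := by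
  classical
  have h1 : (fun P : ↥S => MvPolynomial.eval ![P.1.1, P.1.2] φ) ∈ LinearMap.range (evS e S) := by
    have h2 : (fun P : ↥S => MvPolynomial.eval ![P.1.1, P.1.2] φ) = ∑ m ∈ φ.support,
        φ.coeff m • (fun P : ↥S => P.1.1 ^ (m 0) * P.1.2 ^ (m 1)) := by
      funext P
      rw [Finset.sum_apply, MvPolynomial.eval_eq']
      refine sum_congr rfl fun m _ => ?_
      simp [Fin.prod_univ_two]
    rw [h2]
    apply Submodule.sum_mem
    intro m hm
    apply Submodule.smul_mem
    apply mono_top S hS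
    have h3 := hφ (MvPolynomial.mem_support_iff.1 hm)
    rw [Finsupp.weight_apply, Finsupp.sum_fintype _ _ (fun _ => by simp)] at h3
    simpa [Fin.sum_univ_two] using h3
  obtain ⟨t, ht⟩ := h1
  refine ⟨-t, fun P => ?_⟩
  rw [map_neg, Pi.neg_apply, ht]

/-- the density of the polynomials with given zeros -/
noncomputable def VS (e : ℕ) (S : Finset (ℤ × ℤ)) : ℝ := dens (evS e S)

lemma VS_pos (S : Finset (ℤ × ℤ)) : 0 < VS e S := dens_pos _

/-- **The density of the curves through given points.** -/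
theorem lim_points {φ : MvPolynomial (Fin 2) ℤ} (hφ : φ.IsHomogeneous (e + 1))
    (S : Finset (ℤ × ℤ)) (hS : 2 * S.card ≤ e + 1) :
    Tendsto (fun H : ℕ => (Set.ncard {a | a ∈ ibox ↥(I e) H ∧
      ∀ P ∈ S, MvPolynomial.eval ![P.1, P.2] (φ + poly a) = 0} : ℝ) /
      (H : ℝ) ^ (MM e - S.card)) atTop (𝓝 (VS e S)) := by
  classical
  obtain ⟨t, ht⟩ := exists_lower hφ S hS
  refine (tendsto_system (evS e S) t (finrank_ker S (by omega))).congr fun H => ?_
  congr 3
  ext a
  constructor
  · rintro ⟨h1, h2⟩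
    refine ⟨mem_ibox.2 h1, fun P hP => ?_⟩
    have h3 := congrFun h2 ⟨P, hP⟩
    rw [ht ⟨P, hP⟩, evS_apply] at h3
    rw [map_add, eval_poly, h3]
    ring
  · rintro ⟨h1, h2⟩
    refine ⟨fun i => mem_ibox.1 h1 i, ?_⟩
    funext P
    have h3 := h2 P.1 P.2
    rw [map_add, eval_poly] at h3
    rw [ht P, evS_apply]
    linarith

end Pool.Agent.Run7.h953.KP
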