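import Pool.Agent.R414.DU.Sep

set_option autoImplicit false
set_option linter.unusedSectionVars false

/-! A Liouville bound for polynomials at an algebraic number, and the fibres over a full row. -/

open Finset

namespace Pool.Agent.Run7.h953.KP

open Pool.Agent.R414.DN Pool.Agent.R414.DS Pool.Agent.R414.DT Pool.Agent.R414.DU

section liou

open Polynomial

/-- **Liouville bound.** -/
theorem liouville_poly {f : ℤ[X]} {d : ℕ} (hd : 1 ≤ d) (hf : f.natDegree = d)
    (hirr : Irreducible (f.map (Int.castRingHom ℚ))) : ∃ c : ℝ, 0 < c ∧ ∀ α : ℝ, aeval α f = 0 →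
    ∀ u : ℤ[X], u ≠ 0 → u.natDegree < d → ∀ δ : ℝ, 1 ≤ δ → (∀ n, |(u.coeff n : ℝ)| ≤ δ) →
    c ≤ |aeval α u| * δ ^ (d - 1) := by
  classical
  have hf0 : f ≠ 0 := by
    rintro rfl
    rw [natDegree_zero] at hf
    omega
  obtain ⟨φ, hφ⟩ : ∃ φ : ℤ →+* ℂ, φ = Int.castRingHom ℂ := ⟨_, rfl⟩
  have hφi : Function.Injective φ := by
    rw [hφ]
    exact RingHom.injective_int _
  obtain ⟨R, hR⟩ : ∃ R : Multiset ℂ, R = (f.map φ).roots := ⟨_, rfl⟩
  obtain ⟨M, hM⟩ : ∃ M : ℝ, M = 1 + (R.map fun z => ‖z‖).sum := ⟨_, rfl⟩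
  have hsum0 : ∀ R' : Multiset ℂ, 0 ≤ (R'.map fun z => ‖z‖).sum := by
    intro R'
    apply Multiset.sum_nonneg
    intro x hx
    rw [Multiset.mem_map] at hx
    obtain ⟨z, -, rfl⟩ := hx
    exact norm_nonneg z
  have hM1 : 1 ≤ M := by
    rw [hM]
    linarith [hsum0 R]
  have hMR : ∀ z ∈ R, ‖z‖ ≤ M := by
    intro z hz
    obtain ⟨R', hR'⟩ := Multiset.exists_cons_of_mem hz
    rw [hM, hR', Multiset.map_cons, Multiset.sum_cons]
    linarith [hsum0 R']
  obtain ⟨lc, hlc⟩ : ∃ lc : ℝ, lc = max 1 |(f.leadingCoeff : ℝ)| := ⟨_, rfl⟩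
  have hlc1 : 1 ≤ lc := by rw [hlc]; exact le_max_left _ _
  have hd0 : (1 : ℝ) ≤ d := by exact_mod_cast hd
  refine ⟨1 / (lc ^ d * (d * M ^ d) ^ (d - 1)), by positivity, ?_⟩
  intro α hα u hu hud δ hδ hc
  obtain ⟨n, hn⟩ : ∃ n, n = u.natDegree := ⟨_, rfl⟩
  -- the resultant is a nonzero integer
  have hres : resultant f u f.natDegree n ≠ 0 := by
    intro h0
    have h1 : resultant (f.map (Int.castRingHom ℚ)) (u.map (Int.castRingHom ℚ)) f.natDegree n = 0 := by
      rw [resultant_map_map, h0, map_zero]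
    have hinj : Function.Injective (Int.castRingHom ℚ) := RingHom.injective_int _
    rw [hn, ← natDegree_map_eq_of_injective hinj u, ← natDegree_map_eq_of_injective hinj f] at h1
    apply resultant_ne_zero _ _ _ h1
    rw [hirr.coprime_iff_not_dvd]
    intro h2
    have h3 : u.map (Int.castRingHom ℚ) ≠ 0 := by
      intro h4
      exact hu ((Polynomial.map_eq_zero_iff hinj).1 h4)
    have h5 := natDegree_le_of_dvd h2 h3
    rw [natDegree_map_eq_of_injective hinj, natDegree_map_eq_of_injective hinj, hf] at h5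
    omega
  have hone : 1 ≤ ‖φ (resultant f u f.natDegree n)‖ := by
    rw [hφ]
    simp only [eq_intCast, Complex.norm_intCast]
    have := Int.one_le_abs hres
    exact_mod_cast this
  have hsplit : (f.map φ).Splits := IsAlgClosed.splits _
  have hnd : (f.map φ).natDegree = f.natDegree := natDegree_map_eq_of_injective hφi f
  have hprod := resultant_eq_prod_eval (f.map φ) (u.map φ) n (by
    rw [natDegree_map_eq_of_injective hφi, hn]) hsplit
  rw [hnd, resultant_map_map, ← hR, leadingCoeff_map_of_injective hφi] at hprod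
  -- the root
  have hαR : (α : ℂ) ∈ R := by
    rw [hR, mem_roots ((Polynomial.map_ne_zero_iff hφi).2 hf0), IsRoot.def, eval_map, hφ]
    have h1 : ((aeval α f : ℝ) : ℂ) = 0 := by rw [hα]; simp
    rw [← h1, aeval_def, eval₂_eq_sum_range, eval₂_eq_sum_range]
    push_cast
    refine Finset.sum_congr rfl fun i _ => ?_
    simp
  obtain ⟨R', hR'⟩ := Multiset.exists_cons_of_mem hαR
  have hcardR : Multiset.card R = d := by
    rw [hR, ← hf, ← hnd]
    exact hsplit.natDegree_eq_card_roots.symm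
  have hcardR' : Multiset.card R' = d - 1 := by
    rw [hR', Multiset.card_cons] at hcardR
    omega
  rw [hR', Multiset.map_cons, Multiset.prod_cons] at hprod
  have hval : ‖(u.map φ).eval (α : ℂ)‖ = |aeval α u| := by
    have h1 : (u.map φ).eval (α : ℂ) = ((aeval α u : ℝ) : ℂ) := by
      rw [eval_map, hφ, aeval_def, eval₂_eq_sum_range, eval₂_eq_sum_range]
      push_cast
      refine Finset.sum_congr rfl fun i _ => ?_
      simp
    rw [h1, Complex.norm_real, Real.norm_eq_abs]
  have hbd : ∀ z ∈ R', ‖(u.map φ).eval z‖ ≤ d * M ^ d * δ := by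
    intro z hz
    have hzM : ‖z‖ ≤ M := hMR z (by rw [hR']; exact Multiset.mem_cons_of_mem hz)
    rw [eval_map, hφ, eval₂_eq_sum_range]
    refine (norm_sum_le _ _).trans ?_
    calc ∑ i ∈ range (u.natDegree + 1), ‖(Int.castRingHom ℂ) (u.coeff i) * z ^ i‖
        ≤ ∑ _i ∈ range (u.natDegree + 1), δ * M ^ d := by
          refine Finset.sum_le_sum fun i hi => ?_
          rw [mem_range] at hi
          rw [norm_mul, norm_pow]
          simp only [eq_intCast, Complex.norm_intCast]
          have h1 : ‖z‖ ^ i ≤ M ^ d := by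
            calc ‖z‖ ^ i ≤ M ^ i := by gcongr
              _ ≤ M ^ d := pow_le_pow_right₀ hM1 (by omega)
          have h2 := hc i
          gcongr
      _ = (u.natDegree + 1 : ℕ) * (δ * M ^ d) := by
          rw [sum_const, card_range, nsmul_eq_mul]
      _ ≤ d * (δ * M ^ d) := by
          have h3 : ((u.natDegree + 1 : ℕ) : ℝ) ≤ d := by exact_mod_cast hud
          gcongr
      _ = _ := by ring
  have hprod' : ∀ R'' : Multiset ℂ, (∀ z ∈ R'', ‖(u.map φ).eval z‖ ≤ d * M ^ d * δ) →
      ‖(R''.map (u.map φ).eval).prod‖ ≤ (d * M ^ d * δ) ^ Multiset.card R'' := by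
    intro R''
    induction R'' using Multiset.induction with
    | empty => intro _; simp
    | cons z s ih =>
      intro h
      rw [Multiset.map_cons, Multiset.prod_cons, norm_mul, Multiset.card_cons, pow_succ']
      have h1 := h z (Multiset.mem_cons_self z s)
      have h2 := ih fun w hw => h w (Multiset.mem_cons_of_mem hw)
      have h3 : (0 : ℝ) ≤ d * M ^ d * δ := by positivity
      exact mul_le_mul h1 h2 (norm_nonneg _) h3
  have h1 := hprod' R' hbd
  rw [hcardR'] at h1
  rw [hprod, norm_mul, norm_mul, norm_pow, hval] at hone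
  have hlcn : ‖φ f.leadingCoeff‖ ≤ lc := by
    rw [hφ, hlc]
    simp only [eq_intCast, Complex.norm_intCast]
    exact le_max_right _ _
  have h2 : ‖φ f.leadingCoeff‖ ^ n ≤ lc ^ d := by
    calc ‖φ f.leadingCoeff‖ ^ n ≤ lc ^ n := by gcongr
      _ ≤ lc ^ d := pow_le_pow_right₀ hlc1 (by omega)
  rw [div_le_iff₀ (by positivity)]
  calc (1 : ℝ) ≤ ‖φ f.leadingCoeff‖ ^ n * (|aeval α u| * ‖(R'.map (u.map φ).eval).prod‖) := hone
    _ ≤ lc ^ d * (|aeval α u| * (d * M ^ d * δ) ^ (d - 1)) := by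
        gcongr
    _ = _ := by
        rw [mul_pow (d * M ^ d : ℝ) δ]
        ring

end liou

variable {d : ℕ}

/-- Liouville bound for the roots of an irreducible leading form -/
lemma exists_liou {b : Cf d} (hd : 2 ≤ d) (hL : Lead b) : ∃ c : ℝ, 0 < c ∧ c ≤ 1 ∧ ∀ α : ℝ,
    TT (co b) d 0 α = 0 → ∀ ψ : ℕ → ℤ, ∀ δ : ℕ, 1 ≤ δ → (∀ j, j ≤ d - 2 → |ψ j| ≤ δ) →
    |∑ j ∈ range (d - 2 + 1), (ψ j : ℝ) * α ^ j| * (δ : ℝ) ^ (d - 1) < c →
    ∀ j, j ≤ d - 2 → ψ j = 0 := by
  classical
  obtain ⟨c, hc0, hc⟩ := liouville_poly (f := pl d (topRow b)) (d := d) (by omega)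
    (natDegree_pl (by exact hL.1)) hL.2
  refine ⟨min c 1, by positivity, min_le_right _ _, ?_⟩
  intro α hα ψ δ hδ hψ hlt j hj
  by_contra hne
  obtain ⟨u, hu⟩ : ∃ u : Polynomial ℤ, u = ∑ j ∈ range (d - 2 + 1),
    Polynomial.C (ψ j) * Polynomial.X ^ j := ⟨_, rfl⟩
  have hcoef : ∀ n, u.coeff n = if n ∈ range (d - 2 + 1) then ψ n else 0 := by
    intro n
    rw [hu, Polynomial.finsetSum_coeff]
    simp only [Polynomial.coeff_C_mul_X_pow]
    rw [sum_ite_eq]
  have hu0 : u ≠ 0 := by
    intro h0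
    have h1 := hcoef j
    rw [h0, Polynomial.coeff_zero, if_pos (mem_range.2 (by omega))] at h1
    exact hne h1.symm
  have hud : u.natDegree < d := by
    have h1 : u.natDegree ≤ d - 2 := by
      rw [hu]
      apply Polynomial.natDegree_sum_le_of_forall_le
      intro i hi
      rw [mem_range] at hi
      refine (Polynomial.natDegree_C_mul_X_pow_le _ _).trans ?_
      omega
    omega
  have hroot : Polynomial.aeval α (pl d (topRow b)) = 0 := by
    rw [← hα, TT_zero]
    unfold pl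
    rw [map_sum, ← Fin.sum_univ_eq_sum_range (fun j => (co b d j : ℝ) * α ^ j)]
    refine sum_congr rfl fun i _ => ?_
    simp [topRow]
  have hδ' : (1 : ℝ) ≤ δ := by exact_mod_cast hδ
  have h1 := hc α hroot u hu0 hud δ hδ' (by
    intro n
    rw [hcoef]
    split_ifs with h
    · rw [mem_range] at h
      have := hψ n (by omega)
      exact_mod_cast this
    · simp)
  have h2 : Polynomial.aeval α u = ∑ j ∈ range (d - 2 + 1), (ψ j : ℝ) * α ^ j := by
    rw [hu, map_sum]
    refine sum_congr rfl fun j _ => ?_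
    simp
  rw [h2] at h1
  have := min_le_left c 1
  linarith

/-- the indices of the third row -/
def JR (d : ℕ) : Finset ↥(I d) := univ.filter fun p => p.1.1 = d - 2

lemma card_JR (hd : 2 ≤ d) : (JR d).card = d - 1 := by
  have : (JR d).card = (range (d - 1)).card := by
    refine card_bij' (fun p _ => p.1.2)
      (fun k hk => ⟨(d - 2, k), by rw [mem_range] at hk; rw [mem_I]; omega⟩) ?_ ?_ ?_ ?_
    · intro p hp
      unfold JR at hp
      rw [mem_filter] at hp
      have := mem_I.1 p.2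
      rw [mem_range]
      omega
    · intro k hk
      unfold JR
      rw [mem_filter]
      exact ⟨mem_univ _, rfl⟩
    · intro p hp
      unfold JR at hp
      rw [mem_filter] at hp
      apply Subtype.ext
      apply Prod.ext
      · exact hp.2.symm
      · rfl
    · intro k hk
      rfl
  rw [this, card_range]

section row

variable {T : Finset (Cf d)} {c : Cf d} (hTb : ∀ a ∈ T, ∀ i ∉ JR d, a i = c i)

include hTb

lemma row_co {a a' : Cf d} (ha : a ∈ T) (ha' : a' ∈ T) {k : ℕ} (i : ℕ) (hk : k ≠ d - 2) :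
    co a k i = co a' k i := by
  by_cases hmem : (k, i) ∈ I d
  · have hpJ : (⟨(k, i), hmem⟩ : ↥(I d)) ∉ JR d := by
      unfold JR
      rw [mem_filter]
      rintro ⟨-, h4⟩
      exact hk h4
    rw [co_of_mem a hmem, co_of_mem a' hmem, hTb a ha _ hpJ, hTb a' ha' _ hpJ]
  · unfold co
    rw [dif_neg hmem, dif_neg hmem]

lemma row_TT {a a' : Cf d} (ha : a ∈ T) (ha' : a' ∈ T) {k : ℕ} (i : ℕ) (t : ℝ)
    (hk : k ≠ d - 2) : TT (co a) k i t = TT (co a') k i t := by
  unfold TT
  refine sum_congr rfl fun j _ => ?_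
  rw [row_co hTb ha ha' j hk]

lemma row_det (hd : 2 ≤ d) {a a' : Cf d} (ha : a ∈ T) (ha' : a' ∈ T)
    (h : ∀ j, j ≤ d - 2 → co a (d - 2) j = co a' (d - 2) j) : a = a' := by
  funext p
  by_cases hp : p ∈ JR d
  · unfold JR at hp
    rw [mem_filter] at hp
    have hpI := mem_I.1 p.2
    have h8 : (d - 2, p.1.2) ∈ I d := by rw [mem_I]; omega
    have h9 : p = ⟨(d - 2, p.1.2), h8⟩ := by
      apply Subtype.ext
      apply Prod.ext
      · exact hp.2
      · rfl
    have h7 := h p.1.2 (by omega)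
    rw [co_of_mem a h8, co_of_mem a' h8] at h7
    rw [h9]
    exact h7
  · rw [hTb a ha p hp, hTb a' ha' p hp]

end row

/-- **The fibre bound for the second condition, a full row.** -/
lemma fiber_row {H δ : ℕ} {g cL : ℝ} (hd : 3 ≤ d) {b : Cf d} (hNR : NoRoot (co b) d)
    (hcL : ∀ α : ℝ, TT (co b) d 0 α = 0 → ∀ ψ : ℕ → ℤ, ∀ δ : ℕ, 1 ≤ δ →
      (∀ j, j ≤ d - 2 → |ψ j| ≤ δ) →
      |∑ j ∈ range (d - 2 + 1), (ψ j : ℝ) * α ^ j| * (δ : ℝ) ^ (d - 1) < cL →
      ∀ j, j ≤ d - 2 → ψ j = 0)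
    (hδ : 1 ≤ δ) (hg : 2 * g * (δ : ℝ) ^ (d - 1) < cL) (c : Cf d)
    (T : Finset (Cf d)) (hT : T ⊆ QF b H) (hTb : ∀ a ∈ T, ∀ i ∉ JR d, a i = c i)
    (hG : ∀ a ∈ T, ¬ GB (co a) d g) :
    (T.card : ℝ) ≤ d * ((2 * H / (δ + 1) + 1 : ℕ) : ℝ) ^ (d - 1) := by
  classical
  rcases T.eq_empty_or_nonempty with h0 | ⟨a₀, h0⟩
  · rw [h0, card_empty, Nat.cast_zero]
    positivity
  obtain ⟨E, hE⟩ : ∃ E : ℝ → ℝ, E = fun α =>
    TT (co a₀) (d - 1) 1 α * bet (co a₀) d α + TT (co a₀) d 2 α * bet (co a₀) d α ^ 2 := ⟨_, rfl⟩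
  have e3 : ∀ a ∈ T, ∀ t, bet (co a) d t = bet (co a₀) d t := by
    intro a ha t
    unfold bet
    rw [row_TT hTb ha h0 _ _ (by omega), row_TT hTb ha h0 _ _ (by omega)]
  have key := card_cover (S := T) (K := rts (co b) d)
    (fun α a => |(∑ j ∈ range (d - 2 + 1), (co a (d - 2) j : ℝ) * α ^ j) + E α| ≤ g)
    (B := ((2 * H / (δ + 1) + 1 : ℕ) : ℝ) ^ (d - 1)) ?_ ?_
  · refine key.trans ?_
    have h1 := card_rts (co b) d
    have h3 : ((rts (co b) d).card : ℝ) ≤ d := by exact_mod_cast h1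
    gcongr
  · intro a ha
    have h2 := hG a ha
    unfold GB at h2
    push Not at h2
    obtain ⟨α, -, h3, h4, h5⟩ := h2
    refine ⟨α, ?_, ?_⟩
    · apply mem_rts hNR
      rw [← TT_row (mem_QF.1 (hT ha)).2]
      exact h3
    · have h6 : TT (co a) d 1 α * gam (co a) d α =
          -((∑ j ∈ range (d - 2 + 1), (co a (d - 2) j : ℝ) * α ^ j) + E α) := by
        rw [← TT_zero]
        unfold gam
        rw [hE]
        simp only
        rw [e3 a ha, row_TT hTb ha h0 (k := d - 1) _ _ (by omega),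
          row_TT hTb ha h0 (k := d) 2 _ (by omega)]
        field_simp
        ring
      rw [h6, abs_neg] at h5
      exact h5.le
  · intro α hα T' hT' hP
    have hroot : TT (co b) d 0 α = 0 := by
      unfold rts at hα
      rw [Multiset.mem_toFinset, Polynomial.mem_roots'] at hα
      have h1 := hα.2
      rw [Polynomial.IsRoot, Polynomial.eval_finsetSum] at h1
      rw [TT_zero, ← h1]
      refine sum_congr rfl fun j _ => ?_
      simp
    have hcard : (Fintype.piFinset fun _ : Fin (d - 1) => range (2 * H / (δ + 1) + 1)).card =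
        (2 * H / (δ + 1) + 1) ^ (d - 1) := by
      rw [Fintype.card_piFinset]
      simp
    rw [← Nat.cast_pow, ← hcard]
    apply Nat.cast_le.2
    apply card_le_card_of_injOn (fun a => fun j : Fin (d - 1) =>
      ((co a (d - 2) j + H) / ((δ : ℤ) + 1)).toNat)
    · intro a ha
      rw [mem_coe] at ha
      rw [mem_coe, Fintype.mem_piFinset]
      intro j
      rw [mem_range, Nat.lt_succ_iff]
      have h1 := abs_le.1 (co_le (QF_sub b H (hT (hT' ha))) (d - 2) j)
      apply Int.toNat_le.2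
      push_cast
      apply Int.ediv_le_ediv (by positivity)
      linarith
    · intro a ha a' ha' haa
      rw [mem_coe] at ha ha'
      apply row_det hTb (by omega) (hT' ha) (hT' ha')
      have hcl : ∀ j, j ≤ d - 2 → |co a (d - 2) j - co a' (d - 2) j| ≤ δ := by
        intro j hj
        have h1 := abs_le.1 (co_le (QF_sub b H (hT (hT' ha))) (d - 2) j)
        have h2 := abs_le.1 (co_le (QF_sub b H (hT (hT' ha'))) (d - 2) j)
        have h3 := congrFun haa ⟨j, by omega⟩
        simp only at h3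
        have hV0 : (0 : ℤ) < (δ : ℤ) + 1 := by positivity
        have e1 : 0 ≤ (co a (d - 2) j + H) / ((δ : ℤ) + 1) := Int.ediv_nonneg (by linarith) hV0.le
        have e2 : 0 ≤ (co a' (d - 2) j + H) / ((δ : ℤ) + 1) := Int.ediv_nonneg (by linarith) hV0.le
        have e3 : (co a (d - 2) j + H) / ((δ : ℤ) + 1) = (co a' (d - 2) j + H) / ((δ : ℤ) + 1) := by
          rw [← Int.toNat_of_nonneg e1, ← Int.toNat_of_nonneg e2, h3]
        have f1 := Int.mul_ediv_add_emod (co a (d - 2) j + H) ((δ : ℤ) + 1)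
        have f2 := Int.mul_ediv_add_emod (co a' (d - 2) j + H) ((δ : ℤ) + 1)
        have f3 := Int.emod_nonneg (co a (d - 2) j + H) hV0.ne'
        have f4 := Int.emod_nonneg (co a' (d - 2) j + H) hV0.ne'
        have f5 := Int.emod_lt_of_pos (co a (d - 2) j + H) hV0
        have f6 := Int.emod_lt_of_pos (co a' (d - 2) j + H) hV0
        rw [e3] at f1
        rw [abs_le]
        constructor <;> linarith
      have h5 := hcL α hroot (fun j => co a (d - 2) j - co a' (d - 2) j) δ hδ hcl (by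
        refine lt_of_le_of_lt ?_ hg
        have g1 := abs_le.1 (hP a ha)
        have g2 := abs_le.1 (hP a' ha')
        have g3 : ∑ j ∈ range (d - 2 + 1), ((co a (d - 2) j - co a' (d - 2) j : ℤ) : ℝ) * α ^ j =
            (∑ j ∈ range (d - 2 + 1), (co a (d - 2) j : ℝ) * α ^ j) -
            ∑ j ∈ range (d - 2 + 1), (co a' (d - 2) j : ℝ) * α ^ j := by
          rw [← sum_sub_distrib]
          refine sum_congr rfl fun j _ => ?_
          push_cast
          ring
        rw [g3]
        have g4 : |(∑ j ∈ range (d - 2 + 1), (co a (d - 2) j : ℝ) * α ^ j) -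
            ∑ j ∈ range (d - 2 + 1), (co a' (d - 2) j : ℝ) * α ^ j| ≤ 2 * g := by
          rw [abs_le]
          constructor <;> linarith [g1.1, g1.2, g2.1, g2.2]
        gcongr)
      intro j hj
      have := h5 j hj
      linarith

/-- fibres of the curves that violate the condition on lines, a full row -/
lemma lines_row (hd : 4 ≤ d) (T : Finset (Cf d)) (c : Cf d)
    (hTb : ∀ a ∈ T, ∀ i ∉ JR d, a i = c i)
    (hz : ∀ a ∈ T, Lead a ∧ ¬ LinesC a) : T.card ≤ d := by
  classical
  rcases T.eq_empty_or_nonempty with h0 | ⟨a₀, h0⟩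
  · rw [h0, card_empty]
    exact Nat.zero_le _
  have hex : ∀ a ∈ T, ∃ t u : ℝ, TT (co a) d 0 t = 0 ∧
      TT (co a) (d - 1) 0 t + TT (co a) d 1 t * u = 0 ∧
      TT (co a) (d - 2) 0 t + TT (co a) (d - 1) 1 t * u + TT (co a) d 2 t * u ^ 2 = 0 :=
    fun a ha => lines_fail (by omega) (hz a ha).1 (hz a ha).2
  choose! t u htu using hex
  refine le_trans ?_ (card_rts (co a₀) d)
  apply card_le_card_of_injOn t
  · intro a ha
    rw [mem_coe] at ha ⊢
    apply mem_rts (noRoot_of_lead (by omega) (hz a₀ h0).1)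
    rw [row_TT hTb h0 ha (k := d) 0 _ (by omega)]
    exact (htu a ha).1
  · intro a ha a' ha' haa
    rw [mem_coe] at ha ha'
    obtain ⟨e1, e2, e3⟩ := htu a ha
    obtain ⟨e1', e2', e3'⟩ := htu a' ha'
    rw [← haa] at e1' e2' e3'
    have hne := TT1_ne (by omega) (hz a ha).1 e1
    rw [row_TT hTb ha' ha (k := d - 1) 0 _ (by omega), row_TT hTb ha' ha (k := d) 1 _ (by omega)]
      at e2'
    have hu : u a = u a' := by
      apply mul_left_cancel₀ hne
      linarith
    rw [row_TT hTb ha' ha (k := d - 1) 1 _ (by omega), row_TT hTb ha' ha (k := d) 2 _ (by omega),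
      ← hu] at e3'
    have h5 : ∑ j ∈ range (d - 2 + 1),
        (((fun j => co a (d - 2) j - co a' (d - 2) j) j : ℤ) : ℝ) * (t a) ^ j = 0 := by
      have h6 : TT (co a) (d - 2) 0 (t a) - TT (co a') (d - 2) 0 (t a) = 0 := by linarith
      rw [TT_zero, TT_zero, ← sum_sub_distrib] at h6
      rw [← h6]
      refine sum_congr rfl fun j _ => ?_
      push_cast
      ring
    have h6 := full_degree (hz a ha).1 e1 (by omega : d - 2 < d) _ h5
    apply row_det hTb (by omega) ha ha'
    intro j hj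
    have := h6 j hj
    linarith

end Pool.Agent.Run7.h953.KP
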