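import Mathlib

set_option autoImplicit false
set_option linter.unusedSectionVars false

/-! Integer polynomials in one variable with given zeros and bounded coefficients. -/

open Polynomial

namespace Pool.Agent.Run7.h953.KP

lemma div_one_root {b q : ℤ[X]} {t : ℤ} {e : ℕ} {B : ℝ} (hB : 0 ≤ B) (he : b.natDegree ≤ e)
    (hb : ∀ n, |(b.coeff n : ℝ)| ≤ B) (h : b = (X - C t) * q) :
    q.natDegree ≤ e ∧ (q = 0 ∨ q.natDegree + 1 ≤ b.natDegree) ∧
      ∀ n, |(q.coeff n : ℝ)| ≤ ((e : ℝ) + 1) * B / max 1 |(t : ℝ)| := by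
  have hM : 0 < max 1 |(t : ℝ)| := lt_of_lt_of_le one_pos (le_max_left _ _)
  have hdeg : q = 0 ∨ q.natDegree + 1 ≤ b.natDegree := by
    by_cases hq : q = 0
    · exact Or.inl hq
    · right
      rw [h, (monic_X_sub_C t).natDegree_mul' hq, natDegree_X_sub_C]
      omega
  refine ⟨?_, hdeg, ?_⟩
  · rcases hdeg with h1 | h1
    · rw [h1, natDegree_zero]
      exact Nat.zero_le _
    · omega
  have h0 : b.coeff 0 = -(t * q.coeff 0) := by
    rw [h, sub_mul, coeff_sub, coeff_C_mul, mul_comm X q, coeff_mul_X_zero, zero_sub]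
  have hs : ∀ n, b.coeff (n + 1) = q.coeff n - t * q.coeff (n + 1) := by
    intro n
    rw [h, sub_mul, coeff_sub, coeff_C_mul, mul_comm X q, coeff_mul_X]
  have he0 : (0 : ℝ) ≤ e := Nat.cast_nonneg e
  by_cases ht : t = 0
  · intro n
    have h1 := hs n
    rw [ht, zero_mul, sub_zero] at h1
    rw [← h1, ht, Int.cast_zero, abs_zero, max_eq_left zero_le_one, div_one]
    refine (hb _).trans ?_
    nlinarith
  · have ht1 : (1 : ℝ) ≤ |(t : ℝ)| := by
      have := Int.one_le_abs ht
      exact_mod_cast this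
    have ht0 : (0 : ℝ) < |(t : ℝ)| := by linarith
    rw [max_eq_right ht1]
    have key : ∀ n : ℕ, |(q.coeff n : ℝ)| ≤ ((n : ℝ) + 1) * B / |(t : ℝ)| := by
      intro n
      induction n with
      | zero =>
        rw [le_div_iff₀ ht0]
        have h1 := hb 0
        rw [h0] at h1
        push_cast at h1 ⊢
        rw [abs_neg, abs_mul] at h1
        linarith
      | succ n ih =>
        rw [le_div_iff₀ ht0]
        have h1 := hb (n + 1)
        have h2 : (t : ℝ) * q.coeff (n + 1) = q.coeff n - b.coeff (n + 1) := by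
          have h3 := hs n
          rw [h3]
          push_cast
          ring
        have h4 : |(t : ℝ)| * |(q.coeff (n + 1) : ℝ)| ≤
            |(q.coeff n : ℝ)| + |(b.coeff (n + 1) : ℝ)| := by
          rw [← abs_mul, h2]
          exact abs_sub _ _
        have h5 : ((n : ℝ) + 1) * B / |(t : ℝ)| ≤ ((n : ℝ) + 1) * B :=
          div_le_self (by positivity) ht1
        push_cast
        linarith
    intro n
    by_cases hn : n ≤ e
    · refine (key n).trans ?_
      have : (n : ℝ) ≤ e := by exact_mod_cast hn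
      gcongr
    · have h1 : q.coeff n = 0 := by
        apply coeff_eq_zero_of_natDegree_lt
        rcases hdeg with h2 | h2
        · rw [h2, natDegree_zero]
          omega
        · omega
      rw [h1, Int.cast_zero, abs_zero]
      positivity

/-- the product of the linear factors -/
noncomputable def lin (ts : List ℤ) : ℤ[X] := (ts.map fun t => X - C t).prod

/-- the product of the sizes -/
noncomputable def szp (ts : List ℤ) : ℝ := (ts.map fun t : ℤ => max (1 : ℝ) |(t : ℝ)|).prod

lemma lin_cons (t : ℤ) (ts : List ℤ) : lin (t :: ts) = (X - C t) * lin ts := by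
  unfold lin
  rw [List.map_cons, List.prod_cons]

lemma lin_monic (ts : List ℤ) : (lin ts).Monic := by
  induction ts with
  | nil =>
    unfold lin
    rw [List.map_nil, List.prod_nil]
    exact monic_one
  | cons t ts ih =>
    rw [lin_cons]
    exact (monic_X_sub_C t).mul ih

lemma szp_pos (ts : List ℤ) : 1 ≤ szp ts := by
  unfold szp
  induction ts with
  | nil => simp
  | cons t ts ih =>
    rw [List.map_cons, List.prod_cons]
    have h1 : (1 : ℝ) ≤ max 1 |(t : ℝ)| := le_max_left _ _
    nlinarith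

lemma div_roots (ts : List ℤ) : ∀ {b q : ℤ[X]} {e : ℕ} {B : ℝ}, 0 ≤ B → b.natDegree ≤ e →
    (∀ n, |(b.coeff n : ℝ)| ≤ B) → b = lin ts * q →
    (q = 0 ∨ q.natDegree + ts.length ≤ b.natDegree) ∧
      ∀ n, |(q.coeff n : ℝ)| ≤ ((e : ℝ) + 1) ^ ts.length * B / szp ts := by
  induction ts with
  | nil =>
    intro b q e B hB he hb h
    unfold lin at h
    rw [List.map_nil, List.prod_nil, one_mul] at h
    subst h
    refine ⟨Or.inr (by simp), fun n => ?_⟩
    unfold szp
    simpa using hb n
  | cons t ts ih =>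
    intro b q e B hB he hb h
    have h1 : b = (X - C t) * (lin ts * q) := by
      rw [h]
      unfold lin
      rw [List.map_cons, List.prod_cons, mul_assoc]
    obtain ⟨g1, g2, g3⟩ := div_one_root hB he hb h1
    have hM : (0 : ℝ) < max 1 |(t : ℝ)| := lt_of_lt_of_le one_pos (le_max_left _ _)
    obtain ⟨f1, f2⟩ := ih (b := lin ts * q) (q := q) (e := e)
      (B := ((e : ℝ) + 1) * B / max 1 |(t : ℝ)|) (by positivity) g1 g3 rfl
    constructor
    · rcases f1 with f1 | f1
      · exact Or.inl f1
      · rcases g2 with g2 | g2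
        · left
          rw [g2, natDegree_zero] at f1
          have h2 := (mul_eq_zero.1 g2)
          rcases h2 with h2 | h2
          · exfalso
            exact (lin_monic ts).ne_zero h2
          · exact h2
        · right
          rw [List.length_cons]
          omega
    · intro n
      refine (f2 n).trans (le_of_eq ?_)
      have hs := szp_pos ts
      have e1 : szp (t :: ts) = max 1 |(t : ℝ)| * szp ts := by
        unfold szp
        rw [List.map_cons, List.prod_cons]
      rw [e1, List.length_cons, pow_succ]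
      field_simp

/-- **Few polynomials with given zeros.** -/
theorem card_roots (e : ℕ) (ts : List ℤ) {B : ℝ} (hB : 0 ≤ B)
    (T : Finset ℤ[X]) (hT : ∀ b ∈ T, b.natDegree ≤ e ∧ (∀ n, |(b.coeff n : ℝ)| ≤ B) ∧
      lin ts ∣ b) :
    T.card ≤ (2 * ⌊((e : ℝ) + 1) ^ ts.length * B / szp ts⌋₊ + 1) ^ (e + 1 - ts.length) := by
  classical
  obtain ⟨F, hF⟩ : ∃ F, F = ⌊((e : ℝ) + 1) ^ ts.length * B / szp ts⌋₊ := ⟨_, rfl⟩
  rw [← hF]
  have hex : ∀ b ∈ T, ∃ q : ℤ[X], b = lin ts * q := fun b hb => (hT b hb).2.2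
  choose! q hq using hex
  have hcard : (Fintype.piFinset fun _ : Fin (e + 1 - ts.length) => Finset.Icc (-(F : ℤ)) F).card =
      (2 * F + 1) ^ (e + 1 - ts.length) := by
    rw [Fintype.card_piFinset]
    simp only [Int.card_Icc, Finset.prod_const, Finset.card_univ, Fintype.card_fin]
    congr 1
    omega
  rw [← hcard]
  apply Finset.card_le_card_of_injOn (fun b => fun i : Fin (e + 1 - ts.length) =>
    (q b).coeff (i : ℕ))
  · intro b hb
    rw [Finset.mem_coe] at hb
    obtain ⟨h1, h2, -⟩ := hT b hb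
    have h3 := (div_roots ts hB h1 h2 (hq b hb)).2
    rw [Finset.mem_coe, Fintype.mem_piFinset]
    intro i
    have h4 := h3 (i : ℕ)
    rw [Finset.mem_Icc, ← abs_le]
    have h5 : (((q b).coeff (i : ℕ)).natAbs : ℝ) ≤ ((e : ℝ) + 1) ^ ts.length * B / szp ts := by
      rwa [Nat.cast_natAbs, Int.cast_abs]
    have h6 := Nat.le_floor h5
    rw [← hF] at h6
    rw [Int.abs_eq_natAbs]
    exact_mod_cast h6
  · intro b hb b' hb' hbb
    rw [Finset.mem_coe] at hb hb'
    have h1 : ∀ b ∈ T, ∀ n, e + 1 - ts.length ≤ n → (q b).coeff n = 0 := by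
      intro b hb n hn
      obtain ⟨h1, h2, -⟩ := hT b hb
      rcases (div_roots ts hB h1 h2 (hq b hb)).1 with h3 | h3
      · rw [h3, coeff_zero]
      · apply coeff_eq_zero_of_natDegree_lt
        omega
    have h2 : q b = q b' := by
      ext n
      rcases lt_or_ge n (e + 1 - ts.length) with h3 | h3
      · exact congrFun hbb ⟨n, h3⟩
      · rw [h1 b hb n h3, h1 b' hb' n h3]
    rw [hq b hb, hq b' hb', h2]

/-- distinct zeros give a divisor -/
lemma lin_dvd {ts : List ℤ} (hts : ts.Nodup) {b : ℤ[X]} (hb : ∀ t ∈ ts, b.eval t = 0) :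
    lin ts ∣ b := by
  classical
  by_cases h0 : b = 0
  · rw [h0]
    exact dvd_zero _
  have h1 : lin ts = ((ts : Multiset ℤ).map fun t => X - C t).prod := by
    unfold lin
    rw [Multiset.map_coe, Multiset.prod_coe]
  rw [h1, Multiset.prod_X_sub_C_dvd_iff_le_roots h0]
  rw [Multiset.le_iff_subset (Multiset.coe_nodup.2 hts)]
  intro t ht
  rw [mem_roots h0]
  exact hb t (Multiset.mem_coe.1 ht)

end Pool.Agent.Run7.h953.KP
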